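import Mathlib

set_option autoImplicit false

namespace Pool.Agent.Helper601.TE

/-- `n`-Engel groups -/
def Eng (n : ℕ) (G : Type*) [Group G] : Prop :=
  ∀ x y : G, (fun z : G => z⁻¹ * x⁻¹ * z * x)^[n] y = 1

/-- the left-normed commutator `[x, g₁, ..., g_m]` with `[z, g] = z⁻¹ g⁻¹ z g` -/
def cw {G : Type*} [Group G] (x : G) (l : List G) : G :=
  l.foldl (fun z g => z⁻¹ * g⁻¹ * z * g) x

/-- subgroup generated by the `q`-th powers of the elements of `H` -/
def PW {G : Type*} [Group G] (q : ℕ) (H : Subgroup G) : Subgroup G :=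
  Subgroup.closure ((fun x : G => x ^ q) '' (H : Set G))

/-- `[H, G, ..., G]` (`j` times) -/
def LC {G : Type*} [Group G] (H : Subgroup G) : ℕ → Subgroup G
  | 0 => H
  | j + 1 => ⁅LC H j, (⊤ : Subgroup G)⁆

/-- `N` is a normal subgroup of `G` such that all `G`-normal subgroups of `N` are
powerfully embedded in `N` (with an additional property needed for `q = 2`) -/
structure Pwr {G : Type*} [Group G] (q : ℕ) (N : Subgroup G) : Prop where
  normal : N.Normal
  emb : ∀ K : Subgroup G, K.Normal → K ≤ N → ⁅K, N⁆ ≤ PW q K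
  mul : ∀ K : Subgroup G, K.Normal → K ≤ N → ∀ x ∈ N, ∀ u ∈ K,
    (x ^ q * u ^ q)⁻¹ * (x * u) ^ q ∈ PW q (PW q K)

end Pool.Agent.Helper601.TE
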