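import Mathlib
import Pool.Agent.Helper601.TE.Defs
import Pool.Agent.Helper277.ZG.All

set_option autoImplicit false

namespace Pool.Agent.Helper601.TE

open Pool.Agent.Helper277.ZG.Kos

theorem log_span_lie2 {H : Type*} [Group H] {R : Type*} [Ring R] [Algebra ℚ R] (ρ : H →* R)
    (v : H → R) (hv : ∀ h, Jet (fun s => ρ h ^ s) (v h)) :
    (∀ h, v h⁻¹ = - v h) ∧ (∀ g h, v (g * h * g⁻¹) = ρ g * v h * ρ g⁻¹) ∧
    ∀ x ∈ Submodule.span ℚ (Set.range v), ∀ y ∈ Submodule.span ℚ (Set.range v),
      x * y - y * x ∈ Submodule.span ℚ (Set.range v) := by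
  have hinv1 : ∀ h, ρ h * ρ h⁻¹ = 1 := fun h => by rw [← map_mul, mul_inv_cancel, map_one]
  have hinv2 : ∀ h, ρ h⁻¹ * ρ h = 1 := fun h => by rw [← map_mul, inv_mul_cancel, map_one]
  have A1 : ∀ h, v h⁻¹ = - v h := by
    intro h
    have h1 := (hv h).mul (hv h⁻¹)
    have h2 : (fun s : ℕ => ρ h ^ s * ρ h⁻¹ ^ s) = fun _ => (1 : R) := by
      funext s
      rw [← map_pow, ← map_pow, ← map_mul, inv_pow, mul_inv_cancel, map_one]
    rw [h2] at h1
    have h3 := Jet.unique h1 Jet.one
    exact eq_neg_of_add_eq_zero_right h3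
  have A2 : ∀ g h, v (g * h * g⁻¹) = ρ g * v h * ρ g⁻¹ := by
    intro g h
    have h1 := Jet.conj (hinv1 g) (hv h)
    have h2 : (fun s : ℕ => ρ g * ρ h ^ s * ρ g⁻¹) = fun s => ρ (g * h * g⁻¹) ^ s := by
      funext s
      rw [← map_pow, ← map_pow, ← map_mul, ← map_mul, conj_pow]
    rw [h2] at h1
    exact Jet.unique (hv _) h1
  refine ⟨A1, A2, ?_⟩
  set S := Submodule.span ℚ (Set.range v) with hS
  have key : ∀ a b, v a * v b - v b * v a ∈ S := by
    intro a b
    obtain ⟨g, hg, hg0, hgs⟩ := hv a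
    obtain ⟨k, hk, hk0, hks⟩ := hv a⁻¹
    let K : ℕ → R := fun s => (g s * v b + v b * k s) + (s : ℚ) • (g s * v b * k s)
    have hK : PF K :=
      ((hg.mul (PF.const _)).add ((PF.const _).mul hk)).add
        (((hg.mul (PF.const _)).mul hk).id_smul)
    have hF : ∀ s : ℕ, ρ a ^ s * v b * ρ a⁻¹ ^ s = v (a ^ s * b * (a ^ s)⁻¹) := by
      intro s
      rw [A2, ← map_pow, ← map_pow, inv_pow]
    have hKF : ∀ s : ℕ, (s : ℚ) • K s = v (a ^ s * b * (a ^ s)⁻¹) - v b := by
      intro s
      have e1 : ρ a ^ s = 1 + (s : ℚ) • g s := hgs s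
      have e2 : ρ a⁻¹ ^ s = 1 + (s : ℚ) • k s := hks s
      rw [← hF s, e1, e2]
      simp only [K]
      simp only [add_mul, mul_add, one_mul, mul_one, smul_add, smul_mul_assoc, mul_smul_comm,
        smul_smul]
      abel
    have hmem : ∀ s : ℕ, 1 ≤ s → K s ∈ S := by
      intro s hs
      have hs0 : (s : ℚ) ≠ 0 := by exact_mod_cast (by omega : s ≠ 0)
      have h1 : K s = (s : ℚ)⁻¹ • (v (a ^ s * b * (a ^ s)⁻¹) - v b) := by
        rw [← hKF, smul_smul, inv_mul_cancel₀ hs0, one_smul]
      rw [h1]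
      exact S.smul_mem _ (S.sub_mem (Submodule.subset_span ⟨_, rfl⟩)
        (Submodule.subset_span ⟨_, rfl⟩))
    have h0 := PF.mem hK S hmem
    have h4 : K 0 = v a * v b - v b * v a := by
      simp only [K]
      rw [hg0, hk0, A1]
      simp [sub_eq_add_neg]
    rw [← h4]
    exact h0
  intro x hx y hy
  induction hx using Submodule.span_induction with
  | mem x hx =>
    obtain ⟨a, rfl⟩ := hx
    induction hy using Submodule.span_induction with
    | mem y hy =>
      obtain ⟨b, rfl⟩ := hy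
      exact key a b
    | zero => simp
    | add y z _ _ h1 h2 =>
      have : v a * (y + z) - (y + z) * v a = (v a * y - y * v a) + (v a * z - z * v a) := by
        noncomm_ring
      rw [this]; exact S.add_mem h1 h2
    | smul c y _ h1 =>
      have : v a * (c • y) - (c • y) * v a = c • (v a * y - y * v a) := by
        rw [mul_smul_comm, smul_mul_assoc, smul_sub]
      rw [this]; exact S.smul_mem _ h1
  | zero => simp
  | add x z _ _ h1 h2 =>
    have : (x + z) * y - y * (x + z) = (x * y - y * x) + (z * y - y * z) := by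
      noncomm_ring
    rw [this]; exact S.add_mem h1 h2
  | smul c x _ h1 =>
    have : (c • x) * y - y * (c • x) = c • (x * y - y * x) := by
      rw [mul_smul_comm, smul_mul_assoc, smul_sub]
    rw [this]; exact S.smul_mem _ h1


/-- elements of the span of logarithms are nilpotent of index `n` -/
theorem span_log_pow {H : Type*} [Group H] {R : Type*} [Ring R] [Algebra ℚ R] (ρ : H →* R) (n : ℕ)
    (hn : ∀ g, (ρ g - 1) ^ n = 0) (v : H → R) (hv : ∀ h, Jet (fun s => ρ h ^ s) (v h)) :
    ∀ u ∈ Submodule.span ℚ (Set.range v), u ^ n = 0 := by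
  intro u hu
  obtain ⟨D, l, hD, hl⟩ := eng_C v (log_span_lie2 ρ v hv).1 u hu
  have hjet : Jet (fun s : ℕ => ρ ((l.map (fun h => h ^ s)).prod)) ((l.map v).sum) := by
    clear hl
    induction l with
    | nil =>
      have e : (fun s : ℕ => ρ ((([] : List H).map (fun h => h ^ s)).prod)) = fun _ => (1 : R) := by
        funext s; simp
      rw [e]
      simpa using (Jet.one : Jet (fun _ => (1 : R)) 0)
    | cons a l ih =>
      have h1 := (hv a).mul ih
      have e : (fun s : ℕ => ρ (((a :: l).map (fun h => h ^ s)).prod)) =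
          fun s : ℕ => ρ a ^ s * ρ ((l.map (fun h => h ^ s)).prod) := by
        funext s
        rw [List.map_cons, List.prod_cons, map_mul, map_pow]
      rw [e, List.map_cons, List.sum_cons]
      exact h1
  obtain ⟨g, hg, hg0, hgs⟩ := hjet
  have h0 : (g 0) ^ n = 0 := by
    have := (hg.pow n).mem (⊥ : Submodule ℚ R) (by
      intro s hs
      rw [Submodule.mem_bot]
      have h1 : (ρ ((l.map (fun h => h ^ s)).prod) - 1) ^ n = 0 := hn _
      have h2 : ρ ((l.map (fun h => h ^ s)).prod) = 1 + (s : ℚ) • g s := hgs s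
      rw [h2, add_sub_cancel_left, smul_pow] at h1
      have hs0 : ((s : ℚ) ^ n) ≠ 0 := by
        apply pow_ne_zero
        have : s ≠ 0 := by omega
        exact_mod_cast this
      exact (smul_eq_zero.1 h1).resolve_left hs0)
    simpa using this
  rw [hg0, ← hl, smul_pow] at h0
  have hD0 : ((D : ℚ) ^ n) ≠ 0 := by
    apply pow_ne_zero
    have : D ≠ 0 := by omega
    exact_mod_cast this
  exact (smul_eq_zero.1 h0).resolve_left hD0

end Pool.Agent.Helper601.TE
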