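import Mathlib
import Pool.Agent.Helper601.TE.Defs
import Pool.Agent.Helper601.TE.Unip1
import Pool.Agent.Helper277.ZG.All

set_option autoImplicit false

namespace Pool.Agent.Helper601.TE

open Pool.Agent.Helper277.ZG.Kos

attribute [local instance 100] LieRing.ofAssociativeRing

/-- the statement proved in `Assoc` -/
def AssocNil : Prop := ∀ (R : Type) [Ring R] [Algebra ℚ R] (n c : ℕ) (W : ℕ → Submodule ℚ R)
    (_ : Antitone W) (_ : W c = ⊥)
    (_ : ∀ i j, ∀ x ∈ W i, ∀ y ∈ W j, x * y - y * x ∈ W (i + j + 1))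
    (_ : ∀ x ∈ W 0, x ^ n = 0),
    ∀ l : List R, (∀ x ∈ l, x ∈ W 0) → l.length = n * c + 1 → l.prod = 0

/-- products of at least `k` elements of `V` -/
def TT {R : Type} [Ring R] [Algebra ℚ R] (V : Submodule ℚ R) (k : ℕ) : Submodule ℚ R :=
  Submodule.span ℚ {x | ∃ l : List R, (∀ y ∈ l, y ∈ V) ∧ k ≤ l.length ∧ x = l.prod}

theorem TT_mul {R : Type} [Ring R] [Algebra ℚ R] (V : Submodule ℚ R) (i j : ℕ) (x y : R)
    (hx : x ∈ TT V i) (hy : y ∈ TT V j) : x * y ∈ TT V (i + j) := by
  unfold TT at hx hy ⊢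
  induction hx using Submodule.span_induction with
  | mem x hx =>
    obtain ⟨l, hl1, hl2, rfl⟩ := hx
    induction hy using Submodule.span_induction with
    | mem y hy =>
      obtain ⟨l', hl1', hl2', rfl⟩ := hy
      refine Submodule.subset_span ⟨l ++ l', ?_, ?_, by simp⟩
      · intro y hy
        rcases List.mem_append.1 hy with h | h
        · exact hl1 y h
        · exact hl1' y h
      · rw [List.length_append]; omega
    | zero => rw [mul_zero]; exact Submodule.zero_mem _
    | add a b _ _ ha hb => rw [mul_add]; exact Submodule.add_mem _ ha hb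
    | smul q a _ ha => rw [mul_smul_comm]; exact Submodule.smul_mem _ _ ha
  | zero => rw [zero_mul]; exact Submodule.zero_mem _
  | add a b _ _ ha hb => rw [add_mul]; exact Submodule.add_mem _ ha hb
  | smul q a _ ha => rw [smul_mul_assoc]; exact Submodule.smul_mem _ _ ha

theorem unip_Q (hassoc : AssocNil) (n : ℕ) : ∃ m, ∀ (R : Type) [Ring R] [Algebra ℚ R]
    (G : Type) [Group G] (ρ : G →* R), (∀ g, (ρ g - 1) ^ n = 0) →
      ∀ l : List G, l.length = m → (l.map (fun g => ρ g - 1)).prod = 0 := by
  obtain ⟨c, hc⟩ := Pool.Agent.Helper277.Zel.zelmanov_global (2 * n)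
  refine ⟨n * c + 1, ?_⟩
  intro R _ _ G _ ρ hn l hl
  choose v hv using fun g : G => Jet.pow_unipotent (hn g)
  obtain ⟨-, -, hS⟩ := log_span_lie2 ρ v hv
  have hpow := span_log_pow ρ n hn v hv
  let 𝔤 : LieSubalgebra ℚ R :=
    { Submodule.span ℚ (Set.range v) with
      lie_mem' := by
        intro x y hx hy
        rw [Ring.lie_def]
        exact hS x hx y hy }
  have hbot : LieModule.lowerCentralSeries ℚ 𝔤 𝔤 c = ⊥ := by
    apply hc 𝔤
    intro u
    ext w
    have key : ∀ k : ℕ, (((LieAlgebra.ad ℚ 𝔤 u) ^ k) w : R) =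
        ((LinearMap.mulLeft ℚ (u : R) - LinearMap.mulRight ℚ (u : R)) ^ k) (w : R) := by
      intro k
      induction k with
      | zero => simp
      | succ k ih =>
        rw [pow_succ', pow_succ', Module.End.mul_apply, Module.End.mul_apply, ← ih]
        simp only [LieAlgebra.ad_apply, LieSubalgebra.coe_bracket, Ring.lie_def,
          LinearMap.sub_apply, LinearMap.mulLeft_apply, LinearMap.mulRight_apply]
    have hu : (u : R) ^ n = 0 := hpow _ u.2
    have hz : (LinearMap.mulLeft ℚ (u : R) - LinearMap.mulRight ℚ (u : R)) ^ (2 * n) = 0 := by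
      have hcm : Commute (LinearMap.mulLeft ℚ (u : R) : Module.End ℚ R)
          (-(LinearMap.mulRight ℚ (u : R) : Module.End ℚ R)) :=
        (LinearMap.commute_mulLeft_right (R := ℚ) (u : R) (u : R)).neg_right
      have h1 : (LinearMap.mulLeft ℚ (u : R) : Module.End ℚ R) ^ n = 0 := by
        rw [LinearMap.pow_mulLeft, hu]; ext w; simp
      have h2 : (-(LinearMap.mulRight ℚ (u : R) : Module.End ℚ R)) ^ n = 0 := by
        rw [neg_pow, LinearMap.pow_mulRight, hu]; ext w; simp
      rw [sub_eq_add_neg]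
      exact Commute.add_pow_eq_zero_of_add_le_succ_of_pow_eq_zero hcm h1 h2 (by omega)
    have h1 := key (2 * n)
    rw [hz] at h1
    simpa using h1
  let W : ℕ → Submodule ℚ R := fun j =>
    ((LieModule.lowerCentralSeries ℚ 𝔤 𝔤 j : LieSubmodule ℚ 𝔤 𝔤) : Submodule ℚ 𝔤).map 𝔤.toSubmodule.subtype
  have hWanti : Antitone W := by
    intro i j hij
    apply Submodule.map_mono
    exact LieModule.antitone_lowerCentralSeries ℚ 𝔤 𝔤 hij
  have hWbot : W c = ⊥ := by
    show Submodule.map _ _ = ⊥
    rw [hbot]; simp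
  have hW0 : ∀ x ∈ Submodule.span ℚ (Set.range v), x ∈ W 0 := by
    intro x hx
    exact ⟨⟨x, hx⟩, by simp, rfl⟩
  have hW0' : ∀ x ∈ W 0, x ∈ Submodule.span ℚ (Set.range v) := by
    rintro x ⟨x', -, rfl⟩
    exact x'.2
  have hWstep : ∀ i j, ∀ x ∈ W i, ∀ y ∈ W j, x * y - y * x ∈ W (i + j + 1) := by
    have h0 : ∀ j i : ℕ, ∀ y ∈ LieModule.lowerCentralSeries ℚ 𝔤 𝔤 j,
        ∀ x ∈ LieModule.lowerCentralSeries ℚ 𝔤 𝔤 i,
        ⁅x, y⁆ ∈ LieModule.lowerCentralSeries ℚ 𝔤 𝔤 (i + j + 1) := by
      intro j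
      induction j with
      | zero =>
        intro i y _ x hx
        rw [LieModule.lowerCentralSeries_succ, ← lie_skew]
        exact neg_mem (LieSubmodule.lie_mem_lie (LieSubmodule.mem_top _) hx)
      | succ j ih =>
        intro i y hy x hx
        rw [LieModule.lowerCentralSeries_succ] at hy
        rw [← LieSubmodule.mem_toSubmodule, LieSubmodule.lieIdeal_oper_eq_linear_span] at hy
        rw [← LieSubmodule.mem_toSubmodule]
        induction hy using Submodule.span_induction with
        | mem y hy =>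
          obtain ⟨⟨a, ha⟩, ⟨w, hw⟩, rfl⟩ := hy
          change ⁅x, ⁅a, w⁆⁆ ∈ _
          rw [leibniz_lie]
          apply Submodule.add_mem
          · have hxa : ⁅x, a⁆ ∈ LieModule.lowerCentralSeries ℚ 𝔤 𝔤 (i + 1) := by
              rw [LieModule.lowerCentralSeries_succ, ← lie_skew]
              exact neg_mem (LieSubmodule.lie_mem_lie (LieSubmodule.mem_top _) hx)
            have := ih (i + 1) w hw _ hxa
            have e : i + 1 + j + 1 = i + (j + 1) + 1 := by ring
            rw [e] at this
            exact this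
          · have h2 := ih i w hw x hx
            have e : i + (j + 1) + 1 = (i + j + 1) + 1 := by ring
            rw [e, LieSubmodule.mem_toSubmodule, LieModule.lowerCentralSeries_succ]
            exact LieSubmodule.lie_mem_lie (LieSubmodule.mem_top _) h2
        | zero => rw [lie_zero]; exact Submodule.zero_mem _
        | add a b _ _ ha hb => rw [lie_add]; exact Submodule.add_mem _ ha hb
        | smul q a _ ha => rw [lie_smul]; exact Submodule.smul_mem _ _ ha
    rintro i j x ⟨x', hx', rfl⟩ y ⟨y', hy', rfl⟩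
    let X : 𝔤 := x'
    let Y : 𝔤 := y'
    exact ⟨⁅X, Y⁆, h0 j i Y hy' X hx', rfl⟩
  have hprod := hassoc R n c W hWanti hWbot hWstep (fun x hx => hpow x (hW0' x hx))
  -- every product of at least `n * c + 1` elements of `W 0` vanishes
  have hTbot : TT (W 0) (n * c + 1) = ⊥ := by
    rw [TT, Submodule.span_eq_bot]
    rintro x ⟨l', hl1, hl2, rfl⟩
    have h1 : (l'.take (n * c + 1)).prod = 0 := by
      apply hprod
      · intro x hx
        exact hl1 x (List.mem_of_mem_take hx)
      · rw [List.length_take]; omega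
    rw [← List.take_append_drop (n * c + 1) l', List.prod_append, h1, zero_mul]
  have hT1 : ∀ g, ρ g - 1 ∈ TT (W 0) 1 := by
    intro g
    obtain ⟨⟨N, hN⟩, he, -⟩ := exp_log (hn g) (hv g)
    have hN' : v g ^ (N + 1) = 0 := by rw [pow_succ, hN, zero_mul]
    have e : ρ g - 1 = ∑ i ∈ Finset.range N, ((i + 1).factorial : ℚ)⁻¹ • v g ^ (i + 1) := by
      rw [← he, IsNilpotent.exp_eq_sum hN', Finset.sum_range_succ']
      simp
    rw [e]
    apply Submodule.sum_mem
    intro i _
    apply Submodule.smul_mem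
    refine Submodule.subset_span ⟨List.replicate (i + 1) (v g), ?_, by simp, by simp⟩
    intro y hy
    rw [List.eq_of_mem_replicate hy]
    exact hW0 _ (Submodule.subset_span ⟨g, rfl⟩)
  have hfin : ∀ l : List G, (l.map (fun g => ρ g - 1)).prod ∈ TT (W 0) l.length := by
    intro l
    induction l with
    | nil =>
      exact Submodule.subset_span ⟨[], by simp, by simp, by simp⟩
    | cons a l ih =>
      rw [List.map_cons, List.prod_cons, List.length_cons, add_comm]
      exact TT_mul _ _ _ _ _ (hT1 a) ih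
  have := hfin l
  rw [hl, hTbot, Submodule.mem_bot] at this
  exact this

end Pool.Agent.Helper601.TE
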