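import Mathlib
import Pool.Agent.Helper601.TE.Defs

set_option autoImplicit false

namespace Pool.Agent.Helper601.TE


section an
variable {R : Type} [Ring R] [Algebra ℚ R]

/-- products of `r` factors of total weight at least `T` -/
def anS (W : ℕ → Submodule ℚ R) (r T : ℕ) : Set R :=
  {p | ∃ l : List (ℕ × R), l.length = r ∧ (∀ q ∈ l, q.2 ∈ W q.1) ∧
    T ≤ (l.map (fun q => q.1 + 1)).sum ∧ p = (l.map Prod.snd).prod}

/-- their span -/
def anQ (W : ℕ → Submodule ℚ R) (r T : ℕ) : Submodule ℚ R := Submodule.span ℚ (anS W r T)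

theorem an_mono {W : ℕ → Submodule ℚ R} {r T T' : ℕ} (h : T ≤ T') : anQ W r T' ≤ anQ W r T := by
  apply Submodule.span_mono
  rintro p ⟨l, h1, h2, h3, h4⟩
  exact ⟨l, h1, h2, h.trans h3, h4⟩

theorem an_mul_left {W : ℕ → Submodule ℚ R} {i : ℕ} {x : R} (hx : x ∈ W i) {r T : ℕ} {a : R}
    (ha : a ∈ anQ W r T) : x * a ∈ anQ W (r + 1) ((i + 1) + T) := by
  unfold anQ at ha
  induction ha using Submodule.span_induction with
  | mem a ha =>
    obtain ⟨l, h1, h2, h3, rfl⟩ := ha
    apply Submodule.subset_span
    refine ⟨(i, x) :: l, by simp [h1], ?_, ?_, by simp⟩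
    · intro q hq
      rcases List.mem_cons.1 hq with rfl | hq
      · exact hx
      · exact h2 q hq
    · simp only [List.map_cons, List.sum_cons]
      omega
  | zero => rw [mul_zero]; exact Submodule.zero_mem _
  | add a b _ _ iha ihb => rw [mul_add]; exact Submodule.add_mem _ iha ihb
  | smul c a _ ih => rw [mul_smul_comm]; exact Submodule.smul_mem _ _ ih

theorem an_perm {W : ℕ → Submodule ℚ R}
    (hlie : ∀ i j, ∀ x ∈ W i, ∀ y ∈ W j, x * y - y * x ∈ W (i + j + 1))
    {l l' : List (ℕ × R)} (h : l.Perm l') : (∀ q ∈ l, q.2 ∈ W q.1) → ∀ s, l.length = s + 1 →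
    (l.map Prod.snd).prod - (l'.map Prod.snd).prod ∈ anQ W s (l.map (fun q => q.1 + 1)).sum := by
  induction h with
  | nil => intro _ s hs; simp at hs
  | @cons x l1 l2 h ih =>
    intro hok s hs
    simp only [List.map_cons, List.prod_cons, List.sum_cons]
    rw [← mul_sub]
    cases s with
    | zero =>
      have hl : l1 = [] := by
        rw [← List.length_eq_zero_iff]
        simpa using hs
      subst hl
      have hl2 : l2 = [] := h.symm.eq_nil
      subst hl2
      simp
    | succ s =>
      have h1 : l1.length = s + 1 := by simpa using hs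
      have h2 := ih (fun q hq => hok q (List.mem_cons_of_mem _ hq)) s h1
      exact an_mul_left (hok x List.mem_cons_self) h2
  | swap x y l =>
    intro hok s hs
    have hx : x.2 ∈ W x.1 := hok x (List.mem_cons_of_mem _ List.mem_cons_self)
    have hy : y.2 ∈ W y.1 := hok y List.mem_cons_self
    apply Submodule.subset_span
    refine ⟨(y.1 + x.1 + 1, y.2 * x.2 - x.2 * y.2) :: l, ?_, ?_, ?_, ?_⟩
    · simp only [List.length_cons] at hs ⊢
      omega
    · intro q hq
      rcases List.mem_cons.1 hq with rfl | hq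
      · exact hlie _ _ _ hy _ hx
      · exact hok q (List.mem_cons_of_mem _ (List.mem_cons_of_mem _ hq))
    · simp only [List.map_cons, List.sum_cons]
      omega
    · simp only [List.map_cons, List.prod_cons]
      noncomm_ring
  | @trans l1 l2 l3 h1 h2 ih1 ih2 =>
    intro hok s hs
    have h3 := ih1 hok s hs
    have h4 := ih2 (fun q hq => hok q (h1.mem_iff.2 hq)) s (by rw [← h1.length_eq]; exact hs)
    have h5 : (l1.map (fun q => q.1 + 1)).sum = (l2.map (fun q => q.1 + 1)).sum :=
      (h1.map _).sum_eq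
    rw [← h5] at h4
    have h6 := Submodule.add_mem _ h3 h4
    rwa [sub_add_sub_cancel] at h6

/-- linearised nil identity -/
theorem an_lin {n : ℕ} (V : Submodule ℚ R) (hnil : ∀ x ∈ V, x ^ n = 0) (w : Fin n → R)
    (hw : ∀ i, w i ∈ V) : ∑ σ : Equiv.Perm (Fin n), (List.ofFn (fun i => w (σ i))).prod = 0 := by
  classical
  let f : (Fin n → Fin n) → R := fun r => (List.ofFn (fun i => w (r i))).prod
  have hA : ∀ S : Finset (Fin n), ∑ r ∈ Fintype.piFinset (fun _ : Fin n => S), f r = 0 := by
    intro S
    have h1 := (MultilinearMap.mkPiAlgebraFin ℚ n R).map_sum_finset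
      (g := fun _ j => w j) (fun _ : Fin n => S)
    have h2 : (MultilinearMap.mkPiAlgebraFin ℚ n R) (fun _ => ∑ j ∈ S, w j) = 0 := by
      rw [MultilinearMap.mkPiAlgebraFin_apply, List.ofFn_const, List.prod_replicate]
      exact hnil _ (V.sum_mem (fun i _ => hw i))
    rw [h2] at h1
    simp only [MultilinearMap.mkPiAlgebraFin_apply] at h1
    exact h1.symm
  have hP : ∀ S : Finset (Fin n),
      ∑ r ∈ Finset.univ.filter (fun r : Fin n → Fin n => Finset.univ.image r = S), f r = 0 := by
    intro S
    induction S using Finset.strongInduction with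
    | H S ih =>
      have h1 := hA S
      have h2 : ∑ r ∈ Fintype.piFinset (fun _ : Fin n => S), f r =
          ∑ U ∈ S.powerset, ∑ r ∈ (Fintype.piFinset (fun _ : Fin n => S)).filter
            (fun r => Finset.univ.image r = U), f r := by
        rw [Finset.sum_fiberwise_of_maps_to]
        intro r hr
        rw [Finset.mem_powerset]
        intro a ha
        rw [Finset.mem_image] at ha
        obtain ⟨i, _, rfl⟩ := ha
        exact Fintype.mem_piFinset.1 hr i
      have h3 : ∀ U ∈ S.powerset, (Fintype.piFinset (fun _ : Fin n => S)).filter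
            (fun r => Finset.univ.image r = U) =
          Finset.univ.filter (fun r : Fin n → Fin n => Finset.univ.image r = U) := by
        intro U hU
        ext r
        simp only [Finset.mem_filter, Fintype.mem_piFinset, Finset.mem_univ, true_and,
          and_iff_right_iff_imp]
        rintro rfl i
        exact Finset.mem_powerset.1 hU (Finset.mem_image_of_mem _ (Finset.mem_univ i))
      rw [h2, Finset.sum_congr rfl (fun U hU => by rw [h3 U hU]),
        ← Finset.sum_erase_add _ _ (Finset.mem_powerset_self S), Finset.sum_eq_zero, zero_add] at h1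
      · exact h1
      · intro U hU
        rw [Finset.mem_erase, Finset.mem_powerset] at hU
        exact ih U (Finset.ssubset_iff_subset_ne.2 ⟨hU.2, hU.1⟩)
  rw [← hP Finset.univ]
  apply Finset.sum_bij (fun (σ : Equiv.Perm (Fin n)) _ => (σ : Fin n → Fin n))
  · intro σ _
    rw [Finset.mem_filter]
    exact ⟨Finset.mem_univ _, Finset.image_univ_of_surjective σ.surjective⟩
  · intro σ _ τ _ h
    exact DFunLike.coe_injective h
  · intro r hr
    rw [Finset.mem_filter] at hr
    have hs : Function.Surjective r := by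
      intro a
      have : a ∈ Finset.univ.image r := by rw [hr.2]; exact Finset.mem_univ a
      rw [Finset.mem_image] at this
      obtain ⟨i, _, hi⟩ := this
      exact ⟨i, hi⟩
    exact ⟨Equiv.ofBijective r (Finite.injective_iff_surjective.2 hs |>.bijective_of_finite),
      Finset.mem_univ _, rfl⟩
  · intro σ _
    rfl

theorem an_step {n : ℕ} {W : ℕ → Submodule ℚ R} (hanti : Antitone W)
    (hlie : ∀ i j, ∀ x ∈ W i, ∀ y ∈ W j, x * y - y * x ∈ W (i + j + 1))
    (hnil : ∀ x ∈ W 0, x ^ n = 0) {s T : ℕ} (hs : n ≤ s + 1) : anQ W (s + 1) T ≤ anQ W s T := by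
  apply Submodule.span_le.2
  rintro p ⟨l, h1, h2, h3, rfl⟩
  have hlen : n ≤ l.length := by omega
  let g : Fin n → ℕ × R := fun i => l.get ⟨i, lt_of_lt_of_le i.2 hlen⟩
  have hg : ∀ i, g i ∈ l := fun i => List.get_mem _ _
  have htake : List.ofFn g = l.take n := by
    apply List.ext_get
    · simp [hlen]
    · intro i hi1 hi2
      simp [g]
  have hperm : ∀ σ : Equiv.Perm (Fin n), l.Perm (List.ofFn (fun i => g (σ i)) ++ l.drop n) := by
    intro σ
    have h4 : (List.ofFn (fun i => g (σ i))).Perm (List.ofFn g) := Equiv.Perm.ofFn_comp_perm σ g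
    have h5 : (List.ofFn (fun i => g (σ i)) ++ l.drop n).Perm (List.ofFn g ++ l.drop n) :=
      h4.append_right _
    rw [htake, List.take_append_drop] at h5
    exact h5.symm
  have hmem : ∀ σ : Equiv.Perm (Fin n), (l.map Prod.snd).prod -
      ((List.ofFn (fun i => g (σ i)) ++ l.drop n).map Prod.snd).prod ∈ anQ W s T := by
    intro σ
    exact an_mono h3 (an_perm hlie (hperm σ) h2 s h1)
  have hsum := Submodule.sum_mem (anQ W s T) (t := Finset.univ) (fun σ _ => hmem σ)
  rw [Finset.sum_sub_distrib] at hsum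
  have hz : ∑ σ : Equiv.Perm (Fin n),
      ((List.ofFn (fun i => g (σ i)) ++ l.drop n).map Prod.snd).prod = 0 := by
    have h6 : ∀ σ : Equiv.Perm (Fin n),
        ((List.ofFn (fun i => g (σ i)) ++ l.drop n).map Prod.snd).prod =
        (List.ofFn (fun i => (g (σ i)).2)).prod * ((l.drop n).map Prod.snd).prod := by
      intro σ
      rw [List.map_append, List.prod_append, List.map_ofFn]
      rfl
    simp only [h6]
    rw [← Finset.sum_mul, an_lin (W 0) hnil (fun i => (g i).2)
      (fun i => hanti (Nat.zero_le _) (h2 _ (hg i))), zero_mul]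
  rw [hz, sub_zero, Finset.sum_const, Finset.card_univ, Fintype.card_perm, Fintype.card_fin] at hsum
  have h7 : (l.map Prod.snd).prod = ((n.factorial : ℚ)⁻¹) • (n.factorial • (l.map Prod.snd).prod) := by
    rw [← Nat.cast_smul_eq_nsmul ℚ, smul_smul, inv_mul_cancel₀, one_smul]
    exact_mod_cast Nat.factorial_ne_zero n
  rw [h7]
  exact Submodule.smul_mem _ _ hsum

theorem an_le {n : ℕ} {W : ℕ → Submodule ℚ R} (hanti : Antitone W)
    (hlie : ∀ i j, ∀ x ∈ W i, ∀ y ∈ W j, x * y - y * x ∈ W (i + j + 1))
    (hnil : ∀ x ∈ W 0, x ^ n = 0) {T : ℕ} (k : ℕ) : anQ W ((n - 1) + k) T ≤ anQ W (n - 1) T := by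
  induction k with
  | zero => exact le_rfl
  | succ k ih =>
    exact (an_step hanti hlie hnil (s := (n - 1) + k) (by omega)).trans ih

theorem an_bot {m c T : ℕ} {W : ℕ → Submodule ℚ R} (hanti : Antitone W) (hbot : W c = ⊥)
    (hT : m * c < T) : anQ W m T = ⊥ := by
  rw [eq_bot_iff]
  apply Submodule.span_le.2
  rintro p ⟨l, h1, h2, h3, rfl⟩
  have hex : ∃ q ∈ l, c < q.1 + 1 := by
    by_contra hcon
    push Not at hcon
    have h4 : (l.map (fun q => q.1 + 1)).sum ≤ (l.map (fun q => q.1 + 1)).length • c := by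
      apply List.sum_le_card_nsmul
      intro x hx
      rw [List.mem_map] at hx
      obtain ⟨q, hq, rfl⟩ := hx
      exact hcon q hq
    rw [List.length_map, h1, smul_eq_mul] at h4
    omega
  obtain ⟨q, hq, hqc⟩ := hex
  have h5 : q.2 ∈ W c := hanti (by omega) (h2 q hq)
  rw [hbot, Submodule.mem_bot] at h5
  rw [SetLike.mem_coe, Submodule.mem_bot]
  apply List.prod_eq_zero
  rw [List.mem_map]
  exact ⟨q, hq, h5⟩

end an

theorem assoc_nil (R : Type) [Ring R] [Algebra ℚ R] (n c : ℕ) (W : ℕ → Submodule ℚ R)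
    (hanti : Antitone W) (hbot : W c = ⊥)
    (hlie : ∀ i j, ∀ x ∈ W i, ∀ y ∈ W j, x * y - y * x ∈ W (i + j + 1))
    (hnil : ∀ x ∈ W 0, x ^ n = 0) :
    ∀ l : List R, (∀ x ∈ l, x ∈ W 0) → l.length = n * c + 1 → l.prod = 0 := by
  intro l hl hlen
  rcases Nat.eq_zero_or_pos n with rfl | hn
  · have h1 := hnil 0 (Submodule.zero_mem _)
    rw [pow_zero] at h1
    calc l.prod = l.prod * 1 := (mul_one _).symm
      _ = 0 := by rw [h1, mul_zero]
  · have hmem : l.prod ∈ anQ W (n * c + 1) (n * c + 1) := by
      apply Submodule.subset_span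
      refine ⟨l.map (fun x => (0, x)), by simp [hlen], ?_, ?_, ?_⟩
      · intro q hq
        rw [List.mem_map] at hq
        obtain ⟨x, hx, rfl⟩ := hq
        exact hl x hx
      · rw [List.map_map]
        have h2 : ((fun q : ℕ × R => q.1 + 1) ∘ fun x => (0, x)) = fun _ => 1 := by
          funext x
          rfl
        rw [h2]
        simp [hlen]
      · rw [List.map_map]
        have h2 : (Prod.snd ∘ fun x : R => ((0 : ℕ), x)) = id := by
          funext x
          rfl
        rw [h2, List.map_id]
    rcases Nat.eq_zero_or_pos c with rfl | hc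
    · have hne : l ≠ [] := by
        rintro rfl
        simp at hlen
      obtain ⟨x, hx⟩ := List.exists_mem_of_ne_nil l hne
      have h3 := hl x hx
      rw [hbot, Submodule.mem_bot] at h3
      subst h3
      exact List.prod_eq_zero hx
    · have h4 : n * c + 1 = (n - 1) + (n * c + 1 - (n - 1)) := by
        have : n ≤ n * c := Nat.le_mul_of_pos_right n hc
        omega
      have h5 : l.prod ∈ anQ W (n - 1) (n * c + 1) := by
        apply an_le hanti hlie hnil (n * c + 1 - (n - 1))
        rw [← h4]
        exact hmem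
      have h6 : (n - 1) * c < n * c + 1 := by
        have : (n - 1) * c ≤ n * c := Nat.mul_le_mul_right c (Nat.sub_le n 1)
        omega
      rw [an_bot hanti hbot h6, Submodule.mem_bot] at h5
      exact h5


end Pool.Agent.Helper601.TE
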