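import Mathlib
import Pool.Agent.Helper601.TE.Defs

set_option autoImplicit false

namespace Pool.Agent.Helper601.TE


theorem PW_le {G : Type*} [Group G] (q : ℕ) (H : Subgroup G) : PW q H ≤ H := by
  unfold PW
  rw [Subgroup.closure_le]
  rintro _ ⟨x, hx, rfl⟩
  exact H.pow_mem hx q

theorem PW_mono {G : Type*} [Group G] (q : ℕ) {H K : Subgroup G} (h : H ≤ K) : PW q H ≤ PW q K := by
  unfold PW
  exact Subgroup.closure_mono (Set.image_mono h)

theorem pow_mem_PW {G : Type*} [Group G] (q : ℕ) {H : Subgroup G} {x : G} (hx : x ∈ H) :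
    x ^ q ∈ PW q H := by
  unfold PW
  exact Subgroup.subset_closure ⟨x, hx, rfl⟩

theorem PW_map {G G' : Type*} [Group G] [Group G'] (f : G →* G') (q : ℕ) (H : Subgroup G) :
    (PW q H).map f = PW q (H.map f) := by
  unfold PW
  rw [MonoidHom.map_closure, Set.image_image, Subgroup.coe_map, Set.image_image]
  simp only [map_pow]

theorem PW_normal {G : Type*} [Group G] (q : ℕ) (H : Subgroup G) (hH : H.Normal) :
    (PW q H).Normal := by
  constructor
  intro n hn g
  have h1 : (PW q H).map (MulAut.conj g).toMonoidHom = PW q (H.map (MulAut.conj g).toMonoidHom) :=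
    PW_map _ q H
  have h2 : H.map (MulAut.conj g).toMonoidHom ≤ H := by
    rintro _ ⟨x, hx, rfl⟩
    exact hH.conj_mem x hx g
  have h3 : g * n * g⁻¹ ∈ (PW q H).map (MulAut.conj g).toMonoidHom := ⟨n, hn, rfl⟩
  rw [h1] at h3
  exact PW_mono q h2 h3

theorem LC_normal {G : Type*} [Group G] (H : Subgroup G) (hH : H.Normal) (j : ℕ) :
    (LC H j).Normal := by
  induction j with
  | zero => exact hH
  | succ j ih =>
    haveI := ih
    show (⁅LC H j, (⊤ : Subgroup G)⁆).Normal
    infer_instance

theorem LC_anti {G : Type*} [Group G] (H : Subgroup G) (hH : H.Normal) {i j : ℕ} (hij : i ≤ j) :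
    LC H j ≤ LC H i := by
  induction j, hij using Nat.le_induction with
  | base => exact le_rfl
  | succ j hj ih =>
    haveI := LC_normal H hH j
    refine le_trans ?_ ih
    exact Subgroup.commutator_le_left _ _

theorem LC_mono {G : Type*} [Group G] {H K : Subgroup G} (h : H ≤ K) (j : ℕ) :
    LC H j ≤ LC K j := by
  induction j with
  | zero => exact h
  | succ j ih => exact Subgroup.commutator_mono ih le_rfl

theorem LC_map {G G' : Type*} [Group G] [Group G'] (f : G →* G') (hf : Function.Surjective f)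
    (H : Subgroup G) (j : ℕ) : (LC H j).map f = LC (H.map f) j := by
  induction j with
  | zero => rfl
  | succ j ih =>
    show (⁅LC H j, (⊤ : Subgroup G)⁆).map f = ⁅LC (H.map f) j, (⊤ : Subgroup G')⁆
    rw [Subgroup.map_commutator, ih, Subgroup.map_top_of_surjective f hf]

theorem LC_add {G : Type*} [Group G] (H : Subgroup G) (i j : ℕ) :
    LC (LC H i) j = LC H (i + j) := by
  induction j with
  | zero => rfl
  | succ j ih =>
    show ⁅LC (LC H i) j, (⊤ : Subgroup G)⁆ = ⁅LC H (i + j), (⊤ : Subgroup G)⁆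
    rw [ih]

theorem cw_mem_LC {G : Type*} [Group G] {H : Subgroup G} (hH : H.Normal) {x : G} (hx : x ∈ H)
    (l : List G) : cw x l ∈ LC H l.length := by
  induction l generalizing H x with
  | nil => exact hx
  | cons g l ih =>
    have h1 : LC H (g :: l).length = LC (LC H 1) l.length := by
      rw [LC_add, List.length_cons, add_comm]
    rw [h1]
    have h2 : cw x (g :: l) = cw (x⁻¹ * g⁻¹ * x * g) l := rfl
    rw [h2]
    apply ih (LC_normal H hH 1)
    show x⁻¹ * g⁻¹ * x * g ∈ ⁅H, (⊤ : Subgroup G)⁆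
    have h3 := Subgroup.commutator_mem_commutator (H.inv_mem hx) (Subgroup.mem_top (g⁻¹))
    rw [commutatorElement_def, inv_inv, inv_inv] at h3
    exact h3

theorem cw_map {G G' : Type*} [Group G] [Group G'] (f : G →* G') (x : G) (l : List G) :
    f (cw x l) = cw (f x) (l.map f) := by
  induction l generalizing x with
  | nil => rfl
  | cons g l ih =>
    have h2 : cw x (g :: l) = cw (x⁻¹ * g⁻¹ * x * g) l := rfl
    have h3 : cw (f x) ((g :: l).map f) = cw ((f x)⁻¹ * (f g)⁻¹ * (f x) * (f g)) (l.map f) := rfl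
    rw [h2, h3, ih]
    simp

theorem h170_iter_map {G G' : Type*} [Group G] [Group G'] (f : G →* G') (x y : G) (n : ℕ) :
    f ((fun z : G => z⁻¹ * x⁻¹ * z * x)^[n] y) =
      (fun z : G' => z⁻¹ * (f x)⁻¹ * z * f x)^[n] (f y) := by
  induction n with
  | zero => rfl
  | succ n ih =>
    rw [Function.iterate_succ_apply', Function.iterate_succ_apply', ← ih]
    simp

theorem Eng.of_surj {n : ℕ} {G G' : Type*} [Group G] [Group G'] (hE : Eng n G) (f : G →* G')
    (hf : Function.Surjective f) : Eng n G' := by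
  intro x' y'
  obtain ⟨x, rfl⟩ := hf x'
  obtain ⟨y, rfl⟩ := hf y'
  rw [← h170_iter_map, hE x y, map_one]

theorem Eng.of_inj {n : ℕ} {G G' : Type*} [Group G] [Group G'] (hE : Eng n G') (f : G →* G')
    (hf : Function.Injective f) : Eng n G := by
  intro x y
  apply hf
  rw [h170_iter_map, hE, map_one]

theorem Eng.mono {n m : ℕ} (h : n ≤ m) {G : Type*} [Group G] (hE : Eng n G) : Eng m G := by
  intro x y
  obtain ⟨j, rfl⟩ := Nat.exists_eq_add_of_le h
  rw [add_comm, Function.iterate_add_apply, hE x y]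
  induction j with
  | zero => rfl
  | succ j ih =>
    rw [Function.iterate_succ_apply', ih (by omega)]
    simp


end Pool.Agent.Helper601.TE
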