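import Mathlib
import Pool.Agent.Helper601.TE.Defs
import Pool.Agent.Helper601.TE.Ybasic

set_option autoImplicit false

namespace Pool.Agent.Helper601.TE


theorem frattini_like {G : Type*} [Group G] [Finite G] (q : ℕ) (hq : q.Prime)
    (hp : IsPGroup q G) (Y L : Subgroup G) (hL : L.Normal) (hLY : L ≤ Y)
    (h : Y ≤ L ⊔ PW q Y) : Y ≤ L := by
  haveI : Fact q.Prime := ⟨hq⟩
  by_contra hcon
  have hne : L.subgroupOf Y ≠ ⊤ := fun h1 => hcon (Subgroup.subgroupOf_eq_top.1 h1)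
  obtain ⟨M, hM, hLM⟩ := (eq_top_or_exists_le_coatom (L.subgroupOf Y)).resolve_left hne
  have hpY : IsPGroup q Y := hp.to_subgroup Y
  haveI : Group.IsNilpotent Y := hpY.isNilpotent
  haveI hMn : M.Normal :=
    Subgroup.NormalizerCondition.normal_of_coatom M Group.normalizerCondition_of_isNilpotent hM
  have hpQ : IsPGroup q (Y ⧸ M) := hpY.to_quotient M
  haveI : Nontrivial (Y ⧸ M) := QuotientGroup.nontrivial_iff.2 hM.1
  have hcard : q ∣ Nat.card (Y ⧸ M) := by
    rcases hpQ.card_eq_or_dvd with h1 | h1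
    · exfalso
      have := Finite.one_lt_card (α := Y ⧸ M)
      omega
    · exact h1
  obtain ⟨g, hg⟩ := exists_prime_orderOf_dvd_card' q hcard
  have hlt : M < (Subgroup.zpowers g).comap (QuotientGroup.mk' M) := by
    refine lt_of_le_of_ne (QuotientGroup.le_comap_mk' M _) ?_
    intro h1
    obtain ⟨y, rfl⟩ := QuotientGroup.mk'_surjective M g
    have h2 : y ∈ (Subgroup.zpowers (QuotientGroup.mk' M y)).comap (QuotientGroup.mk' M) :=
      Subgroup.mem_zpowers _
    rw [← h1] at h2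
    have h3 : QuotientGroup.mk' M y = 1 := (QuotientGroup.eq_one_iff y).2 h2
    rw [h3, orderOf_one] at hg
    exact hq.one_lt.ne hg
  have htop := hM.2 _ hlt
  have hpow : ∀ y : Y, y ^ q ∈ M := by
    intro y
    have h1 : y ∈ (Subgroup.zpowers g).comap (QuotientGroup.mk' M) := by
      rw [htop]; trivial
    obtain ⟨k, hk⟩ := h1
    have hk' : g ^ k = QuotientGroup.mk' M y := hk
    have h2 : QuotientGroup.mk' M (y ^ q) = 1 := by
      rw [map_pow, ← hk', ← zpow_natCast, ← zpow_mul, mul_comm, zpow_mul, zpow_natCast, ← hg,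
        pow_orderOf_eq_one, one_zpow]
    exact (QuotientGroup.eq_one_iff (y ^ q)).1 h2
  have hL2 : L ≤ M.map Y.subtype := by
    intro x hx
    exact ⟨⟨x, hLY hx⟩, hLM (Subgroup.mem_subgroupOf.2 hx), rfl⟩
  have hP2 : PW q Y ≤ M.map Y.subtype := by
    unfold PW
    rw [Subgroup.closure_le]
    rintro _ ⟨x, hx, rfl⟩
    exact ⟨⟨x, hx⟩ ^ q, hpow ⟨x, hx⟩, rfl⟩
  have hY2 : Y ≤ M.map Y.subtype := h.trans (sup_le hL2 hP2)
  apply hM.1
  rw [eq_top_iff]
  rintro ⟨y, hy⟩ _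
  obtain ⟨m, hm, hmy⟩ := hY2 hy
  have h5 : m = ⟨y, hy⟩ := Subtype.ext hmy
  rwa [← h5]


end Pool.Agent.Helper601.TE
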