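import Mathlib
import Pool.Agent.Helper601.TE.Defs
import Pool.Agent.Helper601.TE.Ybasic
import Pool.Agent.Helper601.TE.Yfrat

set_option autoImplicit false

namespace Pool.Agent.Helper601.TE


theorem h400_LC_le_A {G : Type*} [Group G] (A : Subgroup G) (hA : A.Normal) (j : ℕ) :
    Subgroup.closure {y : G | ∃ a ∈ A, ∃ l : List G, l.length = j ∧ y = cw a l} ≤ A := by
  rw [Subgroup.closure_le]
  rintro y ⟨a, ha, l, hl, rfl⟩
  have h1 : cw a l ∈ LC A l.length := cw_mem_LC hA ha l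
  exact LC_anti A hA (Nat.zero_le _) h1

theorem h400_LC_le {G : Type*} [Group G] (A : Subgroup G) (hA : A.Normal)
    (hab : ∀ a ∈ A, ∀ b ∈ A, a * b = b * a) (j : ℕ) :
    LC A j ≤ Subgroup.closure {y : G | ∃ a ∈ A, ∃ l : List G, l.length = j ∧ y = cw a l} := by
  induction j with
  | zero =>
    intro x hx
    exact Subgroup.subset_closure ⟨x, hx, [], rfl, rfl⟩
  | succ j ih =>
    have key : ∀ h : G, ∀ z ∈ Subgroup.closure {y : G | ∃ a ∈ A, ∃ l : List G,
        l.length = j ∧ y = cw a l}, z⁻¹ * h⁻¹ * z * h ∈ Subgroup.closure {y : G | ∃ a ∈ A,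
        ∃ l : List G, l.length = j + 1 ∧ y = cw a l} := by
      intro h z hz
      have hcA : ∀ z ∈ A, z⁻¹ * h⁻¹ * z * h ∈ A := by
        intro z hz
        have h1 := hA.conj_mem z hz h⁻¹
        rw [inv_inv] at h1
        have h2 := A.mul_mem (A.inv_mem hz) h1
        have h3 : z⁻¹ * (h⁻¹ * z * h) = z⁻¹ * h⁻¹ * z * h := by group
        rwa [h3] at h2
      induction hz using Subgroup.closure_induction with
      | mem x hx =>
        obtain ⟨a, ha, l, hl, rfl⟩ := hx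
        apply Subgroup.subset_closure
        refine ⟨a, ha, l ++ [h], by rw [List.length_append, hl]; rfl, ?_⟩
        unfold cw
        rw [List.foldl_append]
        rfl
      | one =>
        have h1 : (1 : G)⁻¹ * h⁻¹ * 1 * h = 1 := by group
        rw [h1]
        exact Subgroup.one_mem _
      | mul x y hx hy ihx ihy =>
        have hxA := h400_LC_le_A A hA j hx
        have hyA := h400_LC_le_A A hA j hy
        have h1 : (x * y)⁻¹ * h⁻¹ * (x * y) * h =
            y⁻¹ * (x⁻¹ * h⁻¹ * x * h) * (h⁻¹ * y * h) := by group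
        have h2 : y⁻¹ * (x⁻¹ * h⁻¹ * x * h) = (x⁻¹ * h⁻¹ * x * h) * y⁻¹ :=
          hab _ (A.inv_mem hyA) _ (hcA x hxA)
        have h3 : (x⁻¹ * h⁻¹ * x * h) * y⁻¹ * (h⁻¹ * y * h) =
            (x⁻¹ * h⁻¹ * x * h) * (y⁻¹ * h⁻¹ * y * h) := by group
        rw [h1, h2, h3]
        exact Subgroup.mul_mem _ ihx ihy
      | inv x hx ihx =>
        have hxA := h400_LC_le_A A hA j hx
        have h1 : (x⁻¹)⁻¹ * h⁻¹ * x⁻¹ * h = x * (h⁻¹ * x⁻¹ * h) := by group
        have h4 : h⁻¹ * x⁻¹ * h ∈ A := by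
          have h5 := hA.conj_mem x⁻¹ (A.inv_mem hxA) h⁻¹
          rwa [inv_inv] at h5
        have h2 : x * (h⁻¹ * x⁻¹ * h) = (h⁻¹ * x⁻¹ * h) * x := hab _ hxA _ h4
        have h3 : (h⁻¹ * x⁻¹ * h) * x = (x⁻¹ * h⁻¹ * x * h)⁻¹ := by group
        rw [h1, h2, h3]
        exact Subgroup.inv_mem _ ihx
    show ⁅LC A j, (⊤ : Subgroup G)⁆ ≤ _
    rw [Subgroup.commutator_le]
    intro y hy g _
    have h1 := key g⁻¹ y⁻¹ (Subgroup.inv_mem _ (ih hy))
    rw [inv_inv, inv_inv] at h1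
    exact h1

theorem h400_exp {G : Type*} [Group G] (A : Subgroup G)
    (hab : ∀ a ∈ A, ∀ b ∈ A, a * b = b * a) (S : Set G) (hS : Subgroup.closure S ≤ A) (E : ℕ)
    (h : ∀ a ∈ S, a ^ E = 1) : ∀ x ∈ Subgroup.closure S, x ^ E = 1 := by
  intro x hx
  induction hx using Subgroup.closure_induction with
  | mem x hx => exact h x hx
  | one => exact one_pow E
  | mul x y hx hy ihx ihy =>
    have hc : Commute x y := hab x (hS hx) y (hS hy)
    rw [hc.mul_pow, ihx, ihy, one_mul]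
  | inv x hx ihx => rw [inv_pow, ihx, inv_one]

theorem LC_abelian_exp {G : Type*} [Group G] (A : Subgroup G) (hA : A.Normal)
    (hab : ∀ a ∈ A, ∀ b ∈ A, a * b = b * a) (m E : ℕ)
    (h : ∀ a ∈ A, ∀ l : List G, l.length = m → (cw a l) ^ E = 1) :
    ∀ x ∈ LC A m, x ^ E = 1 := by
  intro x hx
  refine h400_exp A hab _ (h400_LC_le_A A hA m) E ?_ x (h400_LC_le A hA hab m hx)
  rintro y ⟨a, ha, l, hl, rfl⟩
  exact h a ha l hl

theorem PW_iter_bot {G : Type*} [Group G] (B : Subgroup G)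
    (hab : ∀ a ∈ B, ∀ b ∈ B, a * b = b * a) (q s : ℕ) (h : ∀ x ∈ B, x ^ q ^ s = 1) :
    (PW q)^[s] B = ⊥ := by
  induction s generalizing B with
  | zero =>
    show B = ⊥
    rw [Subgroup.eq_bot_iff_forall]
    intro x hx
    have h1 := h x hx
    rwa [pow_zero, pow_one] at h1
  | succ s ih =>
    rw [Function.iterate_succ_apply]
    apply ih (PW q B)
    · intro a ha b hb
      exact hab a (PW_le q B ha) b (PW_le q B hb)
    · apply h400_exp B hab _ (PW_le q B) (q ^ s)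
      rintro y ⟨x, hx, rfl⟩
      show (x ^ q) ^ q ^ s = 1
      rw [← pow_mul, ← pow_succ']
      exact h x hx

theorem exists_iter_bot {G : Type*} [Group G] [Finite G] (q : ℕ) (hq : q.Prime)
    (hp : IsPGroup q G) (N : Subgroup G) : ∃ t : ℕ, (PW q)^[t] N = ⊥ := by
  refine (wellFounded_lt (α := Subgroup G)).induction
    (C := fun N => ∃ t : ℕ, (PW q)^[t] N = ⊥) N ?_
  intro N ih
  by_cases hN : N = ⊥
  · exact ⟨0, hN⟩
  · have hlt : PW q N < N := by
      refine lt_of_le_of_ne (PW_le q N) ?_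
      intro heq
      apply hN
      rw [eq_bot_iff]
      apply frattini_like q hq hp N ⊥ inferInstance bot_le
      rw [heq, bot_sup_eq]
    obtain ⟨t, ht⟩ := ih _ hlt
    exact ⟨t + 1, by rw [Function.iterate_succ_apply]; exact ht⟩


end Pool.Agent.Helper601.TE
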