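import Mathlib
import Pool.Agent.Helper601.TE.Defs
import Pool.Agent.Helper601.TE.Ybasic

set_option autoImplicit false

namespace Pool.Agent.Helper601.TE


theorem inter_le {G : Type*} [Group G] (q : ℕ) (N : Subgroup G) (hN : Pwr q N)
    (H1 H2 : Subgroup G) (h1 : H1.Normal) (h2 : H2.Normal) (hle : H1 ≤ N) :
    ⁅PW q H1, H2⁆ ≤ PW q ⁅H1, H2⁆ := by
  have := h1
  have := h2
  have hKn : (⁅H1, H2⁆ : Subgroup G).Normal := inferInstance
  have hKle : ⁅H1, H2⁆ ≤ H1 := Subgroup.commutator_le_left H1 H2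
  have hP : (PW q ⁅H1, H2⁆).Normal := PW_normal q _ hKn
  have hemb := hN.emb _ hKn (hKle.trans hle)
  have key : ∀ g ∈ H2, ∀ x ∈ H1,
      Commute (QuotientGroup.mk' (PW q ⁅H1, H2⁆) (x ^ q)) (QuotientGroup.mk' (PW q ⁅H1, H2⁆) g) := by
    intro g hg x hx
    set π := QuotientGroup.mk' (PW q ⁅H1, H2⁆) with hπ
    have hu : x⁻¹ * g⁻¹ * x * g ∈ ⁅H1, H2⁆ := by
      have := Subgroup.commutator_mem_commutator (H1.inv_mem hx) (H2.inv_mem hg)
      simpa [commutatorElement_def] using this
    set u := x⁻¹ * g⁻¹ * x * g with hu'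
    have hone : ∀ y, y ∈ PW q ⁅H1, H2⁆ → π y = 1 := fun y hy =>
      (QuotientGroup.eq_one_iff y).2 hy
    have huq : π u ^ q = 1 := by
      rw [← map_pow]
      exact hone _ (pow_mem_PW q hu)
    have hcomm : Commute (π x) (π u) := by
      have h3 : commutatorElement.bracket u x ∈ ⁅(⁅H1, H2⁆ : Subgroup G), N⁆ :=
        Subgroup.commutator_mem_commutator hu (hle hx)
      have h4 := hone _ (hemb h3)
      rw [map_commutatorElement, commutatorElement_eq_one_iff_commute] at h4
      exact h4.symm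
    have hconj : (π g)⁻¹ * π x * π g = π x * π u := by
      rw [hu']
      simp only [map_mul, map_inv]
      group
    have h5 : (π g)⁻¹ * π x ^ q * π g = π x ^ q := by
      have h6 := conj_pow (i := q) (a := (π g)⁻¹) (b := π x)
      rw [inv_inv] at h6
      rw [← h6, hconj, hcomm.mul_pow, huq, mul_one]
    rw [map_pow]
    show π x ^ q * π g = π g * π x ^ q
    calc π x ^ q * π g = π g * ((π g)⁻¹ * π x ^ q * π g) := by group
      _ = π g * π x ^ q := by rw [h5]
  rw [Subgroup.commutator_le]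
  intro p hp g hg
  have hle2 : PW q H1 ≤ (Subgroup.centralizer
      {QuotientGroup.mk' (PW q ⁅H1, H2⁆) g}).comap (QuotientGroup.mk' (PW q ⁅H1, H2⁆)) := by
    unfold PW
    rw [Subgroup.closure_le]
    rintro _ ⟨x, hx, rfl⟩
    simp only [SetLike.mem_coe, Subgroup.mem_comap, Subgroup.mem_centralizer_singleton_iff]
    exact key g hg x hx
  have h7 := hle2 hp
  rw [Subgroup.mem_comap, Subgroup.mem_centralizer_singleton_iff] at h7
  rw [← QuotientGroup.eq_one_iff]
  have h8 : (QuotientGroup.mk' (PW q ⁅H1, H2⁆)) (commutatorElement.bracket p g) = 1 := by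
    rw [map_commutatorElement, commutatorElement_eq_one_iff_commute]
    exact h7
  exact h8


end Pool.Agent.Helper601.TE
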