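import Mathlib
import Pool.Agent.Helper601.TE.Defs
import Pool.Agent.Helper601.TE.Ybasic
import Pool.Agent.Helper601.TE.Yfrat
import Pool.Agent.Helper601.TE.Yinterle

set_option autoImplicit false

namespace Pool.Agent.Helper601.TE


open scoped commutatorElement in
theorem inter_ge {G : Type*} [Group G] [Finite G] (q : ℕ) (hq : q.Prime)
    (hp : IsPGroup q G) (N : Subgroup G) (hN : Pwr q N)
    (H : Subgroup G) (hH : H.Normal) (hle : H ≤ N) :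
    PW q ⁅H, (⊤ : Subgroup G)⁆ ≤ ⁅PW q H, (⊤ : Subgroup G)⁆ := by
  haveI := hH
  have hKn : (⁅H, (⊤ : Subgroup G)⁆).Normal := Subgroup.commutator_normal H ⊤
  haveI hPHn : (PW q H).Normal := PW_normal q H hH
  haveI hLn : (⁅PW q H, (⊤ : Subgroup G)⁆).Normal := Subgroup.commutator_normal _ _
  have hKH : ⁅H, (⊤ : Subgroup G)⁆ ≤ H := Subgroup.commutator_le_left H ⊤
  have hKN : ⁅H, (⊤ : Subgroup G)⁆ ≤ N := hKH.trans hle
  have hPKn : (PW q ⁅H, (⊤ : Subgroup G)⁆).Normal := PW_normal q _ hKn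
  haveI hPPKn : (PW q (PW q ⁅H, (⊤ : Subgroup G)⁆)).Normal := PW_normal q _ hPKn
  refine frattini_like q hq hp (PW q ⁅H, (⊤ : Subgroup G)⁆) ⁅PW q H, (⊤ : Subgroup G)⁆ hLn
    (inter_le q N hN H ⊤ hH inferInstance hle) ?_
  have hLM : ⁅PW q H, (⊤ : Subgroup G)⁆ ≤
      ⁅PW q H, (⊤ : Subgroup G)⁆ ⊔ PW q (PW q ⁅H, (⊤ : Subgroup G)⁆) := le_sup_left
  have hPM : PW q (PW q ⁅H, (⊤ : Subgroup G)⁆) ≤
      ⁅PW q H, (⊤ : Subgroup G)⁆ ⊔ PW q (PW q ⁅H, (⊤ : Subgroup G)⁆) := le_sup_right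
  have key : ∀ k ∈ ⁅H, (⊤ : Subgroup G)⁆, k ∈ ⁅H, (⊤ : Subgroup G)⁆ ∧ k ^ q ∈
      ⁅PW q H, (⊤ : Subgroup G)⁆ ⊔ PW q (PW q ⁅H, (⊤ : Subgroup G)⁆) := by
    intro k hk
    have hk' : k ∈ Subgroup.closure {g : G | ∃ g₁ ∈ H, ∃ g₂ ∈ (⊤ : Subgroup G), ⁅g₁, g₂⁆ = g} := by
      rw [Subgroup.commutator_def] at hk
      exact hk
    clear hk
    induction hk' using Subgroup.closure_induction with
    | mem x hx =>
      obtain ⟨a, ha, b, hb, rfl⟩ := hx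
      have hu : ⁅a, b⁆ ∈ ⁅H, (⊤ : Subgroup G)⁆ := Subgroup.commutator_mem_commutator ha hb
      refine ⟨hu, ?_⟩
      have h1 := hN.mul _ hKn hKN a⁻¹ (hle (H.inv_mem ha)) ⁅a, b⁆ hu
      have e1 : a⁻¹ * ⁅a, b⁆ = b * a⁻¹ * b⁻¹ := by
        rw [commutatorElement_def]; group
      have e2 : (b * a⁻¹ * b⁻¹) ^ q = b * (a⁻¹) ^ q * b⁻¹ := conj_pow
      rw [e1, e2] at h1
      have h2 : ⁅a ^ q, b⁆ ∈ ⁅PW q H, (⊤ : Subgroup G)⁆ :=
        Subgroup.commutator_mem_commutator (pow_mem_PW q ha) hb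
      have e3 : ⁅a, b⁆ ^ q = ⁅a ^ q, b⁆ *
          (((a⁻¹) ^ q * ⁅a, b⁆ ^ q)⁻¹ * (b * (a⁻¹) ^ q * b⁻¹))⁻¹ := by
        rw [commutatorElement_def (a ^ q) b, inv_pow]
        generalize ⁅a, b⁆ ^ q = u
        generalize a ^ q = c
        group
      rw [e3]
      exact mul_mem (hLM h2) (inv_mem (hPM h1))
    | one =>
      exact ⟨one_mem _, by rw [one_pow]; exact one_mem _⟩
    | mul x y hx hy ihx ihy =>
      refine ⟨mul_mem ihx.1 ihy.1, ?_⟩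
      have h1 := hN.mul _ hKn hKN x (hKN ihx.1) y ihy.1
      have e : (x * y) ^ q = (x ^ q * y ^ q) * ((x ^ q * y ^ q)⁻¹ * (x * y) ^ q) := by
        group
      rw [e]
      exact mul_mem (mul_mem ihx.2 ihy.2) (hPM h1)
    | inv x hx ihx =>
      refine ⟨inv_mem ihx.1, ?_⟩
      rw [inv_pow]
      exact inv_mem ihx.2
  conv_lhs => rw [PW]
  rw [Subgroup.closure_le]
  rintro _ ⟨k, hk, rfl⟩
  exact (key k hk).2


end Pool.Agent.Helper601.TE
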