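import Mathlib
import Pool.Agent.Helper601.TE.Defs

set_option autoImplicit false

namespace Pool.Agent.Helper601.TE


theorem eng_core {G : Type*} [Group G] (n q k : ℕ) (hq : q.Prime) (hE : Eng n G)
    (hk : n ≤ q ^ k) (A : Subgroup G) (hA : A.Normal)
    (hab : ∀ a ∈ A, ∀ b ∈ A, a * b = b * a) (hpow : ∀ a ∈ A, a ^ q = 1)
    (a : G) (ha : a ∈ A) (g : G) : a⁻¹ * (g ^ q ^ k)⁻¹ * a * g ^ q ^ k = 1 := by
  let : CommGroup A := { (inferInstance : Group A) with
    mul_comm := fun x y => Subtype.ext (hab x x.2 y y.2) }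
  let T : AddMonoid.End (Additive A) :=
    MonoidHom.toAdditive ((MulAut.conjNormal g⁻¹ : MulAut A).toMonoidHom)
  have hT : ∀ z : A, ((Additive.toMul (T (Additive.ofMul z)) : A) : G) = g⁻¹ * z * g := by
    intro z
    show ((MulAut.conjNormal g⁻¹ z : A) : G) = _
    rw [MulAut.conjNormal_apply, inv_inv]
  have hTj : ∀ (j : ℕ) (z : A), ((Additive.toMul ((T ^ j) (Additive.ofMul z)) : A) : G) =
      (g ^ j)⁻¹ * z * g ^ j := by
    intro j
    induction j with
    | zero =>
      intro z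
      simp
    | succ j ih =>
      intro z
      rw [pow_succ']
      have h1 := hT (Additive.toMul ((T ^ j) (Additive.ofMul z)))
      have h2 : ((Additive.toMul ((T * T ^ j) (Additive.ofMul z)) : A) : G) =
          g⁻¹ * ((Additive.toMul ((T ^ j) (Additive.ofMul z)) : A) : G) * g := h1
      rw [h2, ih z, pow_succ]
      group
  have hU : ∀ (j : ℕ) (z : A), ((Additive.toMul (((T - 1) ^ j) (Additive.ofMul z)) : A) : G) =
      (fun z : G => z⁻¹ * g⁻¹ * z * g)^[j] (z : G) := by
    intro j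
    induction j with
    | zero =>
      intro z
      simp
    | succ j ih =>
      intro z
      rw [pow_succ', Function.iterate_succ_apply', ← ih z]
      set w : A := Additive.toMul (((T - 1) ^ j) (Additive.ofMul z)) with hw
      have h1 : (((T - 1) * (T - 1) ^ j) (Additive.ofMul z)) =
          T (Additive.ofMul w) - Additive.ofMul w := rfl
      rw [h1]
      have h2 : ((Additive.toMul (T (Additive.ofMul w) - Additive.ofMul w) : A) : G) =
          ((Additive.toMul (T (Additive.ofMul w)) : A) : G) * (w : G)⁻¹ := by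
        rw [toMul_sub, div_eq_mul_inv]
        rfl
      rw [h2]
      have h3 := hab _ (Additive.toMul (T (Additive.ofMul w))).2 _ (A.inv_mem w.2)
      rw [h3, hT w]
      group
  have hn : (T - 1) ^ n = 0 := by
    apply AddMonoidHom.ext
    intro z
    have h1 := hU n (Additive.toMul z)
    rw [hE g _] at h1
    have h2 : (Additive.toMul (((T - 1) ^ n) z) : A) = 1 := Subtype.ext h1
    exact h2
  have hqk : (T - 1) ^ (q ^ k) = 0 := pow_eq_zero_of_le hk hn
  rcases subsingleton_or_nontrivial (AddMonoid.End (Additive A)) with hs | hs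
  · -- A is trivial
    have h1 : (1 : AddMonoid.End (Additive A)) = 0 := Subsingleton.elim _ _
    have h2 : (1 : AddMonoid.End (Additive A)) (Additive.ofMul (⟨a, ha⟩ : A)) =
        (0 : AddMonoid.End (Additive A)) (Additive.ofMul (⟨a, ha⟩ : A)) := by rw [h1]
    have h3 : (⟨a, ha⟩ : A) = 1 := h2
    have h4 : a = 1 := congrArg Subtype.val h3
    rw [h4]
    group
  · have hq0 : ((q : ℕ) : AddMonoid.End (Additive A)) = 0 := by
      apply AddMonoidHom.ext
      intro z
      have h1 : ((q : ℕ) : AddMonoid.End (Additive A)) z = q • z := by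
        rw [AddMonoid.End.natCast_apply]
      have h2 : (Additive.toMul z) ^ q = 1 :=
        Subtype.ext (by
          rw [Subgroup.coe_pow]
          exact hpow _ (Additive.toMul z).2)
      have h3 : q • z = 0 := h2
      exact h1.trans h3
    have : Fact q.Prime := ⟨hq⟩
    have hch : CharP (AddMonoid.End (Additive A)) q := by
      have := CharP.ringChar_of_prime_eq_zero hq hq0
      rw [← this]
      infer_instance
    have h5 : (T - 1) ^ q ^ k = T ^ q ^ k - 1 ^ q ^ k :=
      sub_pow_char_pow_of_commute _ _ (Commute.one_right T)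
    rw [hqk, one_pow] at h5
    have h6 : T ^ q ^ k = 1 := (sub_eq_zero.1 h5.symm)
    have h7 := hTj (q ^ k) ⟨a, ha⟩
    rw [h6] at h7
    have h8 : a = (g ^ q ^ k)⁻¹ * a * g ^ q ^ k := h7
    calc a⁻¹ * (g ^ q ^ k)⁻¹ * a * g ^ q ^ k = a⁻¹ * ((g ^ q ^ k)⁻¹ * a * g ^ q ^ k) := by group
      _ = a⁻¹ * a := by rw [← h8]
      _ = 1 := inv_mul_cancel a

theorem Eng.quot {G : Type*} [Group G] {n : ℕ} (hE : Eng n G) (B : Subgroup G) [B.Normal] :
    Eng n (G ⧸ B) := by
  intro x y
  obtain ⟨x, rfl⟩ := QuotientGroup.mk'_surjective B x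
  obtain ⟨y, rfl⟩ := QuotientGroup.mk'_surjective B y
  have hs : Function.Semiconj (QuotientGroup.mk' B) (fun z : G => z⁻¹ * x⁻¹ * z * x)
      (fun z : G ⧸ B => z⁻¹ * (QuotientGroup.mk' B x)⁻¹ * z * (QuotientGroup.mk' B x)) := by
    intro z
    simp only [map_mul, map_inv]
  have := (hs.iterate_right n) y
  rw [← this, hE x y, map_one]

theorem eng_section {G : Type*} [Group G] (n q k : ℕ) (hq : q.Prime) (hE : Eng n G)
    (hk : n ≤ q ^ k) (A B : Subgroup G) (hA : A.Normal) (hB : B.Normal) (hBA : B ≤ A)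
    (hab : ∀ a ∈ A, ∀ b ∈ A, a⁻¹ * b⁻¹ * a * b ∈ B) (hpow : ∀ a ∈ A, a ^ q ∈ B)
    (a : G) (ha : a ∈ A) (g : G) : a⁻¹ * (g ^ q ^ k)⁻¹ * a * g ^ q ^ k ∈ B := by
  have hc : ∀ z w : G, z⁻¹ * w ∈ B → QuotientGroup.mk' B z = QuotientGroup.mk' B w :=
    fun z w h => QuotientGroup.eq.2 h
  have h := eng_core n q k hq (hE.quot B) hk (A.map (QuotientGroup.mk' B))
    (hA.map _ (QuotientGroup.mk'_surjective B))
    (by
      rintro _ ⟨x, hx, rfl⟩ _ ⟨y, hy, rfl⟩
      rw [← map_mul, ← map_mul]
      apply hc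
      have := hab y hy x hx
      have e : (x * y)⁻¹ * (y * x) = y⁻¹ * x⁻¹ * y * x := by group
      rw [e]
      exact this)
    (by
      rintro _ ⟨x, hx, rfl⟩
      rw [← map_pow]
      exact (QuotientGroup.eq_one_iff _).2 (hpow x hx))
    (QuotientGroup.mk' B a) ⟨a, ha, rfl⟩ (QuotientGroup.mk' B g)
  rw [← map_pow, ← map_inv, ← map_inv, ← map_mul, ← map_mul, ← map_mul] at h
  exact (QuotientGroup.eq_one_iff _).1 h


end Pool.Agent.Helper601.TE
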