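import Mathlib
import Pool.Agent.Helper601.TE.Defs
import Pool.Agent.Helper601.TE.Ybasic
import Pool.Agent.Helper601.TE.Ysec

set_option autoImplicit false

namespace Pool.Agent.Helper601.TE


theorem el_conj {Q : Type*} [Group Q] (x y b : Q) (h1 : y⁻¹ * x * y = x * b) (h2 : b * y = y * b)
    (j : ℕ) : (y ^ j)⁻¹ * x * y ^ j = x * b ^ j := by
  induction j with
  | zero => simp
  | succ j ih =>
    have h3 : b ^ j * y = y * b ^ j := (Commute.pow_left (show Commute b y from h2) j).eq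
    calc (y ^ (j + 1))⁻¹ * x * y ^ (j + 1) = y⁻¹ * ((y ^ j)⁻¹ * x * y ^ j) * y := by
          rw [pow_succ]
          group
      _ = y⁻¹ * x * (b ^ j * y) := by rw [ih]; group
      _ = (y⁻¹ * x * y) * b ^ j := by rw [h3]; group
      _ = x * b ^ (j + 1) := by rw [h1, pow_succ']; group

theorem el_chain {G : Type*} [Group G] (q : ℕ) (B C : Subgroup G) (hC : C.Normal) (h y : G)
    (hb : h⁻¹ * y⁻¹ * h * y ∈ B) (hBC : ∀ b ∈ B, b⁻¹ * y⁻¹ * b * y ∈ C)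
    (hq : ∀ b ∈ B, b ^ q ∈ C) : h⁻¹ * (y ^ q)⁻¹ * h * y ^ q ∈ C := by
  obtain ⟨b, hbd⟩ : ∃ b : G, b = h⁻¹ * y⁻¹ * h * y := ⟨_, rfl⟩
  rw [← hbd] at hb
  obtain ⟨φ, hφ⟩ : ∃ φ : G →* G ⧸ C, ∀ g, φ g = 1 ↔ g ∈ C :=
    ⟨QuotientGroup.mk' C, fun g => QuotientGroup.eq_one_iff g⟩
  have h1 : (φ y)⁻¹ * φ h * φ y = φ h * φ b := by
    rw [← map_inv, ← map_mul, ← map_mul, ← map_mul, hbd]
    congr 1
    group
  have h2 : φ b * φ y = φ y * φ b := by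
    have h3 := (hφ _).2 (hBC b hb)
    rw [map_mul, map_mul, map_mul, map_inv, map_inv] at h3
    calc φ b * φ y = φ y * φ b * ((φ b)⁻¹ * (φ y)⁻¹ * φ b * φ y) := by group
      _ = φ y * φ b := by rw [h3, mul_one]
  have h4 := el_conj (φ h) (φ y) (φ b) h1 h2 q
  rw [← map_pow φ b q, (hφ _).2 (hq b hb), mul_one] at h4
  rw [← hφ, map_mul, map_mul, map_mul, map_inv, map_inv, map_pow]
  calc (φ h)⁻¹ * (φ y ^ q)⁻¹ * φ h * φ y ^ q = (φ h)⁻¹ * ((φ y ^ q)⁻¹ * φ h * φ y ^ q) := by group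
    _ = 1 := by rw [h4]; group

theorem el_comm {G : Type*} [Group G] (H K : Subgroup G) (a b : G) (ha : a ∈ H) (hb : b ∈ K) :
    a⁻¹ * b⁻¹ * a * b ∈ ⁅H, K⁆ := by
  have h1 := Subgroup.commutator_mem_commutator (H.inv_mem ha) (K.inv_mem hb)
  rw [commutatorElement_def, inv_inv, inv_inv] at h1
  exact h1

theorem eng_lcs2 {G : Type*} [Group G] (n q k : ℕ) (hq : q.Prime) (hE : Eng n G)
    (hk : n ≤ q ^ k) (H : Subgroup G) (hH : H.Normal) (h : G) (hh : h ∈ H) (g : G) :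
    h⁻¹ * (g ^ q ^ (k + 1))⁻¹ * h * g ^ q ^ (k + 1) ∈ PW q H ⊔ ⁅⁅H, H⁆, H⁆ := by
  have hP : (PW q H).Normal := PW_normal q H hH
  have hHH : (⁅H, H⁆ : Subgroup G).Normal := Subgroup.commutator_normal H H
  have hHHH : (⁅⁅H, H⁆, H⁆ : Subgroup G).Normal := Subgroup.commutator_normal ⁅H, H⁆ H
  have hB : (PW q H ⊔ ⁅H, H⁆).Normal := Subgroup.sup_normal _ _
  have hC : (PW q H ⊔ ⁅⁅H, H⁆, H⁆).Normal := Subgroup.sup_normal _ _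
  have h3 : ⁅⁅H, H⁆, H⁆ ≤ ⁅H, H⁆ := Subgroup.commutator_le_left ⁅H, H⁆ H
  have h2 : ⁅H, H⁆ ≤ H := Subgroup.commutator_le_left H H
  have hCB : PW q H ⊔ ⁅⁅H, H⁆, H⁆ ≤ PW q H ⊔ ⁅H, H⁆ := sup_le_sup_left h3 _
  have hBH : PW q H ⊔ ⁅H, H⁆ ≤ H := sup_le (PW_le q H) h2
  have hpow : ∀ a ∈ H, a ^ q ∈ PW q H := fun a ha => pow_mem_PW q ha
  -- commutators of elements of `B` and `H`
  have hcomm : ∀ a ∈ PW q H ⊔ ⁅H, H⁆, ∀ b ∈ H, a⁻¹ * b⁻¹ * a * b ∈ PW q H ⊔ ⁅⁅H, H⁆, H⁆ := by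
    intro a ha b hb
    obtain ⟨φ, hφ⟩ : ∃ φ : G →* G ⧸ (PW q H ⊔ ⁅⁅H, H⁆, H⁆), ∀ g, φ g = 1 ↔
        g ∈ PW q H ⊔ ⁅⁅H, H⁆, H⁆ :=
      ⟨QuotientGroup.mk' _, fun g => QuotientGroup.eq_one_iff g⟩
    obtain ⟨p, hp, c, hc, rfl⟩ := Subgroup.mem_sup_of_normal_left.1 ha
    have e1 : φ p = 1 := (hφ p).2 (Subgroup.mem_sup_left hp)
    have e2 : φ (c⁻¹ * b⁻¹ * c * b) = 1 := (hφ _).2 (Subgroup.mem_sup_right (el_comm _ _ c b hc hb))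
    rw [← hφ]
    rw [map_mul, map_mul, map_mul, map_inv, map_inv] at e2 ⊢
    rw [map_mul, e1, one_mul, e2]
  have s1 := eng_section n q k hq hE hk H (PW q H ⊔ ⁅H, H⁆) hH hB hBH
    (fun a ha b hb => Subgroup.mem_sup_right (el_comm H H a b ha hb))
    (fun a ha => Subgroup.mem_sup_left (hpow a ha)) h hh g
  have s2 := fun b hb => eng_section n q k hq hE hk (PW q H ⊔ ⁅H, H⁆) (PW q H ⊔ ⁅⁅H, H⁆, H⁆) hB hC hCB
    (fun a ha b hb => hcomm a ha b (hBH hb))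
    (fun a ha => Subgroup.mem_sup_left (hpow a (hBH ha))) b hb g
  have s3 := el_chain q (PW q H ⊔ ⁅H, H⁆) (PW q H ⊔ ⁅⁅H, H⁆, H⁆) hC h (g ^ q ^ k) s1 s2
    (fun b hb => Subgroup.mem_sup_left (hpow b (hBH hb)))
  rwa [← pow_mul, ← pow_succ] at s3

theorem eng_two {G : Type*} [Group G] (n k : ℕ) (hE : Eng n G)
    (hk : n ≤ 2 ^ k) (H : Subgroup G) (hH : H.Normal) (h : G) (hh : h ∈ H) (g : G) :
    h⁻¹ * (g ^ 2 ^ (k + 1))⁻¹ * h * g ^ 2 ^ (k + 1) ∈ PW 2 (PW 2 H) := by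
  have hcomm : ∀ K : Subgroup G, ∀ a ∈ K, ∀ b ∈ K, a⁻¹ * b⁻¹ * a * b ∈ PW 2 K := by
    intro K a ha b hb
    have e1 : a⁻¹ * b⁻¹ * a * b = (a⁻¹) ^ 2 * (a * b⁻¹) ^ 2 * b ^ 2 := by
      rw [pow_two, pow_two, pow_two]
      group
    rw [e1]
    exact Subgroup.mul_mem _ (Subgroup.mul_mem _ (pow_mem_PW 2 (K.inv_mem ha))
      (pow_mem_PW 2 (K.mul_mem ha (K.inv_mem hb)))) (pow_mem_PW 2 hb)
  have hB : (PW 2 H).Normal := PW_normal 2 H hH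
  have hC : (PW 2 (PW 2 H)).Normal := PW_normal 2 _ hB
  have s1 := eng_section n 2 k Nat.prime_two hE hk H (PW 2 H) hH hB (PW_le 2 H) (hcomm H)
    (fun a ha => pow_mem_PW 2 ha) h hh g
  have s2 := fun b hb => eng_section n 2 k Nat.prime_two hE hk (PW 2 H) (PW 2 (PW 2 H)) hB hC
    (PW_le 2 _) (hcomm (PW 2 H)) (fun a ha => pow_mem_PW 2 ha) b hb g
  have s3 := el_chain 2 (PW 2 H) (PW 2 (PW 2 H)) hC h (g ^ 2 ^ k) s1 s2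
    (fun b hb => pow_mem_PW 2 hb)
  rwa [← pow_mul, ← pow_succ] at s3


end Pool.Agent.Helper601.TE
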