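import Mathlib
import Pool.Agent.Helper601.TE.Defs
import Pool.Agent.Helper601.TE.Ybasic
import Pool.Agent.Helper601.TE.Ylcs2

set_option autoImplicit false

namespace Pool.Agent.Helper601.TE


theorem com_le_aux {G : Type*} [Group G] (C H : Subgroup G) (hC : C.Normal) (S : Set G)
    (h : ∀ x ∈ H, ∀ s ∈ S, x⁻¹ * s⁻¹ * x * s ∈ C) : ⁅H, Subgroup.closure S⁆ ≤ C := by
  have := hC
  have key : Subgroup.closure S ≤
      (Subgroup.centralizer ((H.map (QuotientGroup.mk' C) : Subgroup (G ⧸ C)) : Set (G ⧸ C))).comap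
        (QuotientGroup.mk' C) := by
    rw [Subgroup.closure_le]
    intro s hs
    simp only [SetLike.mem_coe, Subgroup.mem_comap]
    rw [Subgroup.mem_centralizer_iff]
    rintro _ ⟨x, hx, rfl⟩
    have h1 := h x hx s hs
    have h2 : (QuotientGroup.mk' C) (x⁻¹ * s⁻¹ * x * s) = 1 := by
      rw [← MonoidHom.mem_ker, QuotientGroup.ker_mk']
      exact h1
    rw [← map_mul, ← map_mul]
    have h3 : x * s = (s * x) * (x⁻¹ * s⁻¹ * x * s) := by group
    rw [h3, map_mul, h2, mul_one]
  rw [Subgroup.commutator_le]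
  intro x hx y hy
  have h1 := key hy
  simp only [Subgroup.mem_comap] at h1
  rw [Subgroup.mem_centralizer_iff] at h1
  have h2 := h1 (QuotientGroup.mk' C x) ⟨x, hx, rfl⟩
  rw [← QuotientGroup.ker_mk' C, MonoidHom.mem_ker, map_commutatorElement,
    commutatorElement_eq_one_iff_mul_comm]
  exact h2

theorem com_sup_aux {G : Type*} [Group G] (P A B : Subgroup G) (hP : P.Normal) (hB : B.Normal)
    (hA : ⁅A, (⊤ : Subgroup G)⁆ ≤ B) : ⁅P ⊔ A, (⊤ : Subgroup G)⁆ ≤ P ⊔ B := by
  have := hP
  have := hB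
  have hN : (P ⊔ B).Normal := inferInstance
  have key : P ⊔ A ≤ (Subgroup.center (G ⧸ (P ⊔ B))).comap (QuotientGroup.mk' (P ⊔ B)) := by
    apply sup_le
    · intro x hx
      simp only [Subgroup.mem_comap]
      have h1 : (QuotientGroup.mk' (P ⊔ B)) x = 1 := by
        rw [← MonoidHom.mem_ker, QuotientGroup.ker_mk']
        exact (le_sup_left : P ≤ P ⊔ B) hx
      rw [h1]
      exact one_mem _
    · intro x hx
      simp only [Subgroup.mem_comap]
      rw [Subgroup.mem_center_iff]
      intro g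
      obtain ⟨g, rfl⟩ := QuotientGroup.mk'_surjective (P ⊔ B) g
      have h1 :=
        (le_sup_right : B ≤ P ⊔ B) (hA (Subgroup.commutator_mem_commutator hx (Subgroup.mem_top g)))
      rw [← QuotientGroup.ker_mk' (P ⊔ B), MonoidHom.mem_ker, map_commutatorElement,
        commutatorElement_eq_one_iff_mul_comm] at h1
      exact h1.symm
  rw [Subgroup.commutator_le]
  intro x hx y hy
  have h1 := key hx
  simp only [Subgroup.mem_comap] at h1
  rw [Subgroup.mem_center_iff] at h1
  rw [← QuotientGroup.ker_mk' (P ⊔ B), MonoidHom.mem_ker, map_commutatorElement,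
    commutatorElement_eq_one_iff_mul_comm]
  exact (h1 _).symm

theorem nak_aux {G : Type*} [Group G] (hG : Group.IsNilpotent G) (P K : Subgroup G)
    (hP : P.Normal) (h : ⁅K, K⁆ ≤ P ⊔ ⁅⁅K, K⁆, K⁆) : ⁅K, K⁆ ≤ P := by
  have key : ∀ j, ⁅K, K⁆ ≤ P ⊔ (⊤ : Subgroup G).lowerCentralSeries j := by
    intro j
    induction j with
    | zero => simp
    | succ j ih =>
      refine h.trans (sup_le le_sup_left ?_)
      refine (Subgroup.commutator_mono ih (le_top : K ≤ ⊤)).trans ?_
      exact com_sup_aux P _ _ hP inferInstance le_rfl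
  obtain ⟨n, hn⟩ := Subgroup.nilpotent_iff_lowerCentralSeries.1 hG
  have := key n
  rw [hn, sup_bot_eq] at this
  exact this

theorem pow_aux {G : Type*} [Group G] (X U c : G) (h : U * X = X * U * c)
    (hX : Commute c X) (hU : Commute c U) (j : ℕ) :
    (X * U) ^ j = X ^ j * U ^ j * c ^ (j.choose 2) := by
  have h1 : ∀ j : ℕ, U ^ j * X = X * U ^ j * c ^ j := by
    intro j
    induction j with
    | zero => simp
    | succ j ih =>
      calc U ^ (j + 1) * X = U * (U ^ j * X) := by rw [pow_succ']; group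
        _ = U * (X * U ^ j * c ^ j) := by rw [ih]
        _ = (U * X) * U ^ j * c ^ j := by group
        _ = X * U * c * U ^ j * c ^ j := by rw [h]
        _ = X * U * (c * U ^ j) * c ^ j := by group
        _ = X * U * (U ^ j * c) * c ^ j := by rw [(hU.pow_right j).eq]
        _ = X * (U * U ^ j) * (c * c ^ j) := by group
        _ = X * U ^ (j + 1) * c ^ (j + 1) := by rw [← pow_succ', ← pow_succ']
  induction j with
  | zero => simp
  | succ j ih =>
    have hc : Commute (c ^ (j.choose 2)) (X * U) := (hX.mul_right hU).pow_left _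
    calc (X * U) ^ (j + 1) = (X * U) ^ j * (X * U) := pow_succ _ _
      _ = X ^ j * U ^ j * c ^ (j.choose 2) * (X * U) := by rw [ih]
      _ = X ^ j * U ^ j * (c ^ (j.choose 2) * (X * U)) := by group
      _ = X ^ j * U ^ j * ((X * U) * c ^ (j.choose 2)) := by rw [hc.eq]
      _ = X ^ j * (U ^ j * X) * U * c ^ (j.choose 2) := by group
      _ = X ^ j * (X * U ^ j * c ^ j) * U * c ^ (j.choose 2) := by rw [h1 j]
      _ = (X ^ j * X) * U ^ j * (c ^ j * U) * c ^ (j.choose 2) := by group
      _ = (X ^ j * X) * U ^ j * (U * c ^ j) * c ^ (j.choose 2) := by rw [(hU.pow_left j).eq]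
      _ = (X ^ j * X) * (U ^ j * U) * (c ^ j * c ^ (j.choose 2)) := by group
      _ = X ^ (j + 1) * U ^ (j + 1) * c ^ ((j + 1).choose 2) := by
        rw [← pow_succ, ← pow_succ, ← pow_add]
        congr 2
        rw [Nat.choose_succ_succ' j 1, Nat.choose_one_right]

theorem pwr_of_eng {G : Type*} [Group G] [Finite G] (n q k : ℕ) (hq : q.Prime)
    (hp : IsPGroup q G) (hE : Eng n G) (hk : n ≤ q ^ k) :
    Pwr q (PW (q ^ (k + 1)) (⊤ : Subgroup G)) := by
  have : Fact q.Prime := ⟨hq⟩
  have hG : Group.IsNilpotent G := hp.isNilpotent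
  have hemb : ∀ K : Subgroup G, K.Normal → K ≤ PW (q ^ (k + 1)) (⊤ : Subgroup G) →
      ⁅K, PW (q ^ (k + 1)) (⊤ : Subgroup G)⁆ ≤ PW q K := by
    intro K hK hKN
    have := hK
    have hPn : (PW q K).Normal := PW_normal q K hK
    have := hPn
    have h1 : ⁅K, PW (q ^ (k + 1)) (⊤ : Subgroup G)⁆ ≤ PW q K ⊔ ⁅⁅K, K⁆, K⁆ := by
      apply com_le_aux _ _ inferInstance
      rintro x hx _ ⟨g, -, rfl⟩
      exact eng_lcs2 n q k hq hE hk K hK x hx g
    have h2 : ⁅K, K⁆ ≤ PW q K := by
      apply nak_aux hG _ _ hPn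
      exact (Subgroup.commutator_mono le_rfl hKN).trans h1
    refine h1.trans (sup_le le_rfl ?_)
    exact (Subgroup.commutator_mono h2 le_rfl).trans (Subgroup.commutator_le_left _ _)
  refine ⟨PW_normal _ _ inferInstance, hemb, ?_⟩
  intro K hK hKN x hx u hu
  have hPn : (PW q K).Normal := PW_normal q K hK
  have hZn : (PW q (PW q K)).Normal := PW_normal q _ hPn
  have := hK
  have := hPn
  have := hZn
  set f := QuotientGroup.mk' (PW q (PW q K)) with hf
  have hker : ∀ y : G, y ∈ PW q (PW q K) ↔ f y = 1 := by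
    intro y
    rw [← MonoidHom.mem_ker, hf, QuotientGroup.ker_mk']
  rw [hker]
  rcases hq.eq_two_or_odd' with h2 | hodd
  · subst h2
    have h1 : ⁅K, PW (2 ^ (k + 1)) (⊤ : Subgroup G)⁆ ≤ PW 2 (PW 2 K) := by
      apply com_le_aux _ _ hZn
      rintro x hx _ ⟨g, -, rfl⟩
      exact eng_two n k hE hk K hK x hx g
    have h3 := h1 (Subgroup.commutator_mem_commutator hu hx)
    rw [hker, map_commutatorElement, commutatorElement_eq_one_iff_commute] at h3
    rw [map_mul, map_inv, map_mul, map_pow, map_pow, map_pow, map_mul, h3.symm.mul_pow]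
    simp
  · set c := u⁻¹ * x⁻¹ * u * x with hc
    have hcP : c ∈ PW q K := by
      have h1 := hemb K hK hKN (Subgroup.commutator_mem_commutator (inv_mem hu) (inv_mem hx))
      rw [commutatorElement_def, inv_inv, inv_inv] at h1
      exact h1
    have hcN : ∀ y ∈ PW (q ^ (k + 1)) (⊤ : Subgroup G), Commute (f c) (f y) := by
      intro y hy
      have h1 := hemb (PW q K) hPn ((PW_le q K).trans hKN)
        (Subgroup.commutator_mem_commutator hcP hy)
      rw [hker, map_commutatorElement, commutatorElement_eq_one_iff_commute] at h1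
      exact h1
    have hcq : (f c) ^ q = 1 := by
      rw [← map_pow, ← hker]
      exact pow_mem_PW q hcP
    have hrel : f u * f x = f x * f u * f c := by
      rw [← map_mul, ← map_mul, ← map_mul]
      congr 1
      rw [hc]; group
    have hpow := pow_aux (f x) (f u) (f c) hrel (hcN x hx) (hcN u (hKN hu)) q
    have hdiv : q ∣ q.choose 2 := by
      apply hq.dvd_choose_self (by norm_num)
      rcases hodd with ⟨m, hm⟩
      have := hq.two_le
      omega
    obtain ⟨m, hm⟩ := hdiv
    have hc1 : (f c) ^ (q.choose 2) = 1 := by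
      rw [hm, pow_mul, hcq, one_pow]
    rw [map_mul, map_inv, map_mul, map_pow, map_pow, map_pow, map_mul, hpow, hc1]
    simp


end Pool.Agent.Helper601.TE
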