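import Mathlib
import Pool.Agent.Helper601.TE.Defs
import Pool.Agent.Helper601.TE.Ybasic

set_option autoImplicit false

namespace Pool.Agent.Helper601.TE


theorem three_subgroups_aux {G : Type*} [Group G] (M H₁ H₂ H₃ : Subgroup G) (hM : M.Normal)
    (h1 : ⁅⁅H₂, H₃⁆, H₁⁆ ≤ M) (h2 : ⁅⁅H₃, H₁⁆, H₂⁆ ≤ M) : ⁅⁅H₁, H₂⁆, H₃⁆ ≤ M := by
  have key : ∀ K : Subgroup G, K ≤ M ↔ K.map (QuotientGroup.mk' M) = ⊥ := by
    intro K
    rw [Subgroup.map_eq_bot_iff, QuotientGroup.ker_mk']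
  rw [key, Subgroup.map_commutator, Subgroup.map_commutator] at h1 h2 ⊢
  exact Subgroup.commutator_commutator_eq_bot_of_rotate h1 h2

theorem LC_comm_aux {G : Type*} [Group G] (k : ℕ) : ∀ (H : Subgroup G), H.Normal →
    ⁅H, LC (⊤ : Subgroup G) k⁆ ≤ LC H (k + 1) := by
  induction k with
  | zero => intro H _; exact le_refl _
  | succ k ih =>
    intro H hH
    rw [Subgroup.commutator_comm]
    change ⁅⁅LC (⊤ : Subgroup G) k, (⊤ : Subgroup G)⁆, H⁆ ≤ _
    refine three_subgroups_aux _ _ _ _ (LC_normal H hH _) ?_ ?_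
    · rw [Subgroup.commutator_comm ⊤ H]
      have h := ih (LC H 1) (LC_normal H hH 1)
      rw [LC_add] at h
      have e : 1 + (k + 1) = k + 1 + 1 := by omega
      rw [e] at h
      exact h
    · exact Subgroup.commutator_mono (ih H hH) (le_refl _)

theorem LC_comm {G : Type*} [Group G] (N : Subgroup G) (hN : N.Normal) (j : ℕ) :
    ⁅LC N j, LC N j⁆ ≤ LC N (2 * j + 1) := by
  refine (Subgroup.commutator_mono (le_refl _) (LC_mono (le_top : N ≤ ⊤) j)).trans ?_
  refine (LC_comm_aux j (LC N j) (LC_normal N hN j)).trans ?_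
  rw [LC_add]
  have e : j + (j + 1) = 2 * j + 1 := by omega
  rw [e]


end Pool.Agent.Helper601.TE
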