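import Mathlib
import Pool.Agent.Helper601.TE.Defs
import Pool.Agent.Helper601.TE.Yabel
import Pool.Agent.Helper601.TE.Ybasic
import Pool.Agent.Helper601.TE.Yinterge
import Pool.Agent.Helper601.TE.Yinterle
import Pool.Agent.Helper601.TE.Ypwr
import Pool.Agent.Helper601.TE.Ythree

set_option autoImplicit false

namespace Pool.Agent.Helper601.TE


theorem mi_iter_normal {G : Type*} [Group G] (q : ℕ) (H : Subgroup G) (hH : H.Normal) (i : ℕ) :
    ((PW q)^[i] H).Normal := by
  induction i with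
  | zero => exact hH
  | succ i ih =>
    rw [Function.iterate_succ_apply']
    exact PW_normal q _ ih

theorem mi_iter_le {G : Type*} [Group G] (q : ℕ) (H : Subgroup G) (i : ℕ) :
    (PW q)^[i] H ≤ H := by
  induction i with
  | zero => exact le_rfl
  | succ i ih =>
    rw [Function.iterate_succ_apply']
    exact (PW_le q _).trans ih

theorem mi_iter_mono {G : Type*} [Group G] (q : ℕ) {H K : Subgroup G} (h : H ≤ K) (i : ℕ) :
    (PW q)^[i] H ≤ (PW q)^[i] K := by
  induction i with
  | zero => exact h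
  | succ i ih =>
    rw [Function.iterate_succ_apply', Function.iterate_succ_apply']
    exact PW_mono q ih

theorem mi_iter_map {G G' : Type*} [Group G] [Group G'] (f : G →* G') (q : ℕ) (H : Subgroup G)
    (i : ℕ) : ((PW q)^[i] H).map f = (PW q)^[i] (H.map f) := by
  induction i with
  | zero => rfl
  | succ i ih =>
    rw [Function.iterate_succ_apply', Function.iterate_succ_apply', PW_map, ih]

theorem mi_comm_top {G : Type*} [Group G] [Finite G] (q : ℕ) (hq : q.Prime)
    (hp : IsPGroup q G) (N : Subgroup G) (hN : Pwr q N)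
    (H : Subgroup G) (hH : H.Normal) (hle : H ≤ N) :
    ⁅PW q H, (⊤ : Subgroup G)⁆ = PW q ⁅H, (⊤ : Subgroup G)⁆ :=
  le_antisymm (inter_le q N hN H ⊤ hH inferInstance hle) (inter_ge q hq hp N hN H hH hle)

theorem mi_LC_PW {G : Type*} [Group G] [Finite G] (q : ℕ) (hq : q.Prime)
    (hp : IsPGroup q G) (N : Subgroup G) (hN : Pwr q N)
    (H : Subgroup G) (hH : H.Normal) (hle : H ≤ N) (j : ℕ) :
    LC (PW q H) j = PW q (LC H j) := by
  induction j with
  | zero => rfl
  | succ j ih =>
    change ⁅LC (PW q H) j, (⊤ : Subgroup G)⁆ = PW q ⁅LC H j, (⊤ : Subgroup G)⁆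
    rw [ih]
    exact mi_comm_top q hq hp N hN _ (LC_normal H hH j)
      ((LC_anti H hH (Nat.zero_le j)).trans hle)

theorem mi_LC_iter {G : Type*} [Group G] [Finite G] (q : ℕ) (hq : q.Prime)
    (hp : IsPGroup q G) (N : Subgroup G) (hN : Pwr q N)
    (H : Subgroup G) (hH : H.Normal) (hle : H ≤ N) (i j : ℕ) :
    LC ((PW q)^[i] H) j = (PW q)^[i] (LC H j) := by
  induction i with
  | zero => rfl
  | succ i ih =>
    rw [Function.iterate_succ_apply', Function.iterate_succ_apply', ← ih]
    exact mi_LC_PW q hq hp N hN _ (mi_iter_normal q H hH i) ((mi_iter_le q H i).trans hle) j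

theorem mi_comm_iter {G : Type*} [Group G] (q : ℕ) (N : Subgroup G) (hN : Pwr q N)
    (H K : Subgroup G) (hH : H.Normal) (hK : K.Normal) (hle : H ≤ N) (i : ℕ) :
    ⁅(PW q)^[i] H, K⁆ ≤ (PW q)^[i] ⁅H, K⁆ := by
  induction i with
  | zero => exact le_rfl
  | succ i ih =>
    rw [Function.iterate_succ_apply', Function.iterate_succ_apply']
    refine (inter_le q N hN _ K (mi_iter_normal q H hH i) hK
      ((mi_iter_le q H i).trans hle)).trans ?_
    exact PW_mono q ih

theorem mi_comm_iter2 {G : Type*} [Group G] (q : ℕ) (N : Subgroup G) (hN : Pwr q N)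
    (H : Subgroup G) (hH : H.Normal) (hle : H ≤ N) (i : ℕ) :
    ⁅(PW q)^[i] H, (PW q)^[i] H⁆ ≤ (PW q)^[i + i] ⁅H, H⁆ := by
  refine (mi_comm_iter q N hN H _ hH (mi_iter_normal q H hH i) hle i).trans ?_
  rw [Function.iterate_add_apply]
  refine mi_iter_mono q ?_ i
  rw [Subgroup.commutator_comm]
  exact mi_comm_iter q N hN H H hH hH hle i

theorem main_ind (n q k m s D' : ℕ) (hq : q.Prime) (hk : n ≤ q ^ k) (hD' : q.Coprime D')
    (hD : ∀ (G : Type) [Group G], Eng n G → ∀ A : Subgroup G, A.Normal →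
      (∀ a ∈ A, ∀ b ∈ A, a * b = b * a) → ∀ a ∈ A, ∀ l : List G, l.length = m →
        (cw a l) ^ (q ^ s * D') = 1) (t : ℕ) :
    ∀ (G : Type) [Group G] [Finite G], IsPGroup q G → Eng n G →
      (PW q)^[t] (PW (q ^ (k + 1)) (⊤ : Subgroup G)) = ⊥ →
      (PW q)^[2 * s + 1] (LC (PW (q ^ (k + 1)) (⊤ : Subgroup G)) (2 * m)) = ⊥ := by
  induction t with
  | zero =>
    intro G _ _ hp hE h0
    have hN := pwr_of_eng n q k hq hp hE hk
    rw [eq_bot_iff]
    refine (mi_iter_le q _ _).trans ?_
    refine (LC_anti _ hN.normal (Nat.zero_le (2 * m))).trans ?_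
    exact le_of_eq h0
  | succ t ih =>
    intro G _ _ hp hE h0
    have hN := pwr_of_eng n q k hq hp hE hk
    set N := PW (q ^ (k + 1)) (⊤ : Subgroup G) with hNdef
    set Z := (PW q)^[t] N with hZ
    have hZn : Z.Normal := mi_iter_normal q N hN.normal t
    have hLn : ∀ j, (LC N j).Normal := fun j => LC_normal N hN.normal j
    have hLle : ∀ j, LC N j ≤ N := fun j => LC_anti N hN.normal (Nat.zero_le j)
    -- the quotient
    have hsurj : Function.Surjective (QuotientGroup.mk' Z) := QuotientGroup.mk'_surjective Z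
    have hmapN : N.map (QuotientGroup.mk' Z) = PW (q ^ (k + 1)) (⊤ : Subgroup (G ⧸ Z)) := by
      rw [hNdef, PW_map, Subgroup.map_top_of_surjective _ hsurj]
    have hE' : Eng n (G ⧸ Z) := hE.of_surj (QuotientGroup.mk' Z) hsurj
    have hp' : IsPGroup q (G ⧸ Z) := hp.to_quotient Z
    have h1 : (PW q)^[t] (PW (q ^ (k + 1)) (⊤ : Subgroup (G ⧸ Z))) = ⊥ := by
      rw [← hmapN, ← mi_iter_map, ← hZ, Subgroup.map_eq_bot_iff, QuotientGroup.ker_mk']
    have h2 := ih (G ⧸ Z) hp' hE' h1
    rw [← hmapN, ← LC_map _ hsurj, ← mi_iter_map, Subgroup.map_eq_bot_iff,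
      QuotientGroup.ker_mk'] at h2
    have h3 : (PW q)^[2 * s + 2] (LC N (2 * m)) = ⊥ := by
      rw [eq_bot_iff, show 2 * s + 2 = (2 * s + 1) + 1 by ring, Function.iterate_succ_apply']
      refine (PW_mono q h2).trans ?_
      rw [Function.iterate_succ_apply'] at h0
      exact le_of_eq h0
    -- the abelian subgroup
    set A := (PW q)^[s + 1] (LC N m) with hA
    have hAn : A.Normal := mi_iter_normal q _ (hLn m) (s + 1)
    have hAA : ⁅A, A⁆ = ⊥ := by
      rw [eq_bot_iff]
      refine (mi_comm_iter2 q N hN (LC N m) (hLn m) (hLle m) (s + 1)).trans ?_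
      refine (mi_iter_mono q (LC_comm N hN.normal m) _).trans ?_
      refine (mi_iter_mono q (LC_anti N hN.normal (Nat.le_succ (2 * m))) _).trans ?_
      rw [show s + 1 + (s + 1) = 2 * s + 2 by ring]
      exact le_of_eq h3
    have hab : ∀ a ∈ A, ∀ b ∈ A, a * b = b * a := by
      intro a ha b hb
      have h4 := Subgroup.commutator_mem_commutator ha hb
      rw [hAA, Subgroup.mem_bot] at h4
      exact commutatorElement_eq_one_iff_mul_comm.mp h4
    have h5 := LC_abelian_exp A hAn hab m (q ^ s * D') (hD G hE A hAn hab)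
    have h6 : ∀ x ∈ LC A m, x ^ q ^ s = 1 := by
      intro x hx
      have h7 := h5 x hx
      obtain ⟨j, hj⟩ := hp x
      rw [← orderOf_eq_one_iff]
      have h8 : orderOf (x ^ q ^ s) ∣ D' := by
        apply orderOf_dvd_of_pow_eq_one
        rw [← pow_mul]
        exact h7
      have h9 : orderOf (x ^ q ^ s) ∣ q ^ j := by
        apply orderOf_dvd_of_pow_eq_one
        rw [← pow_mul, mul_comm, pow_mul, hj, one_pow]
      exact Nat.eq_one_of_dvd_coprimes (Nat.Coprime.pow_left j hD') h9 h8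
    have hLCA : LC A m ≤ A := LC_anti A hAn (Nat.zero_le m)
    have h10 := PW_iter_bot (LC A m) (fun a ha b hb => hab a (hLCA ha) b (hLCA hb)) q s h6
    have h11 : LC A m = (PW q)^[s + 1] (LC N (2 * m)) := by
      rw [hA, mi_LC_iter q hq hp N hN (LC N m) (hLn m) (hLle m), LC_add, two_mul]
    rw [h11, ← Function.iterate_add_apply] at h10
    rw [show 2 * s + 1 = s + (s + 1) by ring]
    exact h10


end Pool.Agent.Helper601.TE
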