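import Mathlib
import Pool.Agent.Helper601.TE.Defs
import Pool.Agent.Helper601.TE.Yabel
import Pool.Agent.Helper601.TE.Ybasic
import Pool.Agent.Helper601.TE.Yind

set_option autoImplicit false

namespace Pool.Agent.Helper601.TE


theorem fin_pow849 {G : Type} [Group G] (q : ℕ) (e : ℕ) : ∀ (H : Subgroup G),
    (PW q)^[e] H = ⊥ → ∀ y ∈ H, y ^ (q ^ e) = 1 := by
  induction e with
  | zero =>
    intro H hH y hy
    rw [Function.iterate_zero, id] at hH
    rw [hH, Subgroup.mem_bot] at hy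
    rw [hy, one_pow]
  | succ e ih =>
    intro H hH y hy
    rw [Function.iterate_succ_apply] at hH
    have h1 := ih (PW q H) hH (y ^ q) (pow_mem_PW q hy)
    rw [pow_succ', pow_mul]
    exact h1

theorem finite_bound (n m D : ℕ) (hD0 : 0 < D)
    (hD : ∀ (G : Type) [Group G], Eng n G → ∀ A : Subgroup G, A.Normal →
      (∀ a ∈ A, ∀ b ∈ A, a * b = b * a) → ∀ a ∈ A, ∀ l : List G, l.length = m →
        (cw a l) ^ D = 1) (q : ℕ) (hq : q.Prime) :
    ∃ W : ℕ, 0 < W ∧ ∀ (G : Type) [Group G] [Finite G], IsPGroup q G → Eng n G →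
      ∀ k : ℕ, n ≤ q ^ k → ∀ (x : G) (l : List G), 2 * m ≤ l.length →
        (cw (x ^ q ^ (k + 1)) l) ^ W = 1 := by
  obtain ⟨s, D', hnd, hD'⟩ := Nat.exists_eq_pow_mul_and_not_dvd hD0.ne' q hq.ne_one
  have hcop : q.Coprime D' := (Nat.Prime.coprime_iff_not_dvd hq).mpr hnd
  refine ⟨q ^ (2 * s + 1), pow_pos hq.pos _, ?_⟩
  intro G _ _ hpG hE k hk x l hl
  obtain ⟨t, ht⟩ := exists_iter_bot q hq hpG (PW (q ^ (k + 1)) (⊤ : Subgroup G))
  have h1 := main_ind n q k m s D' hq hk hcop (by rw [← hD']; exact hD) t G hpG hE ht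
  have hN : (PW (q ^ (k + 1)) (⊤ : Subgroup G)).Normal := PW_normal _ _ inferInstance
  have h2 : cw (x ^ q ^ (k + 1)) l ∈ LC (PW (q ^ (k + 1)) (⊤ : Subgroup G)) (2 * m) :=
    LC_anti _ hN hl (cw_mem_LC hN (pow_mem_PW (q ^ (k + 1)) (Subgroup.mem_top x)) l)
  exact fin_pow849 q _ _ h1 _ h2


end Pool.Agent.Helper601.TE
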