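import Mathlib
import Pool.Agent.Helper601.TE.Defs

set_option autoImplicit false

namespace Pool.Agent.Helper601.TE


/-- terms of the derived series of a finitely generated torsion group have finite index -/
theorem derivedSeries_finite_index (G : Type*) [Group G] [hG : Group.FG G]
    (h : ∀ g : G, IsOfFinOrder g) (n : ℕ) : (derivedSeries G n).FiniteIndex := by
  induction n with
  | zero =>
    rw [derivedSeries_zero]
    infer_instance
  | succ n ih =>
    set K := derivedSeries G n with hK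
    have hfg : Group.FG K := Subgroup.fg_of_index_ne_zero K
    have hfgab : Group.FG (Abelianization K) := QuotientGroup.fg _
    have htor : IsMulTorsion (Abelianization K) := by
      intro x
      obtain ⟨y, rfl⟩ := QuotientGroup.mk'_surjective _ x
      have h1 : IsOfFinOrder (y : G) := h y
      have h2 : IsOfFinOrder y := by
        exact Submonoid.isOfFinOrder_coe.mp h1
      exact MonoidHom.isOfFinOrder _ h2
    have hfin : Finite (Abelianization K) := CommGroup.finite_of_fg_isMulTorsion (G := Abelianization K) htor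
    have hidx : (commutator K).FiniteIndex := by
      have : Finite (K ⧸ commutator K) := hfin
      exact Subgroup.finiteIndex_of_finite_quotient
    rw [derivedSeries_succ, ← hK, ← Subgroup.map_subtype_commutator]
    constructor
    rw [Subgroup.index_map_subtype]
    exact mul_ne_zero hidx.index_ne_zero ih.index_ne_zero

/-- a finitely generated soluble torsion group is finite -/
theorem finite_of_fg_solvable_torsion (G : Type*) [Group G] [Group.FG G] [hs : Group.IsSolvable G]
    (h : ∀ g : G, IsOfFinOrder g) : Finite G := by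
  obtain ⟨n, hn⟩ := hs.solvable
  have := derivedSeries_finite_index G h n
  rw [hn] at this
  have h1 : Finite (G ⧸ (⊥ : Subgroup G)) := inferInstance
  exact Finite.of_injective (fun g : G => (QuotientGroup.mk g : G ⧸ (⊥ : Subgroup G))) (by
    intro a b hab
    simpa [QuotientGroup.eq, inv_mul_eq_one] using hab)

theorem finite_of_fg_nilpotent_torsion (G : Type*) [Group G] [Group.FG G] [Group.IsNilpotent G]
    (h : ∀ g : G, IsOfFinOrder g) : Finite G :=
  finite_of_fg_solvable_torsion G h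

/-- maximal normal subgroup avoiding `z` -/
theorem resid_zorn (K : Type) [Group K] (z : K) (hz : z ≠ 1) :
    ∃ L : Subgroup K, L.Normal ∧ z ∉ L ∧
      ∀ M : Subgroup K, M.Normal → L ≤ M → z ∉ M → M = L := by
  obtain ⟨L, -, hL⟩ := zorn_le_nonempty₀ {L : Subgroup K | L.Normal ∧ z ∉ L} (by
    intro c hc hch y hy
    have hdir : DirectedOn (· ≤ ·) c := hch.directedOn
    have hmem : ∀ x, x ∈ sSup c ↔ ∃ s ∈ c, x ∈ s := fun x =>
      Subgroup.mem_sSup_of_directedOn ⟨y, hy⟩ hdir
    refine ⟨sSup c, ⟨⟨?_⟩, ?_⟩, fun a ha => le_sSup ha⟩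
    · intro n hn g
      obtain ⟨s, hs, hns⟩ := (hmem n).1 hn
      exact (hmem _).2 ⟨s, hs, (hc hs).1.conj_mem n hns g⟩
    · intro hzc
      obtain ⟨s, hs, hzs⟩ := (hmem z).1 hzc
      exact (hc hs).2 hzs) ⊥ ⟨inferInstance, fun h => hz (Subgroup.mem_bot.1 h)⟩
  refine ⟨L, hL.prop.1, hL.prop.2, ?_⟩
  intro M hM hLM hzM
  exact le_antisymm (hL.le_of_ge ⟨hM, hzM⟩ hLM) hLM

/-- the power commutes -/
theorem resid_pow_comm {G : Type*} [Group G] (y g c : G) (hc : ∀ x, c * x = x * c)
    (h : y * g = c * (g * y)) (n : ℕ) : y ^ n * g = c ^ n * (g * y ^ n) := by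
  induction n with
  | zero => simp
  | succ n ih =>
    have hcn : ∀ x, c ^ n * x = x * c ^ n := fun x => (Commute.pow_left (hc x) n : _)
    calc y ^ (n + 1) * g = y ^ n * (y * g) := by rw [pow_succ, mul_assoc]
      _ = y ^ n * (c * (g * y)) := by rw [h]
      _ = c * (y ^ n * g) * y := by
          rw [← mul_assoc (y ^ n) c, ← hc (y ^ n)]
          group
      _ = c * (c ^ n * (g * y ^ n)) * y := by rw [ih]
      _ = c ^ (n + 1) * (g * y ^ (n + 1)) := by
          rw [pow_succ' c, pow_succ y]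
          group

/-- torsion of the center gives torsion of the group -/
theorem resid_tors (q : ℕ) (hq : 0 < q) (G : Type) [Group G] [Group.IsNilpotent G] :
    Group.FG G → (∀ x ∈ Subgroup.center G, ∃ e : ℕ, x ^ q ^ e = 1) →
      ∀ x : G, ∃ e : ℕ, x ^ q ^ e = 1 := by
  refine Group.nilpotent_center_quotient_ind (P := fun G _ _ => Group.FG G →
    (∀ x ∈ Subgroup.center G, ∃ e : ℕ, x ^ q ^ e = 1) → ∀ x : G, ∃ e : ℕ, x ^ q ^ e = 1) G ?_ ?_
  · intro G _ _ _ _ x
    exact ⟨0, Subsingleton.elim _ _⟩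
  · intro G _ _ ih hFG hZ x
    obtain ⟨S, hS, hSf⟩ := Group.fg_iff.1 hFG
    have hFGq : Group.FG (G ⧸ Subgroup.center G) := QuotientGroup.fg _
    have hcen : ∀ xb ∈ Subgroup.center (G ⧸ Subgroup.center G), ∃ e : ℕ, xb ^ q ^ e = 1 := by
      intro yb hyb
      obtain ⟨y, rfl⟩ := QuotientGroup.mk'_surjective (Subgroup.center G) yb
      have h1 : ∀ g : G, ∃ c ∈ Subgroup.center G, y * g = c * (g * y) := by
        intro g
        refine ⟨y * g * (g * y)⁻¹, ?_, by group⟩
        have h2 := (Subgroup.mem_center_iff.1 hyb) (QuotientGroup.mk' (Subgroup.center G) g)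
        rw [← map_mul, ← map_mul] at h2
        have h3 : (QuotientGroup.mk' (Subgroup.center G)) (y * g * (g * y)⁻¹) = 1 := by
          rw [map_mul, map_inv, h2, mul_inv_cancel]
        rwa [← MonoidHom.mem_ker, QuotientGroup.ker_mk'] at h3
      choose c hc hcy using h1
      have h2 : ∀ g : G, ∃ e : ℕ, (c g) ^ q ^ e = 1 := fun g => hZ _ (hc g)
      choose e he using h2
      obtain ⟨E, hE⟩ : ∃ E : ℕ, ∀ g ∈ S, e g ≤ E := by
        refine ⟨hSf.toFinset.sup e, fun g hg => Finset.le_sup (hSf.mem_toFinset.2 hg)⟩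
      refine ⟨E, ?_⟩
      have h3 : ∀ g ∈ S, y ^ q ^ E * g = g * y ^ q ^ E := by
        intro g hg
        have h4 := resid_pow_comm y g (c g) (fun x => (Subgroup.mem_center_iff.1 (hc g) x).symm)
          (hcy g) (q ^ E)
        have h5 : (c g) ^ q ^ E = 1 := by
          obtain ⟨d, hd⟩ := Nat.exists_eq_add_of_le (hE g hg)
          rw [hd, pow_add, pow_mul, he g, one_pow]
        rw [h4, h5, one_mul]
      have h6 : y ^ q ^ E ∈ Subgroup.center G := by
        rw [Subgroup.mem_center_iff]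
        intro g
        have hg : g ∈ Subgroup.closure S := by rw [hS]; trivial
        have hle : Subgroup.closure S ≤ Subgroup.centralizer {y ^ q ^ E} := by
          rw [Subgroup.closure_le]
          intro g hg
          rw [SetLike.mem_coe, Subgroup.mem_centralizer_singleton_iff]
          exact (h3 g hg).symm
        exact Subgroup.mem_centralizer_singleton_iff.1 (hle hg)
      rw [← map_pow]
      rwa [← QuotientGroup.ker_mk' (Subgroup.center G), MonoidHom.mem_ker] at h6
    obtain ⟨e, he⟩ := ih hFGq hcen (QuotientGroup.mk' (Subgroup.center G) x)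
    rw [← map_pow, ← MonoidHom.mem_ker, QuotientGroup.ker_mk'] at he
    obtain ⟨e', he'⟩ := hZ _ he
    exact ⟨e + e', by rw [pow_add, pow_mul, he']⟩

/-- the center of the quotient is a torsion group of exponent a power of a prime -/
theorem resid_center (H : Type) [Group H] [Group.IsNilpotent H] (z : H) (hz : z ≠ 1)
    (hmin : ∀ M : Subgroup H, M.Normal → M ≠ ⊥ → z ∈ M) :
    ∃ q : ℕ, q.Prime ∧ ∀ x ∈ Subgroup.center H, ∃ e : ℕ, x ^ q ^ e = 1 := by
  have hnt : Nontrivial H := ⟨z, 1, hz⟩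
  have hzc : z ∈ Subgroup.center H :=
    hmin _ inferInstance (Group.IsNilpotent.center_ne_bot H)
  have hzp : ∀ x ∈ Subgroup.center H, x ≠ 1 → ∃ j : ℤ, x ^ j = z := by
    intro x hx hx1
    have hn : (Subgroup.zpowers x).Normal := by
      refine ⟨fun n hn g => ?_⟩
      obtain ⟨j, rfl⟩ := Subgroup.mem_zpowers_iff.1 hn
      have h1 : x ^ j ∈ Subgroup.center H := zpow_mem hx j
      have h2 : g * x ^ j * g⁻¹ = x ^ j := by
        rw [Subgroup.mem_center_iff.1 h1 g, mul_inv_cancel_right]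
      rw [h2]
      exact hn
    have h3 := hmin _ hn (by rwa [Ne, Subgroup.zpowers_eq_bot])
    exact Subgroup.mem_zpowers_iff.1 h3
  have hfin : IsOfFinOrder z := by
    by_cases h2 : z ^ 2 = 1
    · exact isOfFinOrder_iff_pow_eq_one.2 ⟨2, by norm_num, h2⟩
    · obtain ⟨j, hj⟩ := hzp (z ^ 2) (pow_mem hzc 2) h2
      rw [isOfFinOrder_iff_zpow_eq_one]
      refine ⟨2 * j - 1, by omega, ?_⟩
      rw [zpow_sub, zpow_mul, zpow_one]
      have : (z ^ (2 : ℤ)) = z ^ 2 := by norm_cast
      rw [this, hj, mul_inv_cancel]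
  obtain ⟨n, hn⟩ : ∃ n, n = orderOf z := ⟨_, rfl⟩
  have hn1 : n ≠ 1 := by
    intro h
    rw [hn, orderOf_eq_one_iff] at h
    exact hz h
  obtain ⟨q, hqd⟩ : ∃ q, q = n.minFac := ⟨_, rfl⟩
  have hq : q.Prime := by rw [hqd]; exact Nat.minFac_prime hn1
  have hqn : q ∣ n := by rw [hqd]; exact Nat.minFac_dvd n
  have hzq : z ^ q = 1 := by
    by_contra h2
    obtain ⟨j, hj⟩ := hzp (z ^ q) (pow_mem hzc q) h2
    have h3 : z ^ ((q : ℤ) * j - 1) = 1 := by
      rw [zpow_sub, zpow_mul, zpow_one, zpow_natCast, hj, mul_inv_cancel]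
    have h4 : (n : ℤ) ∣ (q : ℤ) * j - 1 := by
      rw [hn]
      exact orderOf_dvd_iff_zpow_eq_one.2 h3
    have h5 : (q : ℤ) ∣ (q : ℤ) * j - 1 := (Int.natCast_dvd_natCast.2 hqn).trans h4
    have h6 : (q : ℤ) ∣ 1 := by
      have := dvd_sub (Dvd.intro j rfl : (q : ℤ) ∣ (q : ℤ) * j) h5
      rwa [sub_sub_cancel] at this
    have h7 : q ∣ 1 := by exact_mod_cast h6
    exact hq.one_lt.ne' (Nat.dvd_one.1 h7)
  refine ⟨q, hq, ?_⟩
  intro x hx
  by_cases hx1 : x = 1
  · exact ⟨0, by rw [hx1, one_pow]⟩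
  obtain ⟨j, hj⟩ := hzp x hx hx1
  have hj0 : j ≠ 0 := by
    rintro rfl
    rw [zpow_zero] at hj
    exact hz hj.symm
  have hxfin : IsOfFinOrder x := by
    rw [isOfFinOrder_iff_zpow_eq_one]
    refine ⟨j * q, mul_ne_zero hj0 (by exact_mod_cast hq.ne_zero), ?_⟩
    rw [zpow_mul, hj, zpow_natCast, hzq]
  have hxpos : 0 < orderOf x := hxfin.orderOf_pos
  have hprime : ∀ {r : ℕ}, r.Prime → r ∣ orderOf x → r = q := by
    intro r hr hrd
    obtain ⟨w, hw⟩ : ∃ w, w = x ^ (orderOf x / r) := ⟨_, rfl⟩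
    have hwr : w ^ r = 1 := by
      rw [hw, ← pow_mul, Nat.div_mul_cancel hrd, pow_orderOf_eq_one]
    have hw1 : w ≠ 1 := by
      rw [hw]
      apply pow_ne_one_of_lt_orderOf
      · exact (Nat.div_pos (Nat.le_of_dvd hxpos hrd) hr.pos).ne'
      · exact Nat.div_lt_self hxpos hr.one_lt
    have hwc : w ∈ Subgroup.center H := by
      rw [hw]
      exact pow_mem hx _
    obtain ⟨i, hi⟩ := hzp w hwc hw1
    have hzr : z ^ r = 1 := by
      rw [← hi, ← zpow_natCast, ← zpow_mul, mul_comm, zpow_mul, zpow_natCast, hwr, one_zpow]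
    have h1 : orderOf z ∣ r := orderOf_dvd_of_pow_eq_one hzr
    have h2 : orderOf z ∣ q := orderOf_dvd_of_pow_eq_one hzq
    rw [← hn] at h1 h2
    rcases (Nat.dvd_prime hr).1 h1 with h3 | h3
    · exact absurd h3 hn1
    rcases (Nat.dvd_prime hq).1 h2 with h4 | h4
    · exact absurd h4 hn1
    rw [← h3, ← h4]
  have hpow := Nat.eq_prime_pow_of_unique_prime_dvd hxpos.ne' (p := q) (fun {d} hd hdd => hprime hd hdd)
  exact ⟨_, by rw [← hpow, pow_orderOf_eq_one]⟩

theorem resid (K : Type) [Group K] [Group.FG K] [Group.IsNilpotent K] (z : K) (hz : z ≠ 1) :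
    ∃ q : ℕ, q.Prime ∧ ∃ (Q : Type) (_ : Group Q) (_ : Finite Q), IsPGroup q Q ∧
      ∃ f : K →* Q, Function.Surjective f ∧ f z ≠ 1 := by
  obtain ⟨L, hLn, hzL, hLmax⟩ := resid_zorn K z hz
  have hz1 : (QuotientGroup.mk' L) z ≠ 1 := by
    intro h
    rw [← MonoidHom.mem_ker, QuotientGroup.ker_mk'] at h
    exact hzL h
  obtain ⟨q, hq, hcen⟩ := resid_center (K ⧸ L) ((QuotientGroup.mk' L) z) hz1 (by
    intro M hM hMbot
    by_contra h1
    apply hMbot
    have h2 : M.comap (QuotientGroup.mk' L) = L := by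
      apply hLmax
      · exact hM.comap _
      · intro x hx
        rw [Subgroup.mem_comap]
        have h3 : (QuotientGroup.mk' L) x = 1 := by
          rw [← MonoidHom.mem_ker, QuotientGroup.ker_mk']
          exact hx
        rw [h3]
        exact one_mem _
      · intro h3
        exact h1 (Subgroup.mem_comap.1 h3)
    rw [eq_bot_iff]
    intro y hy
    obtain ⟨x, rfl⟩ := QuotientGroup.mk'_surjective L y
    have h4 : x ∈ M.comap (QuotientGroup.mk' L) := Subgroup.mem_comap.2 hy
    rw [h2] at h4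
    rw [Subgroup.mem_bot, ← MonoidHom.mem_ker, QuotientGroup.ker_mk']
    exact h4)
  have hFG : Group.FG (K ⧸ L) := QuotientGroup.fg _
  have htor : ∀ x : K ⧸ L, ∃ e : ℕ, x ^ q ^ e = 1 := resid_tors q hq.pos (K ⧸ L) hFG hcen
  have hfin : Finite (K ⧸ L) := finite_of_fg_nilpotent_torsion (K ⧸ L) (by
    intro x
    obtain ⟨e, he⟩ := htor x
    exact isOfFinOrder_iff_pow_eq_one.2 ⟨q ^ e, pow_pos hq.pos e, he⟩)
  exact ⟨q, hq, K ⧸ L, inferInstance, hfin, htor, QuotientGroup.mk' L,
    QuotientGroup.mk'_surjective L, hz1⟩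


end Pool.Agent.Helper601.TE
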