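import Mathlib
import Pool.Agent.Helper601.TE.Defs
import Pool.Agent.Helper601.TE.Yresid

set_option autoImplicit false

namespace Pool.Agent.Helper601.TE


section aux078
variable {K : Type*} [Group K]

open scoped commutatorElement

theorem comm_pow078 {H : Type*} [Group H] (a b : H) (hc : ∀ y : H, ⁅a, b⁆ * y = y * ⁅a, b⁆) (n : ℕ) :
    ⁅a ^ n, b⁆ = ⁅a, b⁆ ^ n := by
  obtain ⟨c, hcdef⟩ : ∃ c, c = ⁅a, b⁆ := ⟨_, rfl⟩
  rw [← hcdef] at hc ⊢
  have h1 : a * b = c * (b * a) := by
    rw [hcdef, commutatorElement_def]; group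
  have h2 : a ^ n * b = c ^ n * (b * a ^ n) := by
    induction n with
    | zero => simp
    | succ n ih =>
      have hcn : ∀ y : H, c ^ n * y = y * c ^ n := by
        intro y
        have : Commute c y := hc y
        exact (this.pow_left n)
      calc a ^ (n + 1) * b = a ^ n * (a * b) := by rw [pow_succ, mul_assoc]
        _ = a ^ n * (c * (b * a)) := by rw [h1]
        _ = c * (a ^ n * b) * a := by
            rw [← mul_assoc (a ^ n) c, ← hc (a ^ n)]
            simp only [mul_assoc]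
        _ = c * (c ^ n * (b * a ^ n)) * a := by rw [ih]
        _ = c ^ (n + 1) * (b * a ^ (n + 1)) := by
            rw [pow_succ' c, pow_succ a]
            simp only [mul_assoc]
  rw [commutatorElement_def, h2]
  group

theorem step078 (e i : ℕ)
    (ih : ∀ x ∈ (⊤ : Subgroup K).lowerCentralSeries i,
      x ^ e ∈ (⊤ : Subgroup K).lowerCentralSeries (i + 1)) :
    ∀ x ∈ (⊤ : Subgroup K).lowerCentralSeries (i + 1),
      x ^ e ∈ (⊤ : Subgroup K).lowerCentralSeries (i + 2) := by
  obtain ⟨N, hN⟩ : ∃ N, N = (⊤ : Subgroup K).lowerCentralSeries (i + 2) := ⟨_, rfl⟩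
  have hNn : N.Normal := by rw [hN]; infer_instance
  rw [← hN]
  have hcomm : ∀ (j : ℕ) (x y : K), x ∈ (⊤ : Subgroup K).lowerCentralSeries j →
      ⁅x, y⁆ ∈ (⊤ : Subgroup K).lowerCentralSeries (j + 1) := by
    intro j x y hx
    rw [Subgroup.lowerCentralSeries_succ]
    exact Subgroup.commutator_mem_commutator hx (Subgroup.mem_top y)
  have hcen : ∀ x ∈ (⊤ : Subgroup K).lowerCentralSeries (i + 1), ∀ y : K ⧸ N,
      (x : K ⧸ N) * y = y * (x : K ⧸ N) := by
    intro x hx y
    obtain ⟨y, rfl⟩ := QuotientGroup.mk_surjective y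
    have h1 : ⁅x, y⁆ ∈ N := by rw [hN]; exact hcomm (i + 1) x y hx
    have h2 : ((⁅x, y⁆ : K) : K ⧸ N) = 1 := (QuotientGroup.eq_one_iff _).2 h1
    have h3 : ⁅(x : K ⧸ N), (y : K ⧸ N)⁆ = 1 := by
      rw [commutatorElement_def] at h2 ⊢
      exact h2
    exact commutatorElement_eq_one_iff_mul_comm.1 h3
  intro x hx
  rw [← QuotientGroup.eq_one_iff]
  rw [Subgroup.mem_lowerCentralSeries_succ_iff] at hx
  have hsub : ∀ z ∈ Subgroup.closure {x | ∃ p ∈ (⊤ : Subgroup K).lowerCentralSeries i,
      ∃ q ∈ (⊤ : Subgroup K), ⁅p, q⁆ = x}, z ∈ (⊤ : Subgroup K).lowerCentralSeries (i + 1) :=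
    fun z hz => (Subgroup.mem_lowerCentralSeries_succ_iff _ _ _).2 hz
  induction hx using Subgroup.closure_induction with
  | mem x hx =>
    obtain ⟨a, ha, b, -, rfl⟩ := hx
    have h1 : ((⁅a, b⁆ : K) : K ⧸ N) = ⁅(a : K ⧸ N), (b : K ⧸ N)⁆ := rfl
    have h2 := comm_pow078 (a : K ⧸ N) (b : K ⧸ N)
      (fun y => by rw [← h1]; exact hcen _ (hcomm i a b ha) y) e
    have h3 : ⁅(a : K ⧸ N) ^ e, (b : K ⧸ N)⁆ = 1 := by
      have h4 : ⁅a ^ e, b⁆ ∈ N := by rw [hN]; exact hcomm (i + 1) _ b (ih a ha)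
      have h5 : ((⁅a ^ e, b⁆ : K) : K ⧸ N) = 1 := (QuotientGroup.eq_one_iff _).2 h4
      exact h5
    show (((⁅a, b⁆ : K) ^ e : K) : K ⧸ N) = 1
    rw [QuotientGroup.mk_pow, h1, ← h2, h3]
  | one => rw [one_pow]; rfl
  | mul x y hx hy ihx ihy =>
    have h1 : Commute (x : K ⧸ N) (y : K ⧸ N) := hcen x (hsub x hx) y
    rw [QuotientGroup.mk_pow] at ihx ihy ⊢
    rw [QuotientGroup.mk_mul, h1.mul_pow, ihx, ihy, one_mul]
  | inv x hx ihx =>
    rw [QuotientGroup.mk_pow] at ihx ⊢
    rw [QuotientGroup.mk_inv, inv_pow, ihx, inv_one]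

theorem tors078 (e : ℕ)
    (h0 : ∀ x : K, x ^ e ∈ commutator K) (i : ℕ) :
    ∀ x ∈ (⊤ : Subgroup K).lowerCentralSeries i,
      x ^ e ∈ (⊤ : Subgroup K).lowerCentralSeries (i + 1) := by
  induction i with
  | zero =>
    intro x _
    rw [zero_add, Subgroup.top_lowerCentralSeries_one]
    exact h0 x
  | succ i ih => exact step078 e i ih

theorem pow078 (e : ℕ) (h0 : ∀ x : K, x ^ e ∈ commutator K) (i : ℕ) (x : K) :
    x ^ (e ^ i) ∈ (⊤ : Subgroup K).lowerCentralSeries i := by
  induction i with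
  | zero =>
    rw [Subgroup.lowerCentralSeries_zero]
    exact Subgroup.mem_top _
  | succ i ih =>
    rw [pow_succ, pow_mul]
    exact tors078 e h0 i _ ih

end aux078

theorem torsionfree_indicable (K : Type*) [Group K] [Group.FG K] [Group.IsNilpotent K]
    (htf : ∀ (x : K) (m : ℕ), 0 < m → x ^ m = 1 → x = 1) (hne : ∃ x : K, x ≠ 1) :
    ∃ φ : K →* Multiplicative ℤ, Function.Surjective φ := by
  have hsurj : Function.Surjective (Abelianization.of : K →* Abelianization K) :=
    QuotientGroup.mk_surjective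
  have hfg1 : Group.FG (Abelianization K) :=
    Group.fg_of_surjective (f := (Abelianization.of : K →* Abelianization K)) hsurj
  have hfg2 : AddGroup.FG (Additive (Abelianization K)) := inferInstance
  have hfin : Module.Finite ℤ (Additive (Abelianization K)) :=
    Module.Finite.iff_addGroup_fg.mpr hfg2
  obtain ⟨F, hF⟩ : ∃ F, F = Submodule.torsion ℤ (Additive (Abelianization K)) := ⟨_, rfl⟩
  let b := Module.Free.chooseBasis ℤ
    (Additive (Abelianization K) ⧸ Submodule.torsion ℤ (Additive (Abelianization K)))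
  rcases isEmpty_or_nonempty (Module.Free.ChooseBasisIndex ℤ
    (Additive (Abelianization K) ⧸ Submodule.torsion ℤ (Additive (Abelianization K)))) with hι | hι
  · exfalso
    have htor : Module.IsTorsion ℤ (Additive (Abelianization K)) := by
      intro v
      have h1 : (Submodule.mkQ (Submodule.torsion ℤ (Additive (Abelianization K)))) v = 0 :=
        b.repr.injective (Subsingleton.elim _ _)
      rw [Submodule.mkQ_apply, Submodule.Quotient.mk_eq_zero, Submodule.mem_torsion_iff] at h1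
      exact h1
    have hfinite : Finite (Additive (Abelianization K)) := Module.finite_of_fg_torsion _ htor
    obtain ⟨e, he⟩ : ∃ e, e = Nat.card (Additive (Abelianization K)) := ⟨_, rfl⟩
    have he0 : 0 < e := by rw [he]; exact Nat.card_pos
    have h0 : ∀ x : K, x ^ e ∈ commutator K := by
      intro x
      have h1 : e • (Additive.ofMul (Abelianization.of x)) = 0 := by
        rw [he]; exact card_nsmul_eq_zero'
      have h2 : Abelianization.of (x ^ e) = 1 := by
        rw [map_pow]
        exact h1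
      have h3 : x ^ e ∈ (Abelianization.of : K →* Abelianization K).ker := h2
      rwa [Abelianization.ker_of] at h3
    obtain ⟨x, hx⟩ := hne
    have hnil : ∃ c, (⊤ : Subgroup K).lowerCentralSeries c = ⊥ :=
      Subgroup.nilpotent_iff_lowerCentralSeries.1 inferInstance
    obtain ⟨c, hc⟩ := hnil
    have h1 := pow078 e h0 c x
    rw [hc, Subgroup.mem_bot] at h1
    exact hx (htf x (e ^ c) (pow_pos he0 c) h1)
  · obtain ⟨i⟩ := hι
    obtain ⟨ψ, hψ⟩ : ∃ ψ : Additive (Abelianization K) →ₗ[ℤ] ℤ, Function.Surjective ψ := by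
      refine ⟨(b.coord i).comp (Submodule.mkQ _), ?_⟩
      intro n
      obtain ⟨v, hv⟩ := Submodule.mkQ_surjective
        (Submodule.torsion ℤ (Additive (Abelianization K))) (n • b i)
      refine ⟨v, ?_⟩
      rw [LinearMap.comp_apply, hv, map_smul, Module.Basis.coord_apply, Module.Basis.repr_self,
        Finsupp.single_eq_same, smul_eq_mul, mul_one]
    refine ⟨{ toFun := fun x => Multiplicative.ofAdd (ψ (Additive.ofMul (Abelianization.of x)))
              map_one' := ?_
              map_mul' := ?_ }, ?_⟩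
    · rw [map_one, ofMul_one, map_zero, ofAdd_zero]
    · intro x y
      rw [map_mul, ofMul_mul, map_add, ofAdd_add]
    · intro n
      obtain ⟨v, hv⟩ := hψ (Multiplicative.toAdd n)
      obtain ⟨x, hx⟩ := hsurj (Additive.toMul v)
      refine ⟨x, ?_⟩
      show Multiplicative.ofAdd (ψ (Additive.ofMul (Abelianization.of x))) = n
      rw [hx, ofMul_toMul, hv, ofAdd_toAdd]


end Pool.Agent.Helper601.TE
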