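import Mathlib
import Pool.Agent.Helper601.TE.Defs
import Pool.Agent.Helper601.TE.Ybasic

set_option autoImplicit false

namespace Pool.Agent.Helper601.TE

universe u

/-- if all simple commutators with `j` commutations vanish, then `lcs j` is trivial -/
theorem lcs_bot_of_cw (j : ℕ) : ∀ (G : Type u) [Group G],
    (∀ (x : G) (l : List G), l.length = j → cw x l = 1) →
    (⊤ : Subgroup G).lowerCentralSeries j = ⊥ := by
  induction j with
  | zero =>
    intro G _ h
    rw [Subgroup.lowerCentralSeries_zero, eq_bot_iff]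
    intro x _
    have := h x [] rfl
    rw [Subgroup.mem_bot]
    exact this
  | succ j ih =>
    intro G _ h
    have h1 : ∀ (x : G) (l : List G), l.length = j → cw x l ∈ Subgroup.center G := by
      intro x l hl
      rw [Subgroup.mem_center_iff]
      intro g
      have := h x (l ++ [g]) (by simp [hl])
      have e : cw x (l ++ [g]) = (cw x l)⁻¹ * g⁻¹ * cw x l * g := by
        simp [cw, List.foldl_append]
      rw [e] at this
      have h2 : (cw x l)⁻¹ * g⁻¹ * cw x l * g = 1 := this
      have h3 : cw x l * g = g * cw x l := by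
        calc cw x l * g = g * cw x l * ((cw x l)⁻¹ * g⁻¹ * cw x l * g) := by group
          _ = g * cw x l := by rw [h2, mul_one]
      exact h3.symm
    have h2 := ih (G ⧸ Subgroup.center G) (by
      intro x l hl
      induction x using QuotientGroup.induction_on with
      | H x =>
        obtain ⟨l', rfl⟩ : ∃ l' : List G, l'.map (QuotientGroup.mk' (Subgroup.center G)) = l := by
          refine ⟨l.map Quotient.out, ?_⟩
          rw [List.map_map]
          conv_rhs => rw [← List.map_id l]
          apply List.map_congr_left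
          intro a _
          exact Quotient.out_eq' a
        rw [← QuotientGroup.mk'_apply, ← cw_map, QuotientGroup.mk'_apply,
          QuotientGroup.eq_one_iff]
        exact h1 x l' (by simpa using hl))
    have h3 : (⊤ : Subgroup G).lowerCentralSeries j ≤ Subgroup.center G := by
      have h4 : ((⊤ : Subgroup G).lowerCentralSeries j).map (QuotientGroup.mk' (Subgroup.center G))
          ≤ (⊤ : Subgroup (G ⧸ Subgroup.center G)).lowerCentralSeries j := by
        clear h h1 h2 ih
        induction j with
        | zero => simp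
        | succ j ih2 =>
          rw [Subgroup.lowerCentralSeries_succ, Subgroup.lowerCentralSeries_succ,
            Subgroup.map_commutator]
          exact Subgroup.commutator_mono ih2 le_top
      rw [h2, le_bot_iff, Subgroup.map_eq_bot_iff, QuotientGroup.ker_mk'] at h4
      exact h4
    rw [Subgroup.lowerCentralSeries_succ, Subgroup.commutator_eq_bot_iff_le_centralizer]
    intro x hx
    rw [Subgroup.mem_centralizer_iff]
    intro g _
    exact (Subgroup.mem_center_iff.1 (h3 hx)) g


theorem LC_top {G : Type*} [Group G] (j : ℕ) :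
    LC (⊤ : Subgroup G) j = (⊤ : Subgroup G).lowerCentralSeries j := by
  induction j with
  | zero => rw [Subgroup.lowerCentralSeries_zero]; rfl
  | succ j ih => rw [Subgroup.lowerCentralSeries_succ, ← ih]; rfl

theorem cw_mem_lcs {G : Type*} [Group G] (x : G) (l : List G) :
    cw x l ∈ (⊤ : Subgroup G).lowerCentralSeries l.length := by
  rw [← LC_top]
  exact cw_mem_LC inferInstance (Subgroup.mem_top x) l

/-- elements of the product that are eventually `1` -/
def Ev (G : ℕ → Type) [∀ i, Group (G i)] : Subgroup (∀ i, G i) where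
  carrier := {f | ∃ i0, ∀ i, i0 ≤ i → f i = 1}
  one_mem' := ⟨0, fun _ _ => rfl⟩
  mul_mem' := by
    rintro a b ⟨i, hi⟩ ⟨j, hj⟩
    refine ⟨max i j, fun k hk => ?_⟩
    rw [Pi.mul_apply, hi k (le_trans (le_max_left _ _) hk), hj k (le_trans (le_max_right _ _) hk),
      one_mul]
  inv_mem' := by
    rintro a ⟨i, hi⟩
    exact ⟨i, fun k hk => by rw [Pi.inv_apply, hi k hk, inv_one]⟩

theorem mem_Ev {G : ℕ → Type} [∀ i, Group (G i)] {f : ∀ i, G i} :
    f ∈ Ev G ↔ ∃ i0, ∀ i, i0 ≤ i → f i = 1 := Iff.rfl

instance Ev_normal (G : ℕ → Type) [∀ i, Group (G i)] : (Ev G).Normal := by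
  refine ⟨?_⟩
  rintro f ⟨i0, h⟩ g
  refine ⟨i0, fun i hi => ?_⟩
  rw [Pi.mul_apply, Pi.mul_apply, h i hi, mul_one, Pi.inv_apply, mul_inv_cancel]

theorem large_prime_class (n c : ℕ)
    (hc : ∀ (G : Type) [Group G] [Group.IsNilpotent G], Eng n G →
      (∀ (x : G) (m : ℕ), 0 < m → x ^ m = 1 → x = 1) →
      (⊤ : Subgroup G).lowerCentralSeries c = ⊥) :
    ∃ Q0 : ℕ, ∀ q : ℕ, q.Prime → Q0 < q → ∀ (G : Type) [Group G] [Finite G],
      IsPGroup q G → Eng n G → (⊤ : Subgroup G).lowerCentralSeries c = ⊥ := by
  by_contra hcon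
  push Not at hcon
  -- pass to quotients of class exactly `c + 1`
  have hstep : ∀ i : ℕ, ∃ (q : ℕ) (G : Type) (_ : Group G), q.Prime ∧ i < q ∧ IsPGroup q G ∧
      Eng n G ∧ (⊤ : Subgroup G).lowerCentralSeries (c + 1) = ⊥ ∧
      ∃ (x : G) (l : List G), l.length = c ∧ cw x l ≠ 1 := by
    intro i
    obtain ⟨q, hq, hiq, G, iG, iF, hp, hE, hne⟩ := hcon i
    let L := (⊤ : Subgroup G).lowerCentralSeries (c + 1)
    have hLn : L.Normal := inferInstance
    have hmap : ∀ j, ((⊤ : Subgroup G).lowerCentralSeries j).map (QuotientGroup.mk' L) =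
        (⊤ : Subgroup (G ⧸ L)).lowerCentralSeries j := by
      intro j
      rw [← LC_top, ← LC_top, LC_map _ (QuotientGroup.mk'_surjective L),
        Subgroup.map_top_of_surjective _ (QuotientGroup.mk'_surjective L)]
    refine ⟨q, G ⧸ L, inferInstance, hq, hiq, hp.to_quotient L,
      hE.of_surj (QuotientGroup.mk' L) (QuotientGroup.mk'_surjective L), ?_, ?_⟩
    · rw [← hmap, Subgroup.map_eq_bot_iff, QuotientGroup.ker_mk']
    · by_contra hall
      push Not at hall
      have h1 := lcs_bot_of_cw c (G ⧸ L) hall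
      rw [← hmap, Subgroup.map_eq_bot_iff, QuotientGroup.ker_mk'] at h1
      have h2 : ∀ j, (⊤ : Subgroup G).lowerCentralSeries c ≤
          (⊤ : Subgroup G).lowerCentralSeries (c + j) := by
        intro j
        induction j with
        | zero => exact le_rfl
        | succ j ih =>
          refine h1.trans ?_
          show (⊤ : Subgroup G).lowerCentralSeries (c + 1) ≤ _
          rw [Subgroup.lowerCentralSeries_succ, ← add_assoc, Subgroup.lowerCentralSeries_succ]
          exact Subgroup.commutator_mono ih le_rfl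
      haveI := Fact.mk hq
      have hnil : Group.IsNilpotent G := hp.isNilpotent
      obtain ⟨N, hN⟩ := (Subgroup.nilpotent_iff_lowerCentralSeries (G := G)).1 hnil
      apply hne
      rw [eq_bot_iff]
      refine (h2 N).trans ?_
      rw [← hN]
      rw [← LC_top, ← LC_top]
      exact LC_anti _ inferInstance (by omega)
  choose q G iG hq hiq hp hE hb x l hl hx using hstep
  let H := (∀ i, G i) ⧸ Ev G
  have hprod : (⊤ : Subgroup (∀ i, G i)).lowerCentralSeries (c + 1) = ⊥ := by
    apply lcs_bot_of_cw
    intro y l' hl'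
    funext i
    have h1 : (cw y l') i = Pi.evalMonoidHom G i (cw y l') := rfl
    rw [h1, cw_map]
    have h2 := cw_mem_lcs (Pi.evalMonoidHom G i y) (l'.map (Pi.evalMonoidHom G i))
    rw [List.length_map, hl', hb, Subgroup.mem_bot] at h2
    exact h2
  have hprodnil : Group.IsNilpotent (∀ i, G i) :=
    (Subgroup.nilpotent_iff_lowerCentralSeries (G := ∀ i, G i)).2 ⟨c + 1, hprod⟩
  have hHnil : Group.IsNilpotent H := inferInstance
  have hEprod : Eng n (∀ i, G i) := by
    intro y z
    funext i
    have key : ∀ k : ℕ, ((fun w : (∀ i, G i) => w⁻¹ * y⁻¹ * w * y)^[k] z) i =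
        (fun w : G i => w⁻¹ * (y i)⁻¹ * w * y i)^[k] (z i) := by
      intro k
      induction k with
      | zero => rfl
      | succ k ih =>
        rw [Function.iterate_succ_apply', Function.iterate_succ_apply', ← ih]
        rfl
    rw [key, hE i (y i) (z i)]
    rfl
  have hEH : Eng n H := hEprod.of_surj (QuotientGroup.mk' (Ev G)) (QuotientGroup.mk'_surjective _)
  have htf : ∀ (y : H) (m : ℕ), 0 < m → y ^ m = 1 → y = 1 := by
    intro y m hm hy
    induction y using QuotientGroup.induction_on with
    | H y =>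
      rw [← QuotientGroup.mk_pow, QuotientGroup.eq_one_iff] at hy
      rw [QuotientGroup.eq_one_iff]
      obtain ⟨i0, h0⟩ := mem_Ev.1 hy
      refine mem_Ev.2 ⟨max i0 m, fun i hi => ?_⟩
      have h1 : (y i) ^ m = 1 := h0 i (le_trans (le_max_left _ _) hi)
      obtain ⟨k, hk⟩ := hp i (y i)
      have h2 : orderOf (y i) ∣ m := orderOf_dvd_of_pow_eq_one h1
      have h3 : orderOf (y i) ∣ q i ^ k := orderOf_dvd_of_pow_eq_one hk
      have h4 : Nat.Coprime m (q i ^ k) := by
        apply Nat.Coprime.pow_right
        apply Nat.Coprime.symm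
        rw [Nat.Prime.coprime_iff_not_dvd (hq i)]
        intro hdvd
        have := Nat.le_of_dvd hm hdvd
        have := hiq i
        have := le_trans (le_max_right i0 m) hi
        omega
      have h5 : orderOf (y i) ∣ 1 := by
        rw [← h4]
        exact Nat.dvd_gcd h2 h3
      exact orderOf_eq_one_iff.1 (Nat.dvd_one.1 h5)
  have hcH := hc H hEH htf
  let X : ∀ i, G i := x
  let L : List (∀ i, G i) := List.ofFn (fun (j : Fin c) => fun i => (l i).get (j.cast (hl i).symm))
  have hL : L.length = c := by simp [L]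
  have h1 : QuotientGroup.mk' (Ev G) (cw X L) = 1 := by
    rw [cw_map]
    have h2 := cw_mem_lcs (QuotientGroup.mk' (Ev G) X) (L.map (QuotientGroup.mk' (Ev G)))
    rw [List.length_map, hL, hcH, Subgroup.mem_bot] at h2
    exact h2
  rw [QuotientGroup.mk'_apply, QuotientGroup.eq_one_iff] at h1
  obtain ⟨i0, h0⟩ := mem_Ev.1 h1
  have h2 := h0 i0 le_rfl
  have h3 : (cw X L) i0 = cw (x i0) (l i0) := by
    have h4 : (cw X L) i0 = Pi.evalMonoidHom G i0 (cw X L) := rfl
    rw [h4, cw_map]
    congr 1
    apply List.ext_getElem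
    · rw [List.length_map, hL, hl]
    · intro j h5 h6
      simp [L]
  rw [h3] at h2
  exact hx i0 h2

end Pool.Agent.Helper601.TE
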