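import Mathlib
import Pool.Agent.Helper601.TE.Defs

set_option autoImplicit false

namespace Pool.Agent.Helper601.TE


theorem lemD_group (n m D : ℕ)
    (hD : ∀ (S : Type) [Ring S] (G : Type) [Group G] (ρ : G →* S), (∀ g, (ρ g - 1) ^ n = 0) →
      ∀ l : List G, l.length = m → (D : S) * (l.map (fun g => ρ g - 1)).prod = 0) :
    ∀ (G : Type) [Group G], Eng n G → ∀ A : Subgroup G, A.Normal →
      (∀ a ∈ A, ∀ b ∈ A, a * b = b * a) → ∀ a ∈ A, ∀ l : List G, l.length = m →
        (cw a l) ^ D = 1 := by
  intro G _ hE A hN hA a ha l hl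
  letI cg : CommGroup A :=
    { (inferInstance : Group A) with mul_comm := fun a b => Subtype.ext (hA a a.2 b b.2) }
  let ρ0 : G → AddMonoid.End (Additive A) := fun g =>
    { toFun := fun z => Additive.ofMul (⟨g * ((Additive.toMul z : A) : G) * g⁻¹,
        hN.conj_mem _ (Additive.toMul z : A).2 g⟩ : A)
      map_zero' := by
        apply Additive.toMul.injective
        apply Subtype.ext
        show g * (1 : G) * g⁻¹ = 1
        simp
      map_add' := by
        intro x y
        apply Additive.toMul.injective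
        apply Subtype.ext
        show g * (((Additive.toMul x : A) : G) * ((Additive.toMul y : A) : G)) * g⁻¹ =
          (g * ((Additive.toMul x : A) : G) * g⁻¹) * (g * ((Additive.toMul y : A) : G) * g⁻¹)
        group }
  let ρ : G →* AddMonoid.End (Additive A) :=
    { toFun := ρ0
      map_one' := by
        refine DFunLike.ext _ _ fun z => Additive.toMul.injective (Subtype.ext ?_)
        show (1 : G) * ((Additive.toMul z : A) : G) * (1 : G)⁻¹ = ((Additive.toMul z : A) : G)
        simp
      map_mul' := by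
        intro g h
        refine DFunLike.ext _ _ fun z => Additive.toMul.injective (Subtype.ext ?_)
        show (g * h) * ((Additive.toMul z : A) : G) * (g * h)⁻¹ =
          g * (h * ((Additive.toMul z : A) : G) * h⁻¹) * g⁻¹
        group }
  have key : ∀ (x : G) (z : Additive A), ((Additive.toMul ((ρ x⁻¹ - 1) z) : A) : G) =
      ((Additive.toMul z : A) : G)⁻¹ * x⁻¹ * ((Additive.toMul z : A) : G) * x := by
    intro x z
    have h1 : ((Additive.toMul ((ρ x⁻¹ - 1) z) : A) : G) =
        (x⁻¹ * ((Additive.toMul z : A) : G) * x⁻¹⁻¹) * ((Additive.toMul z : A) : G)⁻¹ := by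
      have h2 : (ρ x⁻¹ - 1) z = ρ x⁻¹ z - z := rfl
      rw [h2, sub_eq_add_neg]
      rfl
    rw [h1, inv_inv]
    have h3 : x⁻¹ * ((Additive.toMul z : A) : G) * x ∈ A := by
      have := hN.conj_mem _ (Additive.toMul z : A).2 x⁻¹
      rwa [inv_inv] at this
    rw [hA _ h3 _ (A.inv_mem (Additive.toMul z : A).2)]
    group
  have keyn : ∀ (x : G) (k : ℕ) (z : Additive A), ((Additive.toMul (((ρ x⁻¹ - 1) ^ k) z) : A) : G) =
      (fun z : G => z⁻¹ * x⁻¹ * z * x)^[k] ((Additive.toMul z : A) : G) := by
    intro x k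
    induction k with
    | zero => intro z; rfl
    | succ k ih =>
      intro z
      rw [pow_succ, Function.iterate_succ_apply, ← key x z]
      exact ih ((ρ x⁻¹ - 1) z)
  have hnil : ∀ g, (ρ g - 1) ^ n = 0 := by
    intro g
    refine DFunLike.ext _ _ fun z => Additive.toMul.injective (Subtype.ext ?_)
    have h1 := keyn g⁻¹ n z
    rw [inv_inv] at h1
    rw [h1]
    have h2 := hE g⁻¹ ((Additive.toMul z : A) : G)
    rw [inv_inv] at h2
    rw [h2]
    rfl
  have hcw : ∀ (l : List G) (z : Additive A), cw ((Additive.toMul z : A) : G) l =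
      ((Additive.toMul ((((l.map (fun g => g⁻¹)).reverse).map (fun g => ρ g - 1)).prod z) : A) : G) := by
    intro l
    induction l with
    | nil => intro z; rfl
    | cons g l ih =>
      intro z
      have h1 : cw ((Additive.toMul z : A) : G) (g :: l) =
          cw ((Additive.toMul ((ρ g⁻¹ - 1) z) : A) : G) l := by
        rw [key g z]
        rfl
      rw [h1, ih]
      simp only [List.map_cons, List.reverse_cons, List.map_append, List.prod_append, List.map_nil,
        List.prod_singleton]
      rfl
  have h1 := hD (AddMonoid.End (Additive A)) G ρ hnil ((l.map (fun g => g⁻¹)).reverse)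
    (by rw [List.length_reverse, List.length_map, hl])
  have h2 := hcw l (Additive.ofMul (⟨a, ha⟩ : A))
  have h3 : cw a l = cw ((Additive.toMul (Additive.ofMul (⟨a, ha⟩ : A)) : A) : G) l := rfl
  rw [h3, h2]
  set P := (((l.map (fun g => g⁻¹)).reverse).map (fun g => ρ g - 1)).prod with hP
  have h4 : ((D : AddMonoid.End (Additive A)) * P) (Additive.ofMul (⟨a, ha⟩ : A)) = 0 := by
    rw [h1]; rfl
  have h5 : D • (P (Additive.ofMul (⟨a, ha⟩ : A))) = 0 := by
    have h6 : ((D : AddMonoid.End (Additive A)) * P) (Additive.ofMul (⟨a, ha⟩ : A)) =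
      (D : AddMonoid.End (Additive A)) (P (Additive.ofMul (⟨a, ha⟩ : A))) := rfl
    rw [h6, AddMonoid.End.natCast_apply] at h4
    exact h4
  have h7 : (Additive.toMul (P (Additive.ofMul (⟨a, ha⟩ : A))) : A) ^ D = 1 := h5
  have h8 := congrArg (fun z : A => (z : G)) h7
  simpa using h8


end Pool.Agent.Helper601.TE
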