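import Mathlib
import Pool.Agent.Helper601.TE.Defs
import Pool.Agent.Helper601.TE.Ybasic

set_option autoImplicit false

namespace Pool.Agent.Helper601.TE


/-- the verbal subgroup of all laws -/
def j19350_U (N c : ℕ) : Subgroup (FreeGroup (Fin c)) where
  carrier := {v | ∀ (K : Type) [Group K] (f : FreeGroup (Fin c) →* K), Eng N K →
        (⊤ : Subgroup K).lowerCentralSeries c = ⊥ → f v = 1}
  mul_mem' := by
    intro a b ha hb K _ f h1 h2
    rw [map_mul, ha K f h1 h2, hb K f h1 h2, one_mul]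
  one_mem' := by
    intro K _ f _ _
    exact map_one f
  inv_mem' := by
    intro a ha K _ f h1 h2
    rw [map_inv, ha K f h1 h2, inv_one]

lemma j19350_mem (N c : ℕ) (v : FreeGroup (Fin c)) : v ∈ j19350_U N c ↔
    ∀ (K : Type) [Group K] (f : FreeGroup (Fin c) →* K), Eng N K →
        (⊤ : Subgroup K).lowerCentralSeries c = ⊥ → f v = 1 := Iff.rfl

instance j19350_normal (N c : ℕ) : (j19350_U N c).Normal := by
  constructor
  intro v hv g
  rw [j19350_mem] at hv ⊢
  intro K _ f h1 h2
  rw [map_mul, map_mul, hv K f h1 h2, mul_one, map_inv, mul_inv_cancel]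

lemma j19350_iter {G K : Type*} [Group G] [Group K] (f : G →* K) (x : G) (n : ℕ) :
    ∀ y : G, f ((fun z : G => z⁻¹ * x⁻¹ * z * x)^[n] y) =
      (fun z : K => z⁻¹ * (f x)⁻¹ * z * f x)^[n] (f y) := by
  induction n with
  | zero => intro y; rfl
  | succ n ih =>
    intro y
    rw [Function.iterate_succ_apply, Function.iterate_succ_apply, ih]
    simp only [map_mul, map_inv]

theorem exists_V (N c : ℕ) : ∃ (V : Type) (_ : Group V) (_ : Group.FG V)
    (_ : Group.IsNilpotent V) (π : FreeGroup (Fin c) →* V), Eng N V ∧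
      ∀ (K : Type) [Group K] (f : FreeGroup (Fin c) →* K), Eng N K →
        (⊤ : Subgroup K).lowerCentralSeries c = ⊥ → ∀ v, π v = 1 → f v = 1 := by
  refine ⟨FreeGroup (Fin c) ⧸ j19350_U N c, inferInstance, inferInstance, ?_,
    QuotientGroup.mk' (j19350_U N c), ?_, ?_⟩
  · rw [Subgroup.nilpotent_iff_lowerCentralSeries]
    refine ⟨c, ?_⟩
    have hs := QuotientGroup.mk'_surjective (j19350_U N c)
    have h1 : (⊤ : Subgroup (FreeGroup (Fin c) ⧸ j19350_U N c)).lowerCentralSeries c =
        ((⊤ : Subgroup (FreeGroup (Fin c))).lowerCentralSeries c).map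
          (QuotientGroup.mk' (j19350_U N c)) := by
      rw [Subgroup.map_lowerCentralSeries, Subgroup.map_top_of_surjective _ hs]
    rw [h1, eq_bot_iff]
    rintro _ ⟨v, hv, rfl⟩
    rw [Subgroup.mem_bot, QuotientGroup.mk'_apply, QuotientGroup.eq_one_iff, j19350_mem]
    intro K _ f _ h2
    have h3 : f v ∈ ((⊤ : Subgroup (FreeGroup (Fin c))).lowerCentralSeries c).map f :=
      Subgroup.mem_map_of_mem f hv
    rw [Subgroup.map_lowerCentralSeries] at h3
    have h4 := Subgroup.lowerCentralSeries_mono c (le_top : Subgroup.map f ⊤ ≤ ⊤) h3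
    simp only [h2] at h4
    exact Subgroup.mem_bot.mp h4
  · intro x y
    obtain ⟨a, rfl⟩ := QuotientGroup.mk'_surjective (j19350_U N c) x
    obtain ⟨b, rfl⟩ := QuotientGroup.mk'_surjective (j19350_U N c) y
    rw [← j19350_iter, QuotientGroup.mk'_apply, QuotientGroup.eq_one_iff, j19350_mem]
    intro K _ f h1 _
    rw [j19350_iter]
    exact h1 (f a) (f b)
  · intro K _ f h1 h2 v hv
    rw [QuotientGroup.mk'_apply, QuotientGroup.eq_one_iff, j19350_mem] at hv
    exact hv K f h1 h2


end Pool.Agent.Helper601.TE
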