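import Mathlib
import Pool.Agent.Helper601.TE.Defs

set_option autoImplicit false

namespace Pool.Agent.Helper601.TE


/-- kill the letter `j` -/
def del {ι : Type} [DecidableEq ι] (j : ι) : FreeGroup ι →* FreeGroup ι :=
  FreeGroup.lift (fun i => if i = j then 1 else FreeGroup.of i)

open scoped commutatorElement

theorem del_of {ι : Type} [DecidableEq ι] (j i : ι) :
    del j (FreeGroup.of i) = if i = j then 1 else FreeGroup.of i := by
  simp [del]

theorem del_comm {ι : Type} [DecidableEq ι] (i j : ι) (w : FreeGroup ι) :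
    del i (del j w) = del j (del i w) := by
  have : (del i).comp (del j) = (del j).comp (del i) := by
    apply FreeGroup.ext_hom
    intro a
    simp only [MonoidHom.comp_apply, del_of]
    by_cases h1 : a = i <;> by_cases h2 : a = j
    · rw [if_pos h2, if_pos h1, map_one, map_one]
    · simp only [h1, if_true, map_one]
      subst h1
      simp [h2, del_of]
    · simp only [h2, if_true, map_one]
      subst h2
      simp [h1, del_of]
    · simp [h1, h2, del_of]
  exact DFunLike.congr_fun this w

theorem del_idem {ι : Type} [DecidableEq ι] (j : ι) (w : FreeGroup ι) :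
    del j (del j w) = del j w := by
  have : (del j).comp (del j) = del j := by
    apply FreeGroup.ext_hom
    intro a
    simp only [MonoidHom.comp_apply, del_of]
    by_cases h1 : a = j
    · simp [h1]
    · simp [h1, del_of]
  exact DFunLike.congr_fun this w

abbrev gam (ι : Type) (r : ℕ) : Subgroup (FreeGroup ι) :=
  (⊤ : Subgroup (FreeGroup ι)).lowerCentralSeries r

def FS {ι : Type} (S : Finset ι) : Subgroup (FreeGroup ι) :=
  Subgroup.closure (FreeGroup.of '' (S : Set ι))

theorem del_FS_self {ι : Type} [DecidableEq ι] (S : Finset ι) (j : ι) (hj : j ∉ S)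
    (c : FreeGroup ι) (hc : c ∈ FS S) : del j c = c := by
  unfold FS at hc
  induction hc using Subgroup.closure_induction with
  | mem x hx =>
    obtain ⟨i, hi, rfl⟩ := hx
    rw [del_of, if_neg]
    rintro rfl
    exact hj (by simpa using hi)
  | one => simp
  | mul x y _ _ hx hy => rw [map_mul, hx, hy]
  | inv x _ hx => rw [map_inv, hx]

theorem del_FS {ι : Type} [DecidableEq ι] (S : Finset ι) (j : ι)
    (c : FreeGroup ι) (hc : c ∈ FS S) : del j c ∈ FS S := by
  unfold FS at hc
  induction hc using Subgroup.closure_induction with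
  | mem x hx =>
    obtain ⟨i, hi, rfl⟩ := hx
    rw [del_of]
    split_ifs
    · exact Subgroup.one_mem _
    · exact Subgroup.subset_closure ⟨i, hi, rfl⟩
  | one => simp [Subgroup.one_mem]
  | mul x y _ _ hx hy => rw [map_mul]; exact Subgroup.mul_mem _ hx hy
  | inv x _ hx => rw [map_inv]; exact Subgroup.inv_mem _ hx

theorem del_gam {ι : Type} [DecidableEq ι] (j : ι) (r : ℕ) (c : FreeGroup ι)
    (hc : c ∈ gam ι r) : del j c ∈ gam ι r := by
  have h1 : del j c ∈ (gam ι r).map (del j) := Subgroup.mem_map_of_mem _ hc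
  rw [Subgroup.map_lowerCentralSeries] at h1
  exact Subgroup.lowerCentralSeries_mono r le_top h1

/-- the subgroup of elements supported on sets containing `J` -/
def NN {ι : Type} (r : ℕ) (J : Finset ι) : Subgroup (FreeGroup ι) :=
  Subgroup.closure ({c | c ∈ gam ι r ∧ ∃ S : Finset ι, J ⊆ S ∧ S.card ≤ r + 1 ∧ c ∈ FS S} ∪
    (gam ι (r + 1) : Set (FreeGroup ι)))

theorem gam_le_NN {ι : Type} (r : ℕ) (J : Finset ι) : gam ι (r + 1) ≤ NN r J :=
  fun _ hx => Subgroup.subset_closure (Or.inr hx)

theorem NN_le_gam {ι : Type} (r : ℕ) (J : Finset ι) : NN r J ≤ gam ι r := by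
  unfold NN
  rw [Subgroup.closure_le]
  rintro x (hx | hx)
  · exact hx.1
  · exact Subgroup.lowerCentralSeries_antitone _ (Nat.le_succ r) hx

theorem NN_conj {ι : Type} (r : ℕ) (J : Finset ι) (x g : FreeGroup ι) (hx : x ∈ NN r J) :
    g * x * g⁻¹ ∈ NN r J := by
  have h1 : ⁅x, g⁆ ∈ gam ι (r + 1) :=
    Subgroup.commutator_mem_commutator (NN_le_gam r J hx) (Subgroup.mem_top g)
  have h2 : g * x * g⁻¹ = (⁅x, g⁆)⁻¹ * x := by
    rw [commutatorElement_def]; group
  rw [h2]
  exact Subgroup.mul_mem _ (Subgroup.inv_mem _ (gam_le_NN r J h1)) hx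

theorem gam_le_NN_empty {ι : Type} (r : ℕ) : gam ι r ≤ NN r ∅ := by
  induction r with
  | zero =>
    intro x _
    have hx : x ∈ Subgroup.closure (Set.range (FreeGroup.of : ι → FreeGroup ι)) := by
      rw [FreeGroup.closure_range_of]; exact Subgroup.mem_top x
    refine (Subgroup.closure_le _).2 ?_ hx
    rintro _ ⟨i, rfl⟩
    refine Subgroup.subset_closure (Or.inl ⟨Subgroup.mem_top _, {i}, Finset.empty_subset _, by simp, ?_⟩)
    exact Subgroup.subset_closure ⟨i, by simp, rfl⟩
  | succ r ih =>
    have key : ∀ u ∈ gam ι r, ∀ g : FreeGroup ι, ⁅u, g⁆ ∈ NN (r + 1) (∅ : Finset ι) := by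
      intro u hu
      have hu' := ih hu
      unfold NN at hu'
      induction hu' using Subgroup.closure_induction with
      | mem u hx =>
        rcases hx with ⟨hu1, S, -, hS, hcS⟩ | hx
        · intro g
          have hg : g ∈ Subgroup.closure (Set.range (FreeGroup.of : ι → FreeGroup ι)) := by
            rw [FreeGroup.closure_range_of]; exact Subgroup.mem_top g
          classical
          induction hg using Subgroup.closure_induction with
          | mem x hx =>
            obtain ⟨i, rfl⟩ := hx
            refine Subgroup.subset_closure (Or.inl ⟨?_, insert i S, Finset.empty_subset _, ?_, ?_⟩)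
            · exact Subgroup.commutator_mem_commutator hu1 (Subgroup.mem_top _)
            · exact (Finset.card_insert_le _ _).trans (by omega)
            · have h1 : u ∈ FS (insert i S) := by
                refine Subgroup.closure_mono ?_ hcS
                apply Set.image_mono
                intro a ha
                simp only [Finset.coe_insert, Set.mem_insert_iff]
                exact Or.inr ha
              have h2 : FreeGroup.of i ∈ FS (insert i S) :=
                Subgroup.subset_closure ⟨i, by simp, rfl⟩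
              rw [commutatorElement_def]
              exact Subgroup.mul_mem _ (Subgroup.mul_mem _ (Subgroup.mul_mem _ h1 h2)
                (Subgroup.inv_mem _ h1)) (Subgroup.inv_mem _ h2)
          | one => rw [commutatorElement_one_right]; exact Subgroup.one_mem _
          | mul x y _ _ hx hy =>
            have h2 : ⁅u, x * y⁆ = ⁅u, x⁆ * (x * ⁅u, y⁆ * x⁻¹) := by
              simp only [commutatorElement_def]; group
            rw [h2]
            exact Subgroup.mul_mem _ hx (NN_conj _ _ _ _ hy)
          | inv x _ hx =>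
            have h2 : ⁅u, x⁻¹⁆ = x⁻¹ * (⁅u, x⁆)⁻¹ * (x⁻¹)⁻¹ := by
              simp only [commutatorElement_def]; group
            rw [h2]
            exact NN_conj _ _ _ _ (Subgroup.inv_mem _ hx)
        · intro g
          exact gam_le_NN _ _ (Subgroup.commutator_mem_commutator hx (Subgroup.mem_top _))
      | one => intro g; rw [commutatorElement_one_left]; exact Subgroup.one_mem _
      | mul x y hx1 hy1 hx hy =>
        intro g
        have h2 : ⁅x * y, g⁆ = (x * ⁅y, g⁆ * x⁻¹) * ⁅x, g⁆ := by
          simp only [commutatorElement_def]; group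
        rw [h2]
        exact Subgroup.mul_mem _ (NN_conj _ _ _ _ (hy (NN_le_gam r ∅ hy1) g))
          (hx (NN_le_gam r ∅ hx1) g)
      | inv x hx1 hx =>
        intro g
        have h2 : ⁅x⁻¹, g⁆ = x⁻¹ * (⁅x, g⁆)⁻¹ * (x⁻¹)⁻¹ := by
          simp only [commutatorElement_def]; group
        rw [h2]
        exact NN_conj _ _ _ _ (Subgroup.inv_mem _ (hx (NN_le_gam r ∅ hx1) g))
    change ⁅gam ι r, (⊤ : Subgroup (FreeGroup ι))⁆ ≤ _
    rw [Subgroup.commutator_le]
    intro u hu g _
    exact key u hu g

theorem NN_delta {ι : Type} [DecidableEq ι] (r : ℕ) (J : Finset ι) (j : ι)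
    (u : FreeGroup ι) (hu : u ∈ NN r J) : u * (del j u)⁻¹ ∈ NN r (insert j J) := by
  have hu' := hu
  unfold NN at hu'
  induction hu' using Subgroup.closure_induction with
  | mem u hx =>
    rcases hx with ⟨hu1, S, hJS, hS, hcS⟩ | hx
    · by_cases hj : j ∈ S
      · refine Subgroup.subset_closure (Or.inl ⟨?_, S, ?_, hS, ?_⟩)
        · exact Subgroup.mul_mem _ hu1 (Subgroup.inv_mem _ (del_gam j r u hu1))
        · exact Finset.insert_subset hj hJS
        · exact Subgroup.mul_mem _ hcS (Subgroup.inv_mem _ (del_FS S j u hcS))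
      · rw [del_FS_self S j hj u hcS, mul_inv_cancel]
        exact Subgroup.one_mem _
    · exact gam_le_NN _ _ (Subgroup.mul_mem _ hx (Subgroup.inv_mem _ (del_gam j _ u hx)))
  | one => simp [Subgroup.one_mem]
  | mul x y hx1 hy1 hx hy =>
    have h2 : x * y * (del j (x * y))⁻¹ =
        (x * (y * (del j y)⁻¹) * x⁻¹) * (x * (del j x)⁻¹) := by
      rw [map_mul]; group
    rw [h2]
    exact Subgroup.mul_mem _ (NN_conj _ _ _ _ (hy hy1)) (hx hx1)
  | inv x hx1 hx =>
    have h2 : x⁻¹ * (del j x⁻¹)⁻¹ = x⁻¹ * (x * (del j x)⁻¹)⁻¹ * (x⁻¹)⁻¹ := by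
      rw [map_inv]; group
    rw [h2]
    exact NN_conj _ _ _ _ (Subgroup.inv_mem _ (hx hx1))

theorem mem_NN_of_del {ι : Type} [DecidableEq ι] (r : ℕ) (w : FreeGroup ι)
    (hw0 : w ∈ gam ι r) (J : Finset ι) (hw : ∀ j ∈ J, del j w = 1) : w ∈ NN r J := by
  induction J using Finset.induction_on with
  | empty => exact gam_le_NN_empty r hw0
  | insert j J hj ih =>
    have h1 := ih (fun i hi => hw i (Finset.mem_insert_of_mem hi))
    have h2 := NN_delta r J j w h1
    rw [hw j (Finset.mem_insert_self _ _)] at h2
    simpa using h2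

theorem higman {ι : Type} [DecidableEq ι] (J : Finset ι) (w : FreeGroup ι)
    (hw : ∀ j ∈ J, del j w = 1) (r : ℕ) (hr : r + 1 ≤ J.card) :
    w ∈ (⊤ : Subgroup (FreeGroup ι)).lowerCentralSeries r := by
  induction r with
  | zero => exact Subgroup.mem_top _
  | succ r ih =>
    have h1 : w ∈ gam ι r := ih (by omega)
    have h2 := mem_NN_of_del r w h1 J hw
    have h3 : NN r J ≤ gam ι (r + 1) := by
      unfold NN
      rw [Subgroup.closure_le]
      rintro x (⟨_, S, hJS, hS, _⟩ | hx)
      · exfalso
        have := Finset.card_le_card hJS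
        omega
      · exact hx
    exact h3 h2

theorem del_prep {ι : Type} [DecidableEq ι] (J : Finset ι) (R : Subgroup (FreeGroup ι))
    (hR : ∀ (φ : FreeGroup ι →* FreeGroup ι), ∀ x ∈ R, φ x ∈ R) (hRn : R.Normal)
    (v : FreeGroup ι) (hv : ∀ j ∈ J, del j v ∈ R) :
    ∃ w : FreeGroup ι, v⁻¹ * w ∈ R ∧ ∀ j ∈ J, del j w = 1 := by
  induction J using Finset.induction_on with
  | empty => exact ⟨v, by simp [Subgroup.one_mem], by simp⟩
  | insert j J hj ih =>
    obtain ⟨w, hw1, hw2⟩ := ih (fun i hi => hv i (Finset.mem_insert_of_mem hi))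
    have h1 : del j w ∈ R := by
      have h2 : del j w = del j v * del j (v⁻¹ * w) := by
        rw [← map_mul]; congr 1; group
      rw [h2]
      exact Subgroup.mul_mem _ (hv j (Finset.mem_insert_self _ _)) (hR _ _ hw1)
    refine ⟨w * (del j w)⁻¹, ?_, ?_⟩
    · rw [← mul_assoc]
      exact Subgroup.mul_mem _ hw1 (Subgroup.inv_mem _ h1)
    · intro i hi
      rcases Finset.mem_insert.1 hi with rfl | hi
      · rw [map_mul, map_inv, del_idem, mul_inv_cancel]
      · rw [map_mul, map_inv, del_comm, hw2 i hi, map_one]; simp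


end Pool.Agent.Helper601.TE
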