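import Mathlib
import Pool.Agent.Helper601.TE.Defs

set_option autoImplicit false

namespace Pool.Agent.Helper601.TE


/-- locally nilpotent groups -/
def LN (K : Type*) [Group K] : Prop :=
  ∀ s : Finset K, Group.IsNilpotent (Subgroup.closure (s : Set K))

/-- the kernel of `F → E_n` -/
def Rn (n : ℕ) : Subgroup (FreeGroup ℕ) :=
  sInf {M : Subgroup (FreeGroup ℕ) | ∃ (K : Type) (_ : Group K) (f : FreeGroup ℕ →* K),
    f.ker = M ∧ (∀ x y : K, (fun z : K => z⁻¹ * x⁻¹ * z * x)^[n] y = 1) ∧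
    ∀ s : Finset K, Group.IsNilpotent (Subgroup.closure (s : Set K))}

theorem mem_Rn (n : ℕ) (v : FreeGroup ℕ) : v ∈ Rn n ↔
    ∀ (K : Type) [Group K] (f : FreeGroup ℕ →* K), Eng n K → LN K → f v = 1 := by
  unfold Rn
  rw [Subgroup.mem_sInf]
  constructor
  · intro h K _ f hE hL
    have := h f.ker ⟨K, inferInstance, f, rfl, hE, hL⟩
    exact this
  · rintro h _ ⟨K, iK, f, rfl, hE, hL⟩
    exact h K f hE hL

theorem Rn_normal (n : ℕ) : (Rn n).Normal := by
  constructor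
  intro v hv g
  rw [mem_Rn] at hv ⊢
  intro K _ f hE hL
  rw [map_mul, map_mul, map_inv, hv K f hE hL, mul_one, mul_inv_cancel]

theorem Rn_endo (n : ℕ) (φ : FreeGroup ℕ →* FreeGroup ℕ) (x : FreeGroup ℕ) (hx : x ∈ Rn n) :
    φ x ∈ Rn n := by
  rw [mem_Rn] at hx ⊢
  intro K _ f hE hL
  exact hx K (f.comp φ) hE hL


end Pool.Agent.Helper601.TE
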