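import Mathlib
import Pool.Agent.Helper601.TE.Defs

set_option autoImplicit false

namespace Pool.Agent.Helper601.TE


section TPaux

open scoped commutatorElement

universe u

/-- iterated commutators of the elements of `X` -/
def SS {F : Type u} [Group F] (X : Set F) : ℕ → Set F
  | 0 => X
  | n + 1 => Set.image2 (fun s x => ⁅s, x⁆) (SS X n) X

lemma SS_finite {F : Type u} [Group F] {X : Set F} (hX : X.Finite) : ∀ n, (SS X n).Finite
  | 0 => hX
  | n + 1 => (SS_finite hX n).image2 _ hX

/-- elements central modulo `N` -/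
def Cen {F : Type u} [Group F] (N : Subgroup F) [N.Normal] : Subgroup F :=
  (Subgroup.center (F ⧸ N)).comap (QuotientGroup.mk' N)

instance {F : Type u} [Group F] (N : Subgroup F) [N.Normal] : (Cen N).Normal := by
  unfold Cen; infer_instance

lemma mem_Cen {F : Type u} [Group F] {N : Subgroup F} [N.Normal] {x : F} :
    x ∈ Cen N ↔ ∀ y, ⁅x, y⁆ ∈ N := by
  unfold Cen
  rw [Subgroup.mem_comap, Subgroup.mem_center_iff]
  have key : ∀ y : F, (QuotientGroup.mk' N y * QuotientGroup.mk' N x =
      QuotientGroup.mk' N x * QuotientGroup.mk' N y) ↔ ⁅x, y⁆ ∈ N := by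
    intro y
    rw [← map_mul, ← map_mul, eq_comm, QuotientGroup.mk'_apply, QuotientGroup.mk'_apply,
      QuotientGroup.eq_iff_div_mem]
    have : (x * y) / (y * x) = ⁅x, y⁆ := by
      rw [commutatorElement_def, div_eq_mul_inv, mul_inv_rev]; group
    rw [this]
  constructor
  · intro h y
    exact (key y).1 (h _)
  · intro h g
    obtain ⟨y, rfl⟩ := QuotientGroup.mk'_surjective N g
    exact (key y).2 (h y)

/-- centraliser of `a` modulo `N` -/
def Cz {F : Type u} [Group F] (N : Subgroup F) [N.Normal] (a : F) : Subgroup F where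
  carrier := {f | ⁅a, f⁆ ∈ N}
  one_mem' := by
    show ⁅a, (1 : F)⁆ ∈ N
    rw [commutatorElement_one_right]; exact N.one_mem
  mul_mem' := by
    intro f g hf hg
    show ⁅a, f * g⁆ ∈ N
    have : ⁅a, f * g⁆ = ⁅a, f⁆ * (f * ⁅a, g⁆ * f⁻¹) := by
      simp only [commutatorElement_def]; group
    rw [this]
    exact N.mul_mem hf (Subgroup.Normal.conj_mem inferInstance _ hg f)
  inv_mem' := by
    intro f hf
    show ⁅a, f⁻¹⁆ ∈ N
    have : ⁅a, f⁻¹⁆ = f⁻¹ * ⁅a, f⁆⁻¹ * (f⁻¹)⁻¹ := by
      simp only [commutatorElement_def]; group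
    rw [this]
    exact Subgroup.Normal.conj_mem inferInstance _ (N.inv_mem hf) f⁻¹

lemma SS_sub {F : Type u} [Group F] {X : Set F} : ∀ n, SS X n ⊆
    ((⊤ : Subgroup F).lowerCentralSeries n : Set F)
  | 0 => fun x _ => Subgroup.mem_top x
  | n + 1 => by
    rintro _ ⟨s, hs, x, _, rfl⟩
    exact Subgroup.commutator_mem_commutator (SS_sub n hs) (Subgroup.mem_top x)

lemma lcs_eq {F : Type u} [Group F] {X : Set F} (hX : Subgroup.closure X = ⊤) :
    ∀ n, (⊤ : Subgroup F).lowerCentralSeries n ≤ Subgroup.normalClosure (SS X n)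
  | 0 => by
    rw [Subgroup.lowerCentralSeries_zero, ← hX]
    exact Subgroup.closure_le_normalClosure
  | n + 1 => by
    rw [Subgroup.lowerCentralSeries_succ]
    have h1 : Subgroup.normalClosure (SS X n) ≤ Cen (Subgroup.normalClosure (SS X (n + 1))) := by
      apply Subgroup.normalClosure_le_normal
      intro s hs
      show s ∈ Cen _
      rw [mem_Cen]
      intro y
      have h2 : Subgroup.closure X ≤ Cz (Subgroup.normalClosure (SS X (n + 1))) s := by
        rw [Subgroup.closure_le]
        intro x hx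
        show ⁅s, x⁆ ∈ Subgroup.normalClosure (SS X (n + 1))
        exact Subgroup.subset_normalClosure ⟨s, hs, x, hx, rfl⟩
      rw [hX] at h2
      exact h2 (Subgroup.mem_top y)
    rw [Subgroup.commutator_le]
    intro x hx y _
    exact mem_Cen.1 (h1 (lcs_eq hX n hx)) y

lemma lcs_le {F : Type u} [Group F] {X : Set F} (hX : Subgroup.closure X = ⊤) (n : ℕ) :
    (⊤ : Subgroup F).lowerCentralSeries n ≤
      Subgroup.closure (SS X n) ⊔ (⊤ : Subgroup F).lowerCentralSeries (n + 1) := by
  refine (lcs_eq hX n).trans ?_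
  unfold Subgroup.normalClosure
  rw [Subgroup.closure_le]
  intro x hx
  rw [Group.mem_conjugatesOfSet_iff] at hx
  obtain ⟨s, hs, hsx⟩ := hx
  rw [isConj_iff] at hsx
  obtain ⟨g, rfl⟩ := hsx
  have h1 : g * s * g⁻¹ = ⁅s, g⁆⁻¹ * s := by
    simp only [commutatorElement_def]; group
  rw [h1]
  apply Subgroup.mul_mem
  · apply Subgroup.inv_mem
    exact Subgroup.mem_sup_right
      (Subgroup.commutator_mem_commutator (SS_sub n hs) (Subgroup.mem_top g))
  · exact Subgroup.mem_sup_left (Subgroup.subset_closure hs)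

theorem tp_abelian (A : Type u) [CommGroup A] [Group.FG A] :
    ∃ P1 : ℕ, ∀ p : ℕ, p.Prime → P1 < p → ∀ x : A, x ^ p = 1 → x = 1 := by
  have h1 : AddGroup.FG (Additive A) := inferInstance
  have h2 : Module.Finite ℤ (Additive A) := Module.Finite.iff_addGroup_fg.2 h1
  have h3 : Finite (Submodule.torsion ℤ (Additive A)) :=
    Module.finite_of_fg_torsion _ Submodule.torsion_isTorsion
  refine ⟨Nat.card (Submodule.torsion ℤ (Additive A)), ?_⟩
  intro p hp hlt x hx
  have hx' : (p : ℤ) • (Additive.ofMul x) = 0 := by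
    have : Additive.ofMul (x ^ p) = 0 := by rw [hx]; rfl
    rw [ofMul_pow] at this
    rw [natCast_zsmul]
    exact this
  have hmem : Additive.ofMul x ∈ Submodule.torsion ℤ (Additive A) := by
    rw [Submodule.mem_torsion_iff]
    exact ⟨⟨(p : ℤ), mem_nonZeroDivisors_of_ne_zero (by exact_mod_cast hp.ne_zero)⟩, hx'⟩
  have h4 : Nat.card (Submodule.torsion ℤ (Additive A)) •
      (⟨Additive.ofMul x, hmem⟩ : Submodule.torsion ℤ (Additive A)) = 0 := card_nsmul_eq_zero'
  have h5 : p • (⟨Additive.ofMul x, hmem⟩ : Submodule.torsion ℤ (Additive A)) = 0 := by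
    apply Subtype.ext
    show p • Additive.ofMul x = 0
    rw [natCast_zsmul] at hx'
    exact hx'
  have hd1 := addOrderOf_dvd_of_nsmul_eq_zero h4
  have hd2 := addOrderOf_dvd_of_nsmul_eq_zero h5
  have hone : addOrderOf (⟨Additive.ofMul x, hmem⟩ : Submodule.torsion ℤ (Additive A)) = 1 := by
    rcases (Nat.dvd_prime hp).1 hd2 with h6 | h6
    · exact h6
    · rw [h6] at hd1
      have := Nat.le_of_dvd Nat.card_pos hd1
      omega
  rw [AddMonoid.addOrderOf_eq_one_iff] at hone
  have h7 := congrArg Subtype.val hone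
  exact h7

theorem tp_aux (c : ℕ) : ∀ (V : Type u) [Group V] [Group.FG V],
    (⊤ : Subgroup V).lowerCentralSeries c = ⊥ →
    ∃ P1 : ℕ, ∀ p : ℕ, p.Prime → P1 < p → ∀ x : V, x ^ p = 1 → x = 1 := by
  induction c with
  | zero =>
    intro V _ _ h
    refine ⟨0, fun p _ _ x _ => ?_⟩
    have hx : x ∈ (⊤ : Subgroup V).lowerCentralSeries 0 := Subgroup.mem_top x
    rw [h] at hx
    exact Subgroup.mem_bot.1 hx
  | succ c ih =>
    intro V _ _ h
    obtain ⟨X0, hX0⟩ := (Group.fg_def.1 (inferInstance : Group.FG V) : (⊤ : Subgroup V).FG)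
    have hX : Subgroup.closure (X0 : Set V) = ⊤ := hX0
    set Z := (⊤ : Subgroup V).lowerCentralSeries c with hZ
    have hfin := SS_finite (F := V) X0.finite_toSet c
    have hZc : Subgroup.closure (SS (X0 : Set V) c) = Z := by
      apply le_antisymm
      · rw [Subgroup.closure_le]
        exact SS_sub c
      · have h1 := lcs_le hX c
        rw [h, sup_bot_eq] at h1
        exact h1
    have hZfg : Z.FG := by
      rw [Subgroup.fg_iff]
      exact ⟨_, hZc, hfin⟩
    have hcen : ∀ z ∈ Z, ∀ g : V, z * g = g * z := by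
      intro z hz g
      have h1 : ⁅z, g⁆ ∈ (⊤ : Subgroup V).lowerCentralSeries (c + 1) :=
        Subgroup.commutator_mem_commutator hz (Subgroup.mem_top g)
      rw [h, Subgroup.mem_bot, commutatorElement_eq_one_iff_commute] at h1
      exact h1
    have hZn : Z.Normal := by
      constructor
      intro z hz g
      rw [← hcen z hz g, mul_assoc, mul_inv_cancel, mul_one]
      exact hz
    have hZFG : Group.FG Z := (Group.fg_iff_subgroup_fg Z).2 hZfg
    letI : CommGroup Z := { (inferInstance : Group Z) with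
      mul_comm := fun a b => Subtype.ext (hcen a.1 a.2 b.1) }
    obtain ⟨P, hP⟩ := tp_abelian Z
    have hq : (⊤ : Subgroup (V ⧸ Z)).lowerCentralSeries c = ⊥ := by
      have h1 : (⊤ : Subgroup (V ⧸ Z)) = (⊤ : Subgroup V).map (QuotientGroup.mk' Z) :=
        (Subgroup.map_top_of_surjective _ (QuotientGroup.mk'_surjective Z)).symm
      rw [h1, ← Subgroup.map_lowerCentralSeries, ← hZ]
      exact QuotientGroup.map_mk'_self Z
    obtain ⟨P', hP'⟩ := ih (V ⧸ Z) hq
    refine ⟨max P P', ?_⟩
    intro p hp hlt x hx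
    have h2 : ((x : V) : V ⧸ Z) = 1 := by
      apply hP' p hp (lt_of_le_of_lt (le_max_right _ _) hlt)
      rw [← QuotientGroup.mk_pow, hx]
      rfl
    have h3 : x ∈ Z := (QuotientGroup.eq_one_iff x).1 h2
    have h4 : (⟨x, h3⟩ : Z) = 1 := by
      apply hP p hp (lt_of_le_of_lt (le_max_left _ _) hlt)
      apply Subtype.ext
      exact hx
    exact congrArg Subtype.val h4

end TPaux

theorem torsion_primes_finite (V : Type*) [Group V] [Group.FG V] [Group.IsNilpotent V] :
    ∃ P1 : ℕ, ∀ p : ℕ, p.Prime → P1 < p → ∀ x : V, x ^ p = 1 → x = 1 := by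
  obtain ⟨n, hn⟩ := (Subgroup.nilpotent_iff_lowerCentralSeries (G := V)).1 inferInstance
  exact tp_aux n V hn


end Pool.Agent.Helper601.TE
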