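import Mathlib
import Pool.Agent.Helper601.TE.Defs
import Pool.Agent.Helper601.TE.Ybasic
import Pool.Agent.Helper601.TE.Yexv
import Pool.Agent.Helper601.TE.Yhigman
import Pool.Agent.Helper601.TE.Yrn
import Pool.Agent.Helper601.TE.Ytprimes

set_option autoImplicit false

namespace Pool.Agent.Helper601.TE


theorem exists_fin_closure (v : FreeGroup ℕ) :
    ∃ B : Finset ℕ, v ∈ Subgroup.closure (FreeGroup.of '' (B : Set ℕ)) := by
  induction v using FreeGroup.induction_on with
  | C1 => exact ⟨∅, Subgroup.one_mem _⟩
  | of x => exact ⟨{x}, Subgroup.subset_closure ⟨x, by simp, rfl⟩⟩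
  | inv_of x h =>
    obtain ⟨B, hB⟩ := h
    exact ⟨B, Subgroup.inv_mem _ hB⟩
  | mul x y hx hy =>
    obtain ⟨B, hB⟩ := hx
    obtain ⟨C, hC⟩ := hy
    refine ⟨B ∪ C, Subgroup.mul_mem _ ?_ ?_⟩
    · exact Subgroup.closure_mono (Set.image_mono (by simp)) hB
    · exact Subgroup.closure_mono (Set.image_mono (by simp)) hC

theorem law_of_pow (N c : ℕ) : ∃ P1 : ℕ, ∀ p : ℕ, p.Prime → P1 < p →
    ∀ (Q : Type) [Group Q], Eng N Q → (⊤ : Subgroup Q).lowerCentralSeries c = ⊥ →
      ∀ v : FreeGroup ℕ, v ^ p ∈ Rn N → ∀ f : FreeGroup ℕ →* Q, f v = 1 := by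
  obtain ⟨V, _, _, _, π, hEV, hπ⟩ := exists_V N c
  obtain ⟨P1, hP1⟩ := torsion_primes_finite V
  refine ⟨P1, ?_⟩
  intro p hp hpP Q _ hEQ hQc
  have hLN : LN V := by
    intro s
    infer_instance
  have main : ∀ n : ℕ, ∀ B : Finset ℕ, B.card = n →
      ∀ v ∈ Subgroup.closure (FreeGroup.of '' (B : Set ℕ)), v ^ p ∈ Rn N →
      ∀ f : FreeGroup ℕ →* Q, f v = 1 := by
    intro n
    induction n using Nat.strong_induction_on with
    | _ n ih =>
    intro B hB v hv hvp f
    rcases Nat.lt_or_ge c B.card with hc | hc
    · let R : Subgroup (FreeGroup ℕ) :=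
        { carrier := {x | ∀ g : FreeGroup ℕ →* Q, g x = 1}
          mul_mem' := by
            intro a b ha hb g
            rw [map_mul, ha g, hb g, one_mul]
          one_mem' := fun g => map_one g
          inv_mem' := by
            intro a ha g
            rw [map_inv, ha g, inv_one] }
      have hRmem : ∀ x, x ∈ R ↔ ∀ g : FreeGroup ℕ →* Q, g x = 1 := fun x => Iff.rfl
      have hRn : R.Normal := ⟨by
        intro x hx y
        rw [hRmem] at hx ⊢
        intro g
        rw [map_mul, map_mul, hx g, mul_one, map_inv, mul_inv_cancel]⟩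
      obtain ⟨w, hw1, hw2⟩ := del_prep B R (by
        intro φ x hx
        rw [hRmem] at hx ⊢
        intro g
        exact hx (g.comp φ)) hRn v (by
        intro j hj
        rw [hRmem]
        intro g
        refine ih (B.erase j).card ?_ (B.erase j) rfl (del j v) ?_ ?_ g
        · rw [← hB]; exact Finset.card_erase_lt_of_mem hj
        · have h1 : del j v ∈ (Subgroup.closure (FreeGroup.of '' (B : Set ℕ))).map (del j) :=
            Subgroup.mem_map_of_mem _ hv
          rw [MonoidHom.map_closure] at h1
          refine (Subgroup.closure_le _).2 ?_ h1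
          rintro _ ⟨_, ⟨b, hb, rfl⟩, rfl⟩
          by_cases hbj : b = j
          · have : del j (FreeGroup.of b) = 1 := by
              simp [del, hbj]
            rw [this]
            exact Subgroup.one_mem _
          · have : del j (FreeGroup.of b) = FreeGroup.of b := by
              simp [del, hbj]
            rw [this]
            refine Subgroup.subset_closure ⟨b, ?_, rfl⟩
            rw [Finset.mem_coe, Finset.mem_erase]
            exact ⟨hbj, hb⟩
        · rw [← map_pow]
          exact Rn_endo N _ _ hvp)
      have hw3 := higman B w hw2 c hc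
      have hfw : f w = 1 := by
        have h2 : f w ∈ ((⊤ : Subgroup (FreeGroup ℕ)).lowerCentralSeries c).map f :=
          Subgroup.mem_map_of_mem _ hw3
        rw [Subgroup.map_lowerCentralSeries] at h2
        have h3 : ((⊤ : Subgroup (FreeGroup ℕ)).map f).lowerCentralSeries c ≤
            (⊤ : Subgroup Q).lowerCentralSeries c :=
          Subgroup.lowerCentralSeries_mono c le_top
        have h4 := h3 h2
        rw [hQc, Subgroup.mem_bot] at h4
        exact h4
      have h5 := hw1 f
      rw [map_mul, map_inv, hfw, mul_one, inv_eq_one] at h5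
      exact h5
    · have hcard : Fintype.card B ≤ Fintype.card (Fin c) := by
        rw [Fintype.card_coe, Fintype.card_fin]; exact hc
      obtain ⟨g⟩ := Function.Embedding.nonempty_of_card_le hcard
      classical
      let α : FreeGroup ℕ →* FreeGroup (Fin c) :=
        FreeGroup.lift (fun i => if h : i ∈ B then FreeGroup.of (g ⟨i, h⟩) else 1)
      let β : FreeGroup (Fin c) →* FreeGroup ℕ :=
        FreeGroup.lift (fun j => if h : ∃ b : B, g b = j then FreeGroup.of (h.choose : ℕ) else 1)
      have hαβ : β (α v) = v := by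
        have h1 : Set.EqOn (β.comp α) (MonoidHom.id (FreeGroup ℕ)) (FreeGroup.of '' (B : Set ℕ)) := by
          rintro _ ⟨b, hb, rfl⟩
          have hb' : b ∈ B := hb
          have h2 : α (FreeGroup.of b) = FreeGroup.of (g ⟨b, hb'⟩) := by
            simp only [α, FreeGroup.lift_apply_of]
            rw [dif_pos hb']
          have h3 : ∃ b' : B, g b' = g ⟨b, hb'⟩ := ⟨_, rfl⟩
          have h4 : β (FreeGroup.of (g ⟨b, hb'⟩)) = FreeGroup.of b := by
            simp only [β, FreeGroup.lift_apply_of]
            rw [dif_pos h3]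
            have := g.injective h3.choose_spec
            rw [this]
          rw [MonoidHom.comp_apply, h2, h4]
          rfl
        exact MonoidHom.eqOn_closure h1 hv
      have h5 : (π (α v)) ^ p = 1 := by
        have := (mem_Rn N (v ^ p)).1 hvp V (π.comp α) hEV hLN
        rw [map_pow] at this
        exact this
      have h6 := hP1 p hp hpP _ h5
      have h7 := hπ Q (f.comp β) hEQ hQc (α v) h6
      rw [MonoidHom.comp_apply, hαβ] at h7
      exact h7
  intro v hv f
  obtain ⟨B, hB⟩ := exists_fin_closure v
  exact main _ B rfl v hB hv f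


end Pool.Agent.Helper601.TE
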