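import Mathlib
import Pool.Agent.Helper601.TE.Defs
import Pool.Agent.Helper601.TE.Ybasic
import Pool.Agent.Helper601.TE.Ylaw
import Pool.Agent.Helper601.TE.Yresid
import Pool.Agent.Helper601.TE.Yrn

set_option autoImplicit false

namespace Pool.Agent.Helper601.TE


theorem no_torsion (N c Q0 : ℕ)
    (hc : ∀ q : ℕ, q.Prime → Q0 < q → ∀ (G : Type) [Group G] [Finite G],
      IsPGroup q G → Eng N G → (⊤ : Subgroup G).lowerCentralSeries c = ⊥) :
    ∃ P0 : ℕ, ∀ p : ℕ, p.Prime → P0 < p → ∀ v : FreeGroup ℕ, v ^ p ∈ Rn N → v ∈ Rn N := by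
  classical
  obtain ⟨P1, hP1⟩ := law_of_pow N c
  refine ⟨max P1 Q0, ?_⟩
  intro p hp hpP v hv
  by_contra hvn
  rw [mem_Rn] at hvn
  push Not at hvn
  obtain ⟨K, _, f, hE, hLN, hfv⟩ := hvn
  have hB : ∀ w : FreeGroup ℕ, ∃ B : Finset ℕ,
      w ∈ Subgroup.closure (FreeGroup.of '' (B : Set ℕ)) := by
    intro w
    induction w using FreeGroup.induction_on with
    | C1 => exact ⟨∅, Subgroup.one_mem _⟩
    | of i =>
      refine ⟨{i}, Subgroup.subset_closure ⟨i, ?_, rfl⟩⟩
      simp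
    | inv_of i h =>
      obtain ⟨B, hB⟩ := h
      exact ⟨B, Subgroup.inv_mem _ hB⟩
    | mul x y hx hy =>
      obtain ⟨B1, h1⟩ := hx
      obtain ⟨B2, h2⟩ := hy
      refine ⟨B1 ∪ B2, Subgroup.mul_mem _ ?_ ?_⟩
      · refine Subgroup.closure_mono (Set.image_mono ?_) h1
        rw [Finset.coe_union]; exact Set.subset_union_left
      · refine Subgroup.closure_mono (Set.image_mono ?_) h2
        rw [Finset.coe_union]; exact Set.subset_union_right
  obtain ⟨B, hvB⟩ := hB v
  set s : Finset K := B.image (fun i => f (FreeGroup.of i)) with hs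
  have hmem : ∀ i ∈ B, f (FreeGroup.of i) ∈ Subgroup.closure (s : Set K) := by
    intro i hi
    apply Subgroup.subset_closure
    rw [hs, Finset.coe_image]
    exact ⟨i, hi, rfl⟩
  haveI hnil : Group.IsNilpotent (Subgroup.closure (s : Set K)) := hLN s
  haveI hfg : Group.FG (Subgroup.closure (s : Set K)) :=
    (Group.fg_iff_subgroup_fg _).2 ⟨s, rfl⟩
  let f' : FreeGroup ℕ →* Subgroup.closure (s : Set K) :=
    FreeGroup.lift (fun i => if h : i ∈ B then ⟨f (FreeGroup.of i), hmem i h⟩ else 1)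
  have hcomp : Set.EqOn ((Subgroup.closure (s : Set K)).subtype.comp f') f
      (Subgroup.closure (FreeGroup.of '' (B : Set ℕ))) := by
    apply MonoidHom.eqOn_closure
    rintro _ ⟨i, hi, rfl⟩
    have hi' : i ∈ B := hi
    simp [f', hi']
  have hf'v : ((f' v : Subgroup.closure (s : Set K)) : K) = f v := hcomp hvB
  have hz : f' v ≠ 1 := by
    intro h
    apply hfv
    rw [← hf'v, h]
    rfl
  obtain ⟨q, hq, Q, _, _, hpQ, g, hg, hgz⟩ := resid _ (f' v) hz
  have hfp : (f v) ^ p = 1 := by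
    rw [← map_pow]
    exact (mem_Rn N (v ^ p)).1 hv K f hE hLN
  have hzp : (f' v) ^ p = 1 := by
    apply Subtype.ext
    show ((f' v : Subgroup.closure (s : Set K)) : K) ^ p = 1
    rw [hf'v, hfp]
  have hgp : (g (f' v)) ^ p = 1 := by
    rw [← map_pow, hzp, map_one]
  haveI : Fact p.Prime := ⟨hp⟩
  have hord : orderOf (g (f' v)) = p := orderOf_eq_prime hgp hgz
  obtain ⟨k, hk⟩ := hpQ (g (f' v))
  have hdvd : p ∣ q ^ k := by
    rw [← hord]
    exact orderOf_dvd_of_pow_eq_one hk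
  have hpq : p = q := (Nat.prime_dvd_prime_iff_eq hp hq).1 (hp.dvd_of_dvd_pow hdvd)
  subst hpq
  have hEQ : Eng N Q := (hE.of_inj (Subgroup.closure (s : Set K)).subtype
    (Subgroup.subtype_injective _)).of_surj g hg
  have hlcs := hc p hp (lt_of_le_of_lt (le_max_right _ _) hpP) Q hpQ hEQ
  have := hP1 p hp (lt_of_le_of_lt (le_max_left _ _) hpP) Q hEQ hlcs v hv (g.comp f')
  exact hgz this


end Pool.Agent.Helper601.TE
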