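import Mathlib
import Pool.Agent.Helper601.TE.Defs
import Pool.Agent.Helper601.TE.Ybasic
import Pool.Agent.Helper601.TE.Yresid
import Pool.Agent.Helper601.TE.Yrn

set_option autoImplicit false

namespace Pool.Agent.Helper601.TE


theorem LC_top_lcs {G : Type*} [Group G] (j : ℕ) :
    LC (⊤ : Subgroup G) j = (⊤ : Subgroup G).lowerCentralSeries j := by
  induction j with
  | zero => rfl
  | succ j ih => rw [LC, ih]; rfl

theorem ob_claim (n m0 c Q0 p k0 : ℕ) (hk0 : n ≤ p ^ k0)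
    (Wq : ℕ → ℕ)
    (hW : ∀ q : ℕ, q.Prime → 0 < Wq q ∧ ∀ (G : Type) [Group G] [Finite G],
      IsPGroup q G → Eng n G →
      ∀ k : ℕ, n ≤ q ^ k → ∀ (x : G) (l : List G), 2 * m0 ≤ l.length →
        (cw (x ^ q ^ (k + 1)) l) ^ Wq q = 1)
    (hc : ∀ q : ℕ, q.Prime → Q0 < q → ∀ (G : Type) [Group G] [Finite G],
      IsPGroup q G → Eng n G → (⊤ : Subgroup G).lowerCentralSeries c = ⊥)
    (S : Finset ℕ) (hS : ∀ q, q ∈ S ↔ q.Prime ∧ q ≤ Q0)
    (Q : Type) [Group Q] [Finite Q] (q : ℕ) (hq : q.Prime) (hQ : IsPGroup q Q) (hE : Eng n Q)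
    (x : Q) (l : List Q) (hl : l.length = max (2 * m0) c) :
    (cw (x ^ (p ^ (k0 + 1) * ∏ r ∈ S.erase p, r ^ (n + 1))) l) ^ (∏ r ∈ S, Wq r) = 1 := by
  have hl1 : 2 * m0 ≤ l.length := by rw [hl]; exact le_max_left _ _
  by_cases hqQ : q ≤ Q0
  · have hqS : q ∈ S := (hS q).2 ⟨hq, hqQ⟩
    obtain ⟨w, hw⟩ := Finset.dvd_prod_of_mem Wq hqS
    rw [hw, pow_mul]
    by_cases hqp : q = p
    · subst hqp
      rw [mul_comm (q ^ (k0 + 1)), pow_mul, (hW q hq).2 Q hQ hE k0 hk0 _ l hl1, one_pow]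
    · have : q ^ (n + 1) ∣ p ^ (k0 + 1) * ∏ r ∈ S.erase p, r ^ (n + 1) :=
        Dvd.dvd.mul_left (Finset.dvd_prod_of_mem (fun r => r ^ (n + 1))
          (Finset.mem_erase.2 ⟨hqp, hqS⟩)) _
      obtain ⟨y, hy⟩ := this
      rw [hy, mul_comm, pow_mul,
        (hW q hq).2 Q hQ hE n (Nat.lt_pow_self hq.one_lt).le _ l hl1, one_pow]
  · push Not at hqQ
    have h1 := hc q hq hqQ Q hQ hE
    have h2 : cw (x ^ (p ^ (k0 + 1) * ∏ r ∈ S.erase p, r ^ (n + 1))) l ∈
        LC (⊤ : Subgroup Q) l.length :=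
      cw_mem_LC inferInstance (Subgroup.mem_top _) l
    rw [LC_top_lcs] at h2
    have h3 := Subgroup.lowerCentralSeries_antitone (⊤ : Subgroup Q)
      (show c ≤ l.length by rw [hl]; exact le_max_right _ _) h2
    rw [h1, Subgroup.mem_bot] at h3
    rw [h3, one_pow]


theorem order_bound (n m0 c Q0 p k0 : ℕ) (hp : p.Prime) (hk0 : n ≤ p ^ k0)
    (hfin : ∀ q : ℕ, q.Prime → ∃ W : ℕ, 0 < W ∧ ∀ (G : Type) [Group G] [Finite G],
      IsPGroup q G → Eng n G →
      ∀ k : ℕ, n ≤ q ^ k → ∀ (x : G) (l : List G), 2 * m0 ≤ l.length →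
        (cw (x ^ q ^ (k + 1)) l) ^ W = 1)
    (hc : ∀ q : ℕ, q.Prime → Q0 < q → ∀ (G : Type) [Group G] [Finite G],
      IsPGroup q G → Eng n G → (⊤ : Subgroup G).lowerCentralSeries c = ⊥) :
    ∃ m M' W : ℕ, M'.Coprime p ∧ 0 < W ∧ ∀ (K : Type) [Group K], Eng n K → LN K →
      ∀ (x : K) (l : List K), l.length = m → (cw (x ^ (p ^ (k0 + 1) * M')) l) ^ W = 1 := by
  classical
  choose! Wq hW using hfin
  set S : Finset ℕ := (Finset.range (Q0 + 1)).filter Nat.Prime with hSdef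
  have hS : ∀ q, q ∈ S ↔ q.Prime ∧ q ≤ Q0 := by
    intro q
    rw [hSdef, Finset.mem_filter, Finset.mem_range, Nat.lt_succ_iff, and_comm]
  refine ⟨max (2 * m0) c, ∏ r ∈ S.erase p, r ^ (n + 1), ∏ r ∈ S, Wq r, ?_, ?_, ?_⟩
  · refine Nat.Coprime.prod_left fun r hr => ?_
    obtain ⟨hrp, hrS⟩ := Finset.mem_erase.1 hr
    exact Nat.Coprime.pow_left _ ((Nat.coprime_primes ((hS r).1 hrS).1 hp).2 hrp)
  · exact Finset.prod_pos fun r hr => (hW r ((hS r).1 hr).1).1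
  · intro K _ hE hL x l hl
    by_contra hz
    let s : Finset K := insert x l.toFinset
    let H : Subgroup K := Subgroup.closure (s : Set K)
    haveI hHn : Group.IsNilpotent H := hL s
    haveI hHf : Group.FG H := Group.closure_finset_fg s
    have hxs : x ∈ H := Subgroup.subset_closure (by simp [s])
    have hls : ∀ g ∈ l, g ∈ H := fun g hg => Subgroup.subset_closure (by simp [s, hg])
    let x' : H := ⟨x, hxs⟩
    let l' : List H := l.attach.map fun g => ⟨g.1, hls g.1 g.2⟩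
    have hl' : l'.map H.subtype = l := by
      simp [l', List.map_map, Function.comp_def]
    have hlen : l'.length = max (2 * m0) c := by
      simp [l', hl]
    set N : ℕ := p ^ (k0 + 1) * ∏ r ∈ S.erase p, r ^ (n + 1) with hN
    have hmap : H.subtype ((cw (x' ^ N) l') ^ (∏ r ∈ S, Wq r)) =
        (cw (x ^ N) l) ^ (∏ r ∈ S, Wq r) := by
      rw [map_pow, cw_map, hl', map_pow]
      rfl
    have hz' : (cw (x' ^ N) l') ^ (∏ r ∈ S, Wq r) ≠ 1 := by
      intro h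
      rw [h, map_one] at hmap
      exact hz hmap.symm
    obtain ⟨q, hq, Q, gQ, fQ, hpQ, f, hf, hfz⟩ := resid H _ hz'
    apply hfz
    have hEH : Eng n H := hE.of_inj H.subtype H.subtype_injective
    have hEQ : Eng n Q := hEH.of_surj f hf
    rw [map_pow, cw_map, map_pow]
    exact ob_claim n m0 c Q0 p k0 hk0 Wq hW hc S hS Q q hq hpQ hEQ (f x') (l'.map f)
      (by rw [List.length_map, hlen])


end Pool.Agent.Helper601.TE
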