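import Mathlib
import Pool.Agent.Helper601.TE.Defs

set_option autoImplicit false

namespace Pool.Agent.Helper601.TE


/-- the group -/
@[ext] structure WG (p K m : ℕ) where
  f : (Fin m → ZMod p) → ZMod (p ^ (K + 1))
  h : Fin m → ZMod p

namespace WG
variable {p K m : ℕ}

instance : Mul (WG p K m) := ⟨fun a b => ⟨fun y => a.f y + b.f (y + a.h), a.h + b.h⟩⟩
instance : One (WG p K m) := ⟨⟨0, 0⟩⟩
instance : Inv (WG p K m) := ⟨fun a => ⟨fun y => - a.f (y - a.h), -a.h⟩⟩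

theorem mul_f (a b : WG p K m) (y : Fin m → ZMod p) : (a * b).f y = a.f y + b.f (y + a.h) := rfl
theorem mul_h (a b : WG p K m) : (a * b).h = a.h + b.h := rfl
theorem one_f (y : Fin m → ZMod p) : (1 : WG p K m).f y = 0 := rfl
theorem one_h : (1 : WG p K m).h = 0 := rfl
theorem inv_f (a : WG p K m) (y : Fin m → ZMod p) : (a⁻¹).f y = - a.f (y - a.h) := rfl
theorem inv_h (a : WG p K m) : (a⁻¹).h = -a.h := rfl

instance : Group (WG p K m) :=
  Group.ofLeftAxioms
    (by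
      intro a b c
      ext y
      · simp only [mul_f, mul_h]
        rw [add_assoc, add_assoc y]
      · simp only [mul_h, add_assoc])
    (by
      intro a
      ext y
      · rw [mul_f, one_f, one_h, zero_add, add_zero]
      · rw [mul_h, one_h, zero_add])
    (by
      intro a
      ext y
      · rw [mul_f, inv_f, inv_h, one_f, ← sub_eq_add_neg, neg_add_cancel]
      · rw [mul_h, inv_h, one_h, neg_add_cancel])

/-- equivalence with the product -/
def eqv : WG p K m ≃ ((Fin m → ZMod p) → ZMod (p ^ (K + 1))) × (Fin m → ZMod p) where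
  toFun a := (a.f, a.h)
  invFun b := ⟨b.1, b.2⟩
  left_inv _ := rfl
  right_inv _ := rfl

/-- shift operator -/
noncomputable def TT (h : Fin m → ZMod p) : Module.End ℤ ((Fin m → ZMod p) → ZMod (p ^ (K + 1))) :=
  LinearMap.funLeft ℤ _ (fun y => y - h)

theorem TT_apply (h : Fin m → ZMod p) (f : (Fin m → ZMod p) → ZMod (p ^ (K + 1)))
    (y : Fin m → ZMod p) : TT h f y = f (y - h) := rfl

theorem TT_pow (h : Fin m → ZMod p) (k : ℕ) (f : (Fin m → ZMod p) → ZMod (p ^ (K + 1)))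
    (y : Fin m → ZMod p) : ((TT h ^ k) f) y = f (y - k • h) := by
  induction k generalizing f y with
  | zero => simp
  | succ k ih =>
    have e : (TT h : Module.End ℤ ((Fin m → ZMod p) → ZMod (p ^ (K + 1)))) ^ (k + 1) =
      TT h ^ k * TT h := pow_succ _ _
    rw [e]
    show ((TT h ^ k) (TT h f)) y = _
    rw [ih, TT_apply, succ_nsmul, sub_sub]

theorem TT_pow_p (h : Fin m → ZMod p) :
    (TT h : Module.End ℤ ((Fin m → ZMod p) → ZMod (p ^ (K + 1)))) ^ p = 1 := by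
  ext f y
  rw [TT_pow]
  have : p • h = 0 := by
    ext i
    rw [Pi.smul_apply, nsmul_eq_mul, ZMod.natCast_self, zero_mul]
    rfl
  rw [this, sub_zero]
  rfl

end WG

theorem key_ring {R : Type*} [Ring R] (p : ℕ) (hp : p.Prime) (u : R) (h : (u + 1) ^ p = 1) :
    ∃ v : R, Commute u v ∧ u ^ p = (p : R) * (u * v) := by
  have h1 := Commute.add_pow_prime_eq hp (Commute.one_right u)
  rw [h, one_pow, mul_one] at h1
  refine ⟨-∑ k ∈ Finset.Ioo 0 p, u ^ (k - 1) * 1 ^ (p - k - 1) * ((p.choose k / p : ℕ) : R),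
    ?_, ?_⟩
  · refine Commute.neg_right (Commute.sum_right _ _ _ fun k _ => ?_)
    refine (((Commute.refl u).pow_right _).mul_right ?_).mul_right (Nat.commute_cast u _)
    rw [one_pow]
    exact Commute.one_right u
  · rw [mul_neg, mul_neg, eq_neg_iff_add_eq_zero, ← mul_assoc]
    have h3 : (1 : R) + (u ^ p + (p : R) * u * ∑ k ∈ Finset.Ioo 0 p,
        u ^ (k - 1) * 1 ^ (p - k - 1) * ((p.choose k / p : ℕ) : R)) = 1 := by
      conv_rhs => rw [h1]
      rw [← add_assoc, add_comm 1]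
    exact add_eq_left.1 h3

theorem key_pow {R : Type*} [Ring R] (p : ℕ) (hp : p.Prime) (u : R) (h : (u + 1) ^ p = 1) (a : ℕ) :
    ∃ w : R, Commute u w ∧ u ^ (1 + a * (p - 1)) = (p : R) ^ a * (u * w) := by
  obtain ⟨v, hv, hup⟩ := key_ring p hp u h
  induction a with
  | zero => exact ⟨1, Commute.one_right u, by simp⟩
  | succ a ih =>
    obtain ⟨w, hw, hw2⟩ := ih
    refine ⟨v * w, hv.mul_right hw, ?_⟩
    have e1 : 1 + (a + 1) * (p - 1) = (1 + a * (p - 1)) + (p - 1) := by ring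
    have e2 : w * u ^ (p - 1) = u ^ (p - 1) * w := ((hw.pow_left (p - 1)).eq).symm
    have hp1 : p - 1 + 1 = p := Nat.sub_add_cancel hp.one_le
    rw [e1, pow_add, hw2, mul_assoc, mul_assoc, e2, ← mul_assoc u, ← pow_succ', hp1, hup,
      pow_succ, mul_assoc ((p : R) ^ a), mul_assoc (p : R), mul_assoc u]

namespace WG
variable {p K m : ℕ}

theorem comm_apply (f : (Fin m → ZMod p) → ZMod (p ^ (K + 1))) (x : WG p K m) :
    (⟨f, 0⟩ : WG p K m)⁻¹ * x⁻¹ * ⟨f, 0⟩ * x = ⟨(TT x.h - 1) f, 0⟩ := by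
  ext y
  · simp only [mul_f, mul_h, inv_f, inv_h, neg_zero, zero_add, add_zero, sub_zero]
    show -f y + -x.f (y - x.h) + f (y + -x.h) + x.f (y + -x.h) = f (y - x.h) - f y
    rw [← sub_eq_add_neg y]
    ring
  · simp only [mul_h, inv_h, neg_zero, zero_add, add_zero, neg_add_cancel]

theorem iter_apply (x : WG p K m) (k : ℕ) (f : (Fin m → ZMod p) → ZMod (p ^ (K + 1))) :
    (fun z : WG p K m => z⁻¹ * x⁻¹ * z * x)^[k] ⟨f, 0⟩ = ⟨((TT x.h - 1) ^ k) f, 0⟩ := by
  induction k generalizing f with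
  | zero => rfl
  | succ k ih =>
    rw [Function.iterate_succ_apply]
    show (fun z : WG p K m => z⁻¹ * x⁻¹ * z * x)^[k] (⟨f, 0⟩⁻¹ * x⁻¹ * ⟨f, 0⟩ * x) = _
    have e : (TT x.h - 1 : Module.End ℤ ((Fin m → ZMod p) → ZMod (p ^ (K + 1)))) ^ (k + 1) =
      (TT x.h - 1) ^ k * (TT x.h - 1) := pow_succ _ _
    rw [comm_apply, ih, e]
    rfl

theorem nil_apply (hp : p.Prime) (h : Fin m → ZMod p)
    (f : (Fin m → ZMod p) → ZMod (p ^ (K + 1))) :
    ((TT h - 1) ^ (1 + (K + 1) * (p - 1))) f = 0 := by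
  obtain ⟨w, _, hw⟩ := key_pow p hp
    (TT h - 1 : Module.End ℤ ((Fin m → ZMod p) → ZMod (p ^ (K + 1))))
    (by rw [sub_add_cancel]; exact TT_pow_p h) (K + 1)
  rw [hw, ← Nat.cast_pow]
  show ((p ^ (K + 1) : ℕ) : Module.End ℤ ((Fin m → ZMod p) → ZMod (p ^ (K + 1))))
    (((TT h - 1 : Module.End ℤ ((Fin m → ZMod p) → ZMod (p ^ (K + 1)))) * w) f) = 0
  rw [Module.End.natCast_apply]
  ext y
  rw [Pi.smul_apply, nsmul_eq_mul, ZMod.natCast_self, zero_mul]
  rfl

theorem engel (hp : p.Prime) : Eng ((K + 1) * (p - 1) + 2) (WG p K m) := by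
  intro x y
  have e : (K + 1) * (p - 1) + 2 = (1 + (K + 1) * (p - 1)) + 1 := by ring
  rw [e, Function.iterate_succ_apply]
  have h0 : ∃ f, y⁻¹ * x⁻¹ * y * x = (⟨f, 0⟩ : WG p K m) := by
    refine ⟨(y⁻¹ * x⁻¹ * y * x).f, ?_⟩
    ext z
    · rfl
    · simp only [mul_h, inv_h]
      show (-y.h + -x.h + y.h + x.h) z = (0 : Fin m → ZMod p) z
      rw [show -y.h + -x.h + y.h + x.h = 0 by abel]
  obtain ⟨f, hf⟩ := h0
  show (fun z : WG p K m => z⁻¹ * x⁻¹ * z * x)^[1 + (K + 1) * (p - 1)] (y⁻¹ * x⁻¹ * y * x) = 1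
  rw [hf, iter_apply, nil_apply hp]
  rfl

theorem cw_apply [Fact p.Prime] (L : List (Fin m)) (hL : L.Nodup)
    (F : (Fin m → ZMod p) → ZMod (p ^ (K + 1)))
    (hF : ∀ y, (∃ j ∈ L, y j ≠ 0) → F y = 0) :
    ∃ F', cw (⟨F, 0⟩ : WG p K m) (L.map fun i => ⟨0, Pi.single i 1⟩) = ⟨F', 0⟩ ∧
      F' 0 = (-1) ^ L.length * F 0 := by
  induction L generalizing F with
  | nil => exact ⟨F, rfl, by simp⟩
  | cons i L ih =>
    rw [List.nodup_cons] at hL
    have hcw : cw (⟨F, 0⟩ : WG p K m) ((i :: L).map fun i => ⟨0, Pi.single i 1⟩) =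
        cw (⟨(TT (Pi.single i 1) - 1) F, 0⟩ : WG p K m) (L.map fun i => ⟨0, Pi.single i 1⟩) := by
      have := comm_apply F (⟨0, Pi.single i 1⟩ : WG p K m)
      unfold cw
      rw [List.map_cons, List.foldl_cons, this]
    have hval : ∀ y, ((TT (Pi.single i 1) - 1) F) y = F (y - Pi.single i 1) - F y := fun y => rfl
    obtain ⟨F', h1, h2⟩ := ih hL.2 ((TT (Pi.single i 1) - 1) F) (by
      rintro y ⟨j, hj, hy⟩
      have hji : j ≠ i := fun e => hL.1 (e ▸ hj)
      rw [hval, hF y ⟨j, List.mem_cons_of_mem _ hj, hy⟩, hF (y - Pi.single i 1)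
        ⟨j, List.mem_cons_of_mem _ hj, by rw [Pi.sub_apply, Pi.single_eq_of_ne hji, sub_zero]; exact hy⟩,
        sub_zero])
    refine ⟨F', by rw [hcw, h1], ?_⟩
    rw [h2, hval, hF (0 - Pi.single i 1) ⟨i, List.mem_cons_self, by
      rw [Pi.sub_apply, Pi.single_eq_same, Pi.zero_apply, zero_sub, neg_ne_zero]
      exact one_ne_zero⟩, List.length_cons, pow_succ (-1 : ZMod (p ^ (K + 1)))]
    ring

theorem pow_apply (F : (Fin m → ZMod p) → ZMod (p ^ (K + 1))) (n : ℕ) :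
    (⟨F, 0⟩ : WG p K m) ^ n = ⟨n • F, 0⟩ := by
  induction n with
  | zero =>
    rw [pow_zero, zero_nsmul]
    rfl
  | succ n ih =>
    rw [pow_succ, ih]
    ext y
    · rw [mul_f]
      show (n • F) y + F (y + 0) = ((n + 1) • F) y
      rw [add_zero, add_nsmul, one_nsmul]
      rfl
    · rw [mul_h]
      show ((0 : Fin m → ZMod p) + 0) y = (0 : Fin m → ZMod p) y
      rw [add_zero]

end WG

theorem wreath_example (p K m M' : ℕ) (hp : p.Prime) (hM' : M'.Coprime p) :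
    ∃ (G : Type) (_ : Group G) (_ : Finite G), IsPGroup p G ∧ Eng ((K + 1) * (p - 1) + 2) G ∧
      ∃ (x : G) (l : List G), l.length = m ∧ cw (x ^ (p ^ K * M')) l ≠ 1 := by
  classical
  haveI : Fact p.Prime := ⟨hp⟩
  haveI : NeZero p := ⟨hp.ne_zero⟩
  haveI : NeZero (p ^ (K + 1)) := ⟨pow_ne_zero _ hp.ne_zero⟩
  haveI hfin : Finite (WG p K m) := Finite.of_equiv _ (WG.eqv (p := p) (K := K) (m := m)).symm
  refine ⟨WG p K m, inferInstance, hfin, ?_, WG.engel hp, ?_⟩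
  · apply IsPGroup.of_card (n := (K + 1) * p ^ m + m)
    rw [Nat.card_congr WG.eqv, Nat.card_prod, Nat.card_fun, Nat.card_fun,
      Nat.card_zmod, Nat.card_zmod, Nat.card_fin, ← pow_mul, ← pow_add]
  · let F : (Fin m → ZMod p) → ZMod (p ^ (K + 1)) := Pi.single 0 1
    refine ⟨⟨F, 0⟩, (List.finRange m).map fun i => ⟨0, Pi.single i 1⟩, by simp, ?_⟩
    rw [WG.pow_apply]
    obtain ⟨F', h1, h2⟩ := WG.cw_apply (K := K) (List.finRange m) (List.nodup_finRange m)
      ((p ^ K * M') • F) (by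
        rintro y ⟨j, _, hy⟩
        have hy0 : y ≠ 0 := by
          rintro rfl
          exact hy rfl
        rw [Pi.smul_apply]
        show (p ^ K * M') • (Pi.single (M := fun _ => ZMod (p ^ (K + 1))) 0 1 y) = 0
        rw [Pi.single_eq_of_ne hy0, smul_zero])
    rw [h1]
    intro h3
    have h4 : F' 0 = 0 := by
      have := congrArg (fun z : WG p K m => z.f 0) h3
      exact this
    rw [h4] at h2
    have h5 : ((p ^ K * M') • F) 0 = ((p ^ K * M' : ℕ) : ZMod (p ^ (K + 1))) := by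
      rw [Pi.smul_apply]
      show (p ^ K * M') • (Pi.single (M := fun _ => ZMod (p ^ (K + 1))) 0 1 0) = _
      rw [Pi.single_eq_same, nsmul_eq_mul, mul_one]
    rw [h5] at h2
    have h6 : ((p ^ K * M' : ℕ) : ZMod (p ^ (K + 1))) = 0 := by
      have h7 : ((-1 : ZMod (p ^ (K + 1))) ^ (List.finRange m).length) *
          ((-1 : ZMod (p ^ (K + 1))) ^ (List.finRange m).length) = 1 := by
        rw [← mul_pow]; simp
      calc ((p ^ K * M' : ℕ) : ZMod (p ^ (K + 1)))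
          = (((-1 : ZMod (p ^ (K + 1))) ^ (List.finRange m).length) *
          ((-1 : ZMod (p ^ (K + 1))) ^ (List.finRange m).length)) *
            ((p ^ K * M' : ℕ) : ZMod (p ^ (K + 1))) := by rw [h7, one_mul]
        _ = 0 := by rw [mul_assoc, ← h2, mul_zero]
    rw [ZMod.natCast_eq_zero_iff, pow_succ] at h6
    have h8 : p ∣ M' := Nat.dvd_of_mul_dvd_mul_left (pow_pos hp.pos K) h6
    have h9 : p ∣ 1 := by
      have := Nat.dvd_gcd h8 (dvd_refl p)
      rwa [hM'] at this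
    exact hp.one_lt.ne' (Nat.dvd_one.1 h9)


end Pool.Agent.Helper601.TE
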