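import Mathlib
import Pool.Agent.Helper601.TE.Defs
import Pool.Agent.Helper601.TE.Ybasic
import Pool.Agent.Helper601.TE.Yrn
import Pool.Agent.Helper601.TE.Ywreath

set_option autoImplicit false

namespace Pool.Agent.Helper601.TE


theorem torsion_element (n p k0 m M' W : ℕ) (hp : p.Prime) (hM' : M'.Coprime p) (hW : 0 < W)
    (hn : (k0 + 2) * (p - 1) + 2 ≤ n)
    (hb : ∀ (K : Type) [Group K], Eng n K → LN K →
      ∀ (x : K) (l : List K), l.length = m → (cw (x ^ (p ^ (k0 + 1) * M')) l) ^ W = 1) :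
    ∃ v : FreeGroup ℕ, (∃ W' : ℕ, 0 < W' ∧ v ^ W' ∈ Rn n) ∧
      ∃ (G : Type) (_ : Group G) (_ : Finite G), IsPGroup p G ∧ Eng n G ∧
        ∃ f : FreeGroup ℕ →* G, f v ≠ 1 := by
  obtain ⟨G, iG, fG, hpG, hE, x, l, hl, hne⟩ := wreath_example p (k0 + 1) m M' hp hM'
  obtain ⟨v, hv⟩ : ∃ v : FreeGroup ℕ, v = cw ((FreeGroup.of 0) ^ (p ^ (k0 + 1) * M'))
      ((List.range m).map (fun i => FreeGroup.of (i + 1))) := ⟨_, rfl⟩
  refine ⟨v, ⟨W, hW, ?_⟩, G, iG, fG, hpG, hE.mono hn, ?_⟩
  · rw [mem_Rn]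
    intro K _ f hEK hLN
    rw [map_pow, hv, cw_map, map_pow]
    exact hb K hEK hLN _ _ (by simp)
  · refine ⟨FreeGroup.lift (fun i => if i = 0 then x else l.getD (i - 1) 1), ?_⟩
    rw [hv, cw_map, map_pow, List.map_map]
    have h1 : FreeGroup.lift (fun i => if i = 0 then x else l.getD (i - 1) 1)
        (FreeGroup.of 0) = x := by
      rw [FreeGroup.lift_apply_of, if_pos rfl]
    have h2 : (List.range m).map
        ((FreeGroup.lift (fun i => if i = 0 then x else l.getD (i - 1) 1)) ∘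
          (fun i => FreeGroup.of (i + 1))) = l := by
      apply List.ext_getElem
      · rw [List.length_map, List.length_range, hl]
      · intro i hi1 hi2
        rw [List.getElem_map, List.getElem_range, Function.comp_apply, FreeGroup.lift_apply_of,
          if_neg (Nat.succ_ne_zero i), Nat.add_sub_cancel, List.getD_eq_getElem _ _ hi2]
    rw [h1, h2]
    exact hne


end Pool.Agent.Helper601.TE
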