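import Mathlib
import Pool.Agent.Helper601.TE.Defs

set_option autoImplicit false

namespace Pool.Agent.Helper601.TE


open TensorProduct in
theorem torsion_of_tmul_zero (U : Type) [Ring U] (e : U) (h : (1 : ℚ) ⊗ₜ[ℤ] e = 0) :
    ∃ D : ℕ, 0 < D ∧ (D : U) * e = 0 := by
  have h1 : IsLocalizedModule (nonZeroDivisors ℤ) (TensorProduct.mk ℤ ℚ U 1) := by
    rw [isLocalizedModule_iff_isBaseChange (nonZeroDivisors ℤ) ℚ]
    exact TensorProduct.isBaseChange ℤ U ℚ
  have h2 : (TensorProduct.mk ℤ ℚ U 1) e = 0 := h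
  rw [IsLocalizedModule.eq_zero_iff (nonZeroDivisors ℤ)] at h2
  obtain ⟨c, hc⟩ := h2
  have hc0 : (c : ℤ) ≠ 0 := nonZeroDivisors.coe_ne_zero c
  have hc1 : (c : ℤ) • e = 0 := hc
  have hc2 : ((c : ℤ) : U) * e = 0 := by rw [← zsmul_eq_mul]; exact hc1
  refine ⟨(c : ℤ).natAbs, Int.natAbs_pos.mpr hc0, ?_⟩
  rcases Int.natAbs_eq (c : ℤ) with h3 | h3
  · rw [h3] at hc2
    simpa using hc2
  · rw [h3] at hc2
    simpa using hc2

open TensorProduct in
theorem Q_to_Z (n m : ℕ)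
    (hQ : ∀ (R : Type) [Ring R] [Algebra ℚ R] (G : Type) [Group G] (ρ : G →* R),
      (∀ g, (ρ g - 1) ^ n = 0) →
      ∀ l : List G, l.length = m → (l.map (fun g => ρ g - 1)).prod = 0)
    (U : Type) [Ring U] (G : Type) [Group G] (ρ : G →* U) (hρ : ∀ g, (ρ g - 1) ^ n = 0)
    (l : List G) (hl : l.length = m) :
    ∃ D : ℕ, 0 < D ∧ (D : U) * (l.map (fun g => ρ g - 1)).prod = 0 := by
  let ι : U →ₐ[ℤ] (ℚ ⊗[ℤ] U) := Algebra.TensorProduct.includeRight
  have h1 := hQ (ℚ ⊗[ℤ] U) G ((ι : U →* (ℚ ⊗[ℤ] U)).comp ρ) (by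
    intro g
    have h2 : ι ((ρ g - 1) ^ n) = 0 := by rw [hρ, map_zero]
    rw [map_pow, map_sub, map_one] at h2
    exact h2) l hl
  apply torsion_of_tmul_zero
  have h3 : ι ((l.map (fun g => ρ g - 1)).prod) = 0 := by
    rw [map_list_prod, List.map_map]
    rw [← h1]
    congr 1
    apply List.map_congr_left
    intro g _
    simp only [Function.comp, map_sub, map_one]
    rfl
  exact h3

theorem ofFn_get_cast {G : Type} (l : List G) (m : ℕ) (h : l.length = m) :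
    List.ofFn (fun i : Fin m => l.get (i.cast h.symm)) = l := by
  subst h
  simp

theorem unip_Z (n m : ℕ)
    (hQ : ∀ (R : Type) [Ring R] [Algebra ℚ R] (G : Type) [Group G] (ρ : G →* R),
      (∀ g, (ρ g - 1) ^ n = 0) →
      ∀ l : List G, l.length = m → (l.map (fun g => ρ g - 1)).prod = 0) :
    ∃ D : ℕ, 0 < D ∧ ∀ (S : Type) [Ring S] (G : Type) [Group G] (ρ : G →* S),
      (∀ g, (ρ g - 1) ^ n = 0) →
      ∀ l : List G, l.length = m → (D : S) * (l.map (fun g => ρ g - 1)).prod = 0 := by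
  let F := FreeGroup (Fin m)
  let A0 := MonoidAlgebra ℤ F
  let rel : A0 → A0 → Prop := fun a b => ∃ g : F, a = (MonoidAlgebra.of ℤ F g - 1) ^ n ∧ b = 0
  let U := RingQuot rel
  let π : A0 →+* U := RingQuot.mkRingHom rel
  let ρU : F →* U := (π : A0 →* U).comp (MonoidAlgebra.of ℤ F)
  have hρU : ∀ g, (ρU g - 1) ^ n = 0 := by
    intro g
    have h1 : π ((MonoidAlgebra.of ℤ F g - 1) ^ n) = π 0 := RingQuot.mkRingHom_rel ⟨g, rfl, rfl⟩
    rw [map_pow, map_sub, map_one, map_zero] at h1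
    exact h1
  obtain ⟨D, hD, hDe⟩ := Q_to_Z n m hQ U F ρU hρU (List.ofFn (fun i : Fin m => FreeGroup.of i)) (by simp)
  refine ⟨D, hD, ?_⟩
  intro S _ G _ ρ hρ l hl
  let φ : F →* G := FreeGroup.lift (fun i : Fin m => l.get (i.cast hl.symm))
  let Φ : A0 →ₐ[ℤ] S := MonoidAlgebra.lift ℤ S F (ρ.comp φ)
  have hΦ : ∀ g : F, Φ (MonoidAlgebra.of ℤ F g) = ρ (φ g) := by
    intro g
    exact MonoidAlgebra.lift_of (R := ℤ) (ρ.comp φ) g
  let ψ : U →+* S := RingQuot.lift ⟨(Φ : A0 →+* S), by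
    rintro x y ⟨g, rfl, rfl⟩
    change Φ ((MonoidAlgebra.of ℤ F g - 1) ^ n) = Φ 0
    rw [map_pow, map_sub, map_one, map_zero, hΦ]
    exact hρ _⟩
  have hψ : ∀ g : F, ψ (ρU g) = ρ (φ g) := by
    intro g
    have h1 : ψ (π (MonoidAlgebra.of ℤ F g)) = Φ (MonoidAlgebra.of ℤ F g) := by
      exact RingQuot.lift_mkRingHom_apply _ _ _
    rw [hΦ] at h1
    exact h1
  have h2 := congrArg ψ hDe
  rw [map_mul, map_natCast, map_zero, map_list_prod, List.map_map, List.map_ofFn] at h2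
  have h3 : (List.ofFn ((ψ ∘ fun g => ρU g - 1) ∘ fun i : Fin m => FreeGroup.of i)) =
      l.map (fun g => ρ g - 1) := by
    conv_rhs => rw [← ofFn_get_cast l m hl]
    rw [List.map_ofFn]
    congr 1
    funext i
    simp only [Function.comp, map_sub, map_one, hψ]
    have h4 : φ (FreeGroup.of i) = l.get (i.cast hl.symm) := FreeGroup.lift_apply_of
    rw [h4]
  rw [h3] at h2
  exact h2


end Pool.Agent.Helper601.TE
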