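import Mathlib
import Pool.Agent.Helper601.TE.Defs
import Pool.Agent.Helper601.TE.Unip2
import Pool.Agent.Helper601.TE.Yassoc
import Pool.Agent.Helper601.TE.YunipZ
import Pool.Agent.Helper601.TE.YlemDapp
import Pool.Agent.Helper601.TE.Yfin
import Pool.Agent.Helper601.TE.Yindic
import Pool.Agent.Helper601.TE.Ylarge
import Pool.Agent.Helper601.TE.Ynotors
import Pool.Agent.Helper601.TE.Yorderb
import Pool.Agent.Helper601.TE.Ytorsel
import Pool.Agent.Helper601.TE.Yfina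

set_option autoImplicit false

namespace Pool.Agent.Helper601.TE

/-- torsion-free nilpotent `n`-Engel groups have bounded class -/
theorem torsionfree_class (n : ℕ) : ∃ c : ℕ, ∀ (G : Type) [Group G] [Group.IsNilpotent G],
    Eng n G → (∀ (x : G) (m : ℕ), 0 < m → x ^ m = 1 → x = 1) →
      (⊤ : Subgroup G).lowerCentralSeries c = ⊥ := by
  obtain ⟨c, hc⟩ := Pool.Agent.Helper277.ZG.H94.ZelGroup.class_glob Pool.Agent.Helper277.zelLie n
  refine ⟨c, ?_⟩
  intro G _ _ hE htf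
  refine Subgroup.lowerCentralSeries_eq_bot_iff_upperCentralSeries_eq_top.2 ?_
  refine hc G (fun x y => hE y x) ?_
  intro K hK hK0
  have hfg : Group.FG K := (Group.fg_iff_subgroup_fg K).2 hK
  refine torsionfree_indicable K ?_ ?_
  · intro x m hm hx
    apply Subtype.ext
    exact htf x m hm (by simpa using congrArg (fun z : K => (z : G)) hx)
  · exact Subgroup.ne_bot_iff_exists_ne_one.1 hK0

theorem all_facts (n : ℕ) : ∃ m0 c Q0 : ℕ,
    (∀ q : ℕ, q.Prime → ∃ W : ℕ, 0 < W ∧ ∀ (G : Type) [Group G] [Finite G],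
      IsPGroup q G → Eng n G →
      ∀ k : ℕ, n ≤ q ^ k → ∀ (x : G) (l : List G), 2 * m0 ≤ l.length →
        (cw (x ^ q ^ (k + 1)) l) ^ W = 1) ∧
    (∀ q : ℕ, q.Prime → Q0 < q → ∀ (G : Type) [Group G] [Finite G],
      IsPGroup q G → Eng n G → (⊤ : Subgroup G).lowerCentralSeries c = ⊥) := by
  obtain ⟨m, hm⟩ := unip_Q (fun R _ _ n c W h1 h2 h3 h4 => assoc_nil R n c W h1 h2 h3 h4) n
  obtain ⟨D, hD0, hD⟩ := unip_Z n m hm
  obtain ⟨c, hc⟩ := torsionfree_class n
  obtain ⟨Q0, hQ0⟩ := large_prime_class n c hc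
  refine ⟨m, c, Q0, ?_, hQ0⟩
  intro q hq
  exact finite_bound n m D hD0 (lemD_group n m D hD) q hq

theorem main :
    ¬ (∃ N : ℕ, ∀ n : ℕ, N ≤ n →
      ∀ (R R' : Subgroup (FreeGroup ℕ)) [R.Normal] [R'.Normal],
        R = sInf {M : Subgroup (FreeGroup ℕ) | ∃ (K : Type) (_ : Group K) (f : FreeGroup ℕ →* K),
              f.ker = M ∧
              (∀ x y : K, (fun z : K => z⁻¹ * x⁻¹ * z * x)^[n] y = 1) ∧
              ∀ s : Finset K, Group.IsNilpotent (Subgroup.closure (s : Set K))} →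
        R' = sInf {M : Subgroup (FreeGroup ℕ) | ∃ (K : Type) (_ : Group K) (f : FreeGroup ℕ →* K),
              f.ker = M ∧
              (∀ x y : K, (fun z : K => z⁻¹ * x⁻¹ * z * x)^[n + 1] y = 1) ∧
              ∀ s : Finset K, Group.IsNilpotent (Subgroup.closure (s : Set K))} →
        ∀ p : ℕ, p.Prime →
          ((∃ g : FreeGroup ℕ ⧸ R, IsOfFinOrder g ∧ p ∣ orderOf g) ↔
           (∃ g : FreeGroup ℕ ⧸ R', IsOfFinOrder g ∧ p ∣ orderOf g))) := by
  apply final_aux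
  · intro N
    obtain ⟨m0, c, Q0, -, h2⟩ := all_facts N
    exact no_torsion N c Q0 h2
  · intro p hp hp3
    obtain ⟨m0, c, Q0, h1, h2⟩ := all_facts (5 * p)
    have hk0 : 5 * p ≤ p ^ 3 := by
      have : 9 ≤ p * p := Nat.mul_le_mul hp3 hp3
      calc 5 * p ≤ (p * p) * p := Nat.mul_le_mul_right p (by omega)
        _ = p ^ 3 := by ring
    obtain ⟨m, M', W, hM', hW, hb⟩ := order_bound (5 * p) m0 c Q0 p 3 hp hk0 h1 h2
    refine torsion_element (5 * p) p 3 m M' W hp hM' hW ?_ hb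
    obtain ⟨r, rfl⟩ : ∃ r, p = r + 1 := ⟨p - 1, by omega⟩
    simp only [Nat.add_sub_cancel]
    omega

end Pool.Agent.Helper601.TE
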