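import Mathlib
import Pool.Agent.Helper601.TE.Defs
import Pool.Agent.Helper601.TE.Ybasic
import Pool.Agent.Helper601.TE.Yrn

set_option autoImplicit false

namespace Pool.Agent.Helper601.TE


theorem final_aux
    (hT : ∀ N : ℕ, ∃ P0 : ℕ, ∀ p : ℕ, p.Prime → P0 < p → ∀ v : FreeGroup ℕ,
      v ^ p ∈ Rn N → v ∈ Rn N)
    (hE : ∀ p : ℕ, p.Prime → 3 ≤ p → ∃ v : FreeGroup ℕ, (∃ W' : ℕ, 0 < W' ∧ v ^ W' ∈ Rn (5 * p)) ∧
      ∃ (G : Type) (_ : Group G) (_ : Finite G), IsPGroup p G ∧ Eng (5 * p) G ∧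
        ∃ f : FreeGroup ℕ →* G, f v ≠ 1) :
    ¬ (∃ N : ℕ, ∀ n : ℕ, N ≤ n →
      ∀ (R R' : Subgroup (FreeGroup ℕ)) [R.Normal] [R'.Normal],
        R = sInf {M : Subgroup (FreeGroup ℕ) | ∃ (K : Type) (_ : Group K) (f : FreeGroup ℕ →* K),
              f.ker = M ∧
              (∀ x y : K, (fun z : K => z⁻¹ * x⁻¹ * z * x)^[n] y = 1) ∧
              ∀ s : Finset K, Group.IsNilpotent (Subgroup.closure (s : Set K))} →
        R' = sInf {M : Subgroup (FreeGroup ℕ) | ∃ (K : Type) (_ : Group K) (f : FreeGroup ℕ →* K),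
              f.ker = M ∧
              (∀ x y : K, (fun z : K => z⁻¹ * x⁻¹ * z * x)^[n + 1] y = 1) ∧
              ∀ s : Finset K, Group.IsNilpotent (Subgroup.closure (s : Set K))} →
        ∀ p : ℕ, p.Prime →
          ((∃ g : FreeGroup ℕ ⧸ R, IsOfFinOrder g ∧ p ∣ orderOf g) ↔
           (∃ g : FreeGroup ℕ ⧸ R', IsOfFinOrder g ∧ p ∣ orderOf g))) := by
  rintro ⟨N, hN⟩
  have inst : ∀ n, (Rn n).Normal := Rn_normal
  have step : ∀ n, N ≤ n → ∀ p : ℕ, p.Prime →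
      ((∃ g : FreeGroup ℕ ⧸ Rn n, IsOfFinOrder g ∧ p ∣ orderOf g) ↔
       (∃ g : FreeGroup ℕ ⧸ Rn (n + 1), IsOfFinOrder g ∧ p ∣ orderOf g)) := by
    intro n hn p hp
    exact hN n hn (Rn n) (Rn (n + 1)) rfl rfl p hp
  have all : ∀ n, N ≤ n → ∀ p : ℕ, p.Prime →
      ((∃ g : FreeGroup ℕ ⧸ Rn N, IsOfFinOrder g ∧ p ∣ orderOf g) ↔
       (∃ g : FreeGroup ℕ ⧸ Rn n, IsOfFinOrder g ∧ p ∣ orderOf g)) := by
    intro n hn
    induction n, hn using Nat.le_induction with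
    | base => intro p hp; exact Iff.rfl
    | succ n hn ih => intro p hp; exact (ih p hp).trans (step n hn p hp)
  obtain ⟨P0, hP0⟩ := hT N
  obtain ⟨p, hpge, hp⟩ := Nat.exists_infinite_primes (max P0 (N + 3) + 1)
  have hp1 : P0 < p := by
    have := le_max_left P0 (N + 3)
    omega
  have hp2 : N + 3 < p := by
    have := le_max_right P0 (N + 3)
    omega
  obtain ⟨v, ⟨W', hW', hvW⟩, G, _, _, hPG, hEng, f, hf⟩ := hE p hp (by omega)
  have hN5 : N ≤ 5 * p := by omega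
  have hT5 : ∃ g : FreeGroup ℕ ⧸ Rn (5 * p), IsOfFinOrder g ∧ p ∣ orderOf g := by
    have hgfin : IsOfFinOrder (QuotientGroup.mk v : FreeGroup ℕ ⧸ Rn (5 * p)) := by
      rw [isOfFinOrder_iff_pow_eq_one]
      refine ⟨W', hW', ?_⟩
      rw [← QuotientGroup.mk_pow]
      exact (QuotientGroup.eq_one_iff _).2 hvW
    refine ⟨_, hgfin, ?_⟩
    have hLN : LN G := by
      intro s
      haveI : Fact p.Prime := ⟨hp⟩
      have h1 : IsPGroup p (Subgroup.closure (s : Set G)) := hPG.to_subgroup _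
      exact h1.isNilpotent
    have hker : ∀ x ∈ Rn (5 * p), f x = 1 := fun x hx =>
      (mem_Rn (5 * p) x).1 hx G f hEng hLN
    have hfbar : QuotientGroup.lift (Rn (5 * p)) f hker
        (QuotientGroup.mk v : FreeGroup ℕ ⧸ Rn (5 * p)) = f v := rfl
    have h2 := orderOf_map_dvd (QuotientGroup.lift (Rn (5 * p)) f hker)
      (QuotientGroup.mk v : FreeGroup ℕ ⧸ Rn (5 * p))
    rw [hfbar] at h2
    haveI : Fact p.Prime := ⟨hp⟩
    obtain ⟨k, hk⟩ := (IsPGroup.iff_orderOf.1 hPG) (f v)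
    have hk0 : k ≠ 0 := by
      rintro rfl
      rw [pow_zero] at hk
      exact hf (orderOf_eq_one_iff.1 hk)
    rw [hk] at h2
    exact (dvd_pow_self p hk0).trans h2
  obtain ⟨g, hgfin, hgp⟩ := (all (5 * p) hN5 p hp).2 hT5
  obtain ⟨v0, rfl⟩ := QuotientGroup.mk_surjective g
  have ho : 0 < orderOf (QuotientGroup.mk v0 : FreeGroup ℕ ⧸ Rn N) := orderOf_pos_iff.2 hgfin
  obtain ⟨m, hm⟩ := hgp
  have hm0 : 0 < m := by
    rcases Nat.eq_zero_or_pos m with h | h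
    · rw [h, mul_zero] at hm
      omega
    · exact h
  have h3 : (v0 ^ m) ^ p ∈ Rn N := by
    rw [← pow_mul, mul_comm, ← hm, ← QuotientGroup.eq_one_iff, QuotientGroup.mk_pow]
    exact pow_orderOf_eq_one _
  have h4 := hP0 p hp hp1 (v0 ^ m) h3
  have h5 : (QuotientGroup.mk v0 : FreeGroup ℕ ⧸ Rn N) ^ m = 1 := by
    rw [← QuotientGroup.mk_pow]
    exact (QuotientGroup.eq_one_iff _).2 h4
  have h6 := Nat.le_of_dvd hm0 (orderOf_dvd_of_pow_eq_one h5)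
  rw [hm] at h6
  have h7 := hp.two_le
  nlinarith


end Pool.Agent.Helper601.TE
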